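import Mathlib

/-!
# MP_9085a3_al, FPY: alternating bilinear maps over `F_p` (linear algebra of `p`-groups of exponent `p`
and class two in which every subgroup is a fixed point subgroup).

`b : V → V → W` is a bilinear map over `F_p = ZMod p` (no form is assumed alternating unless stated);
`φ (b x y)` is the form belonging to the functional `φ`.
-/

set_option autoImplicit false

namespace FPY

section

variable {p : ℕ} {V W : Type} [AddCommGroup V] [Module (ZMod p) V] [AddCommGroup W]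
  [Module (ZMod p) W]

/-- The radical of the form `φ (b x y)`. -/
def Rad (b : V →ₗ[ZMod p] V →ₗ[ZMod p] W) (φ : W →ₗ[ZMod p] ZMod p) : Submodule (ZMod p) V where
  carrier := {x | ∀ y, φ (b x y) = 0}
  add_mem' := by
    intro x x' hx hx' y
    rw [map_add, LinearMap.add_apply, map_add, hx y, hx' y, add_zero]
  zero_mem' := by
    intro y
    rw [map_zero, LinearMap.zero_apply, map_zero]
  smul_mem' := by
    intro c x hx y
    rw [map_smul, LinearMap.smul_apply, map_smul, hx y, smul_zero]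

theorem mem_Rad {b : V →ₗ[ZMod p] V →ₗ[ZMod p] W} {φ : W →ₗ[ZMod p] ZMod p} {x : V} :
    x ∈ Rad b φ ↔ ∀ y, φ (b x y) = 0 := Iff.rfl

/-- `A` is its own perpendicular for the form `φ (b x y)` (a maximal isotropic subspace). -/
def MaxI (b : V →ₗ[ZMod p] V →ₗ[ZMod p] W) (φ : W →ₗ[ZMod p] ZMod p) (A : Submodule (ZMod p) V) :
    Prop :=
  ∀ x, x ∈ A ↔ ∀ a ∈ A, φ (b a x) = 0

/-- `1 + N` acts on `V` and `w ↦ w + φ(w) u` on `W`, compatibly with `b`; `1 + N` is the identity on
`A`, which is maximal isotropic for `φ (b x y)`. -/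
structure Dat (b : V →ₗ[ZMod p] V →ₗ[ZMod p] W) (φ : W →ₗ[ZMod p] ZMod p)
    (A : Submodule (ZMod p) V) (N : V →ₗ[ZMod p] V) (u : W) : Prop where
  max : MaxI b φ A
  zero : ∀ a ∈ A, N a = 0
  mul : ∀ x y, b (N x) y + b x (N y) + b (N x) (N y) = φ (b x y) • u
  ne : u ≠ 0

/-- Derivations of `b` attached to `φ`. -/
structure Der (b : V →ₗ[ZMod p] V →ₗ[ZMod p] W) (φ : W →ₗ[ZMod p] ZMod p)
    (N : V →ₗ[ZMod p] V) (u : W) : Prop where
  mem : ∀ x, N x ∈ Rad b φ
  zero : ∀ d ∈ Rad b φ, N d = 0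
  orth : ∀ x, ∀ d ∈ Rad b φ, b (N x) d = 0
  der : ∀ x y, b (N x) y + b x (N y) = φ (b x y) • u

/-- The data of type B for a maximal isotropic subspace `A`. -/
structure TB (b : V →ₗ[ZMod p] V →ₗ[ZMod p] W) (φ : W →ₗ[ZMod p] ZMod p)
    (A : Submodule (ZMod p) V) (N : V →ₗ[ZMod p] V) (u : W) : Prop where
  max : MaxI b φ A
  der : Der b φ N u
  act : ∀ a ∈ A, ∀ x, b a (N x) = φ (b a x) • u
  ker : ∀ x, N x = 0 → x ∈ A
  ne : u ≠ 0
  phi : φ u = 0

/-- The vectors `u` belonging to derivations attached to `φ`. -/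
def Xs (b : V →ₗ[ZMod p] V →ₗ[ZMod p] W) (φ : W →ₗ[ZMod p] ZMod p) : Submodule (ZMod p) W where
  carrier := {u | ∃ N, Der b φ N u}
  add_mem' := by
    rintro u u' ⟨N, hN⟩ ⟨N', hN'⟩
    refine ⟨N + N', ⟨fun x => (Rad b φ).add_mem (hN.mem x) (hN'.mem x), ?_, ?_, ?_⟩⟩
    · intro d hd
      rw [LinearMap.add_apply, hN.zero d hd, hN'.zero d hd, add_zero]
    · intro x d hd
      rw [LinearMap.add_apply, map_add, LinearMap.add_apply, hN.orth x d hd, hN'.orth x d hd,
        add_zero]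
    · intro x y
      have h1 := hN.der x y
      have h2 := hN'.der x y
      rw [smul_add, ← h1, ← h2]
      simp only [LinearMap.add_apply, map_add]
      abel
  zero_mem' := by
    refine ⟨0, ⟨fun x => (Rad b φ).zero_mem, fun d _ => rfl, fun x d _ => ?_, fun x y => ?_⟩⟩
    · simp
    · simp
  smul_mem' := by
    rintro c u ⟨N, hN⟩
    refine ⟨c • N, ⟨fun x => (Rad b φ).smul_mem c (hN.mem x), ?_, ?_, ?_⟩⟩
    · intro d hd
      rw [LinearMap.smul_apply, hN.zero d hd, smul_zero]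
    · intro x d hd
      rw [LinearMap.smul_apply, map_smul, LinearMap.smul_apply, hN.orth x d hd, smul_zero]
    · intro x y
      have h1 := hN.der x y
      rw [smul_comm, ← h1]
      simp only [LinearMap.smul_apply, map_smul, smul_add]

/-- The form of `φ` is not zero. -/
def NZ (b : V →ₗ[ZMod p] V →ₗ[ZMod p] W) (φ : W →ₗ[ZMod p] ZMod p) : Prop :=
  ∃ x y, φ (b x y) ≠ 0

end

/-- `b` is alternating with trivial radical, over a field of odd order `p`, and (F) holds on the
level of linear algebra: for `U ≤ V`, `X ≤ W` with `b(U, U) ≤ X` there are linear maps `A`, `B`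
compatible with `b`, `A` the identity on `U` and `B` with fixed space `X`. -/
structure Hyp (p : ℕ) {V W : Type} [AddCommGroup V] [Module (ZMod p) V] [AddCommGroup W]
    [Module (ZMod p) W] (b : V →ₗ[ZMod p] V →ₗ[ZMod p] W) : Prop where
  prime : p.Prime
  odd : p ≠ 2
  finV : Finite V
  finW : Finite W
  alt : ∀ x, b x x = 0
  nondeg : ∀ x, (∀ y, b x y = 0) → x = 0
  hC : ∀ (U : Submodule (ZMod p) V) (X : Submodule (ZMod p) W), (∀ u ∈ U, ∀ v ∈ U, b u v ∈ X) →
    ∃ (A : V →ₗ[ZMod p] V) (B : W →ₗ[ZMod p] W), (∀ x y, b (A x) (A y) = B (b x y)) ∧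
      (∀ u ∈ U, A u = u) ∧ ∀ w, B w = w ↔ w ∈ X

/-- The situation after the exclusion of type A: no nonzero `h` has `b(h, V)` of dimension one, and
every maximal isotropic subspace has data of type B. -/
structure Hyp2 (p : ℕ) {V W : Type} [AddCommGroup V] [Module (ZMod p) V] [AddCommGroup W]
    [Module (ZMod p) W] (b : V →ₗ[ZMod p] V →ₗ[ZMod p] W) : Prop where
  prime : p.Prime
  odd : p ≠ 2
  finV : Finite V
  finW : Finite W
  alt : ∀ x, b x x = 0
  nondeg : ∀ x, (∀ y, b x y = 0) → x = 0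
  hR : ∀ h, h ≠ 0 → ∀ z, ¬ ∀ x, ∃ c : ZMod p, b h x = c • z
  hB : ∀ φ, NZ b φ → ∀ A, MaxI b φ A → ∃ N u, TB b φ A N u

/-- `φ` is minimal: its form is not zero and `Xs b φ` has the smallest possible order. -/
structure Min {p : ℕ} {V W : Type} [AddCommGroup V] [Module (ZMod p) V] [AddCommGroup W]
    [Module (ZMod p) W] (b : V →ₗ[ZMod p] V →ₗ[ZMod p] W) (φ : W →ₗ[ZMod p] ZMod p) : Prop where
  nz : NZ b φ
  le : ∀ ψ, NZ b ψ → Nat.card (Xs b φ) ≤ Nat.card (Xs b ψ)

end FPY
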