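import Pool.Agent.FPY.Defs
import Pool.Agent.FPX.Defs4

/-!
The group side: `P` is a finite group of exponent `p` with central derived subgroup.
-/

set_option autoImplicit false

namespace FPY

/-- Linear model of a group `P` of exponent `p` with central commutators: `π` identifies `P / Z(P)` with
`V`, `ι` identifies `W` with `Z(P)`, `b` is the commutator map. -/
structure Mdl {P : Type} [Group P] (p : ℕ) {V W : Type} [AddCommGroup V] [Module (ZMod p) V]
    [AddCommGroup W] [Module (ZMod p) W] (π : P → V) (ι : W → P)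
    (b : V →ₗ[ZMod p] V →ₗ[ZMod p] W) : Prop where
  surj : ∀ v, ∃ g, π g = v
  mul : ∀ g h, π (g * h) = π g + π h
  ker : ∀ g, π g = 0 ↔ g ∈ Subgroup.center P
  inj : Function.Injective ι
  add : ∀ w w', ι (w + w') = ι w * ι w'
  mem : ∀ g, g ∈ Subgroup.center P ↔ ∃ w, ι w = g
  com : ∀ g h, g * h * g⁻¹ * h⁻¹ = ι (b (π g) (π h))
  exp : ∀ g : P, g ^ p = 1

/-- The span of the values of `b`. -/
def Im {p : ℕ} {V W : Type} [AddCommGroup V] [Module (ZMod p) V] [AddCommGroup W]
    [Module (ZMod p) W] (b : V →ₗ[ZMod p] V →ₗ[ZMod p] W) : Submodule (ZMod p) W :=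
  Submodule.span (ZMod p) (Set.range fun q : V × V => b q.1 q.2)

/-- `b` is alternating, `V` has dimension `3` and the values of `b` span a space of dimension `3`. -/
structure Free3 (p : ℕ) {V W : Type} [AddCommGroup V] [Module (ZMod p) V] [AddCommGroup W]
    [Module (ZMod p) W] (b : V →ₗ[ZMod p] V →ₗ[ZMod p] W) : Prop where
  prime : p.Prime
  odd : p ≠ 2
  finV : Finite V
  finW : Finite W
  alt : ∀ x, b x x = 0
  dV : Module.finrank (ZMod p) V = 3
  dI : Module.finrank (ZMod p) (Im b) = 3

end FPY
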