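import Pool.Agent.FPY.Defs2

set_option autoImplicit false

namespace FPY

/-- the commutator with values in the centre -/
private def G1_c {P : Type} [Group P] (hc : ∀ g h : P, g * h * g⁻¹ * h⁻¹ ∈ Subgroup.center P)
    (g h : P) : Subgroup.center P := ⟨g * h * g⁻¹ * h⁻¹, hc g h⟩

section
variable {P : Type} [Group P] (hc : ∀ g h : P, g * h * g⁻¹ * h⁻¹ ∈ Subgroup.center P)
include hc

private theorem G1_left (g g' h : P) : G1_c hc (g * g') h = G1_c hc g h * G1_c hc g' h := by
  apply Subtype.ext
  change g * g' * h * (g * g')⁻¹ * h⁻¹ = (g * h * g⁻¹ * h⁻¹) * (g' * h * g'⁻¹ * h⁻¹)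
  have h1 := Subgroup.mem_center_iff.1 (hc g' h) g
  calc g * g' * h * (g * g')⁻¹ * h⁻¹ = g * (g' * h * g'⁻¹ * h⁻¹) * (h * g⁻¹ * h⁻¹) := by group
    _ = (g' * h * g'⁻¹ * h⁻¹) * g * (h * g⁻¹ * h⁻¹) := by rw [h1]
    _ = (g' * h * g'⁻¹ * h⁻¹) * (g * h * g⁻¹ * h⁻¹) := by group
    _ = _ := (Subgroup.mem_center_iff.1 (hc g' h) (g * h * g⁻¹ * h⁻¹)).symm

private theorem G1_right (g h h' : P) : G1_c hc g (h * h') = G1_c hc g h * G1_c hc g h' := by
  apply Subtype.ext
  change g * (h * h') * g⁻¹ * (h * h')⁻¹ = (g * h * g⁻¹ * h⁻¹) * (g * h' * g⁻¹ * h'⁻¹)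
  have h1 := Subgroup.mem_center_iff.1 (hc g h') h
  calc g * (h * h') * g⁻¹ * (h * h')⁻¹ = g * h * g⁻¹ * (g * h' * g⁻¹ * h'⁻¹) * h⁻¹ := by group
    _ = g * h * g⁻¹ * ((g * h' * g⁻¹ * h'⁻¹) * h⁻¹) := by group
    _ = g * h * g⁻¹ * (h⁻¹ * (g * h' * g⁻¹ * h'⁻¹)) := by
        rw [Subgroup.mem_center_iff.1 (hc g h') h⁻¹]
    _ = _ := by group

private theorem G1_cen_left (g z h : P) (hz : z ∈ Subgroup.center P) :
    G1_c hc (g * z) h = G1_c hc g h := by
  rw [G1_left]
  have : G1_c hc z h = 1 := by
    apply Subtype.ext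
    change z * h * z⁻¹ * h⁻¹ = 1
    rw [← Subgroup.mem_center_iff.1 hz h]
    group
  rw [this, mul_one]

private theorem G1_cen_right (g z h : P) (hz : z ∈ Subgroup.center P) :
    G1_c hc g (h * z) = G1_c hc g h := by
  rw [G1_right]
  have : G1_c hc g z = 1 := by
    apply Subtype.ext
    change g * z * g⁻¹ * z⁻¹ = 1
    rw [Subgroup.mem_center_iff.1 hz g]
    group
  rw [this, mul_one]

private theorem G1_out (g h : P) :
    G1_c hc ((g : P ⧸ Subgroup.center P).out) ((h : P ⧸ Subgroup.center P).out) =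
      G1_c hc g h := by
  obtain ⟨x, hx⟩ := QuotientGroup.mk_out_eq_mul (Subgroup.center P) g
  obtain ⟨y, hy⟩ := QuotientGroup.mk_out_eq_mul (Subgroup.center P) h
  rw [hx, hy, G1_cen_left hc _ _ _ x.2, G1_cen_right hc _ _ _ y.2]

end

/-- The model.  PROOF. `V = Additive (P ⧸ center P)`, `W = Additive (center P)`: both are commutative
groups (`P / Z(P)` because commutators are central) of exponent `p`, so modules over `ZMod p`
(`AddCommGroup.zmodModule`).  Commutators: `[g g', h] = g [g', h] g⁻¹ [g, h] = [g, h] [g', h]` because commutators are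
central, similarly in the second variable, and `[g, h]` depends only on the classes of `g` and `h` modulo the
centre (`[g ζ, h] = [g, h]`).  Additive maps between `ZMod p`-modules are linear
(`AddMonoidHom.toZModLinearMap`). -/
theorem exists_mdl {P : Type} [Group P] [Finite P] {p : ℕ} (hp : p.Prime)
    (hexp : ∀ g : P, g ^ p = 1) (hc : ∀ g h : P, g * h * g⁻¹ * h⁻¹ ∈ Subgroup.center P) :
    ∃ (V W : Type) (_ : AddCommGroup V) (_ : Module (ZMod p) V) (_ : AddCommGroup W)
      (_ : Module (ZMod p) W) (_ : Finite V) (_ : Finite W) (π : P → V) (ι : W → P)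
      (b : V →ₗ[ZMod p] V →ₗ[ZMod p] W), Mdl p π ι b := by
  let iQ : CommGroup (P ⧸ Subgroup.center P) :=
    { (inferInstance : Group (P ⧸ Subgroup.center P)) with
      mul_comm := by
        intro x y
        induction x using QuotientGroup.induction_on with
        | H g =>
          induction y using QuotientGroup.induction_on with
          | H h =>
            change ((g * h : P) : P ⧸ Subgroup.center P) = ((h * g : P) : P ⧸ Subgroup.center P)
            rw [QuotientGroup.eq]
            have h1 : (g * h)⁻¹ * (h * g) = h⁻¹ * g⁻¹ * (h⁻¹)⁻¹ * (g⁻¹)⁻¹ := by group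
            rw [h1]
            exact hc _ _ }
  let iC : CommGroup (Subgroup.center P) :=
    { (inferInstance : Group (Subgroup.center P)) with
      mul_comm := by
        intro x y
        apply Subtype.ext
        exact Subgroup.mem_center_iff.1 y.2 x.1 }
  let iV : Module (ZMod p) (Additive (P ⧸ Subgroup.center P)) :=
    AddCommGroup.zmodModule (n := p) (by
      intro x
      induction x using QuotientGroup.induction_on with
      | H g =>
        change ((g ^ p : P) : P ⧸ Subgroup.center P) = ((1 : P) : P ⧸ Subgroup.center P)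
        rw [hexp])
  let iW : Module (ZMod p) (Additive (Subgroup.center P)) :=
    AddCommGroup.zmodModule (n := p) (by
      intro x
      have h1 : (Additive.toMul x : Subgroup.center P) ^ p = 1 := Subtype.ext (hexp _)
      exact congrArg Additive.ofMul h1)
  let π : P → Additive (P ⧸ Subgroup.center P) :=
    fun g => Additive.ofMul (g : P ⧸ Subgroup.center P)
  let ι : Additive (Subgroup.center P) → P := fun w => (Additive.toMul w : Subgroup.center P)
  have hsurj : ∀ v, ∃ g, π g = v := fun v => QuotientGroup.mk_surjective (Additive.toMul v)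
  let f : Additive (P ⧸ Subgroup.center P) → Additive (P ⧸ Subgroup.center P) →
      Additive (Subgroup.center P) := fun x y =>
    Additive.ofMul (G1_c hc (Additive.toMul x).out (Additive.toMul y).out)
  have hf : ∀ g h, f (π g) (π h) = Additive.ofMul (G1_c hc g h) := fun g h =>
    congrArg Additive.ofMul (G1_out hc g h)
  have hfl : ∀ x x' y, f (x + x') y = f x y + f x' y := by
    intro x x' y
    obtain ⟨g, rfl⟩ := hsurj x
    obtain ⟨g', rfl⟩ := hsurj x'
    obtain ⟨h, rfl⟩ := hsurj y
    have e : π g + π g' = π (g * g') := rfl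
    rw [e, hf, hf, hf, G1_left]
    rfl
  have hfr : ∀ x y y', f x (y + y') = f x y + f x y' := by
    intro x y y'
    obtain ⟨g, rfl⟩ := hsurj x
    obtain ⟨h, rfl⟩ := hsurj y
    obtain ⟨h', rfl⟩ := hsurj y'
    have e : π h + π h' = π (h * h') := rfl
    rw [e, hf, hf, hf, G1_right]
    rfl
  refine ⟨Additive (P ⧸ Subgroup.center P), Additive (Subgroup.center P), inferInstance, iV,
    inferInstance, iW, ?_, ?_, π, ι, LinearMap.mk₂ (ZMod p) f hfl ?_ hfr ?_, ?_⟩
  · exact inferInstanceAs (Finite (P ⧸ Subgroup.center P))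
  · exact inferInstanceAs (Finite (Subgroup.center P))
  · intro c x y
    exact ZMod.map_smul (AddMonoidHom.mk' (fun x => f x y) fun x x' => hfl x x' y) c x
  · intro c x y
    exact ZMod.map_smul (AddMonoidHom.mk' (f x) (hfr x)) c y
  · refine ⟨hsurj, fun g h => rfl, fun g => ?_, ?_, fun w w' => rfl, fun g => ?_, fun g h => ?_,
      hexp⟩
    · change ((g : P) : P ⧸ Subgroup.center P) = 1 ↔ _
      exact QuotientGroup.eq_one_iff g
    · intro w w' hw
      exact Subtype.ext hw
    · exact ⟨fun hg => ⟨Additive.ofMul ⟨g, hg⟩, rfl⟩, fun ⟨w, hw⟩ => by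
        rw [← hw]; exact (Additive.toMul w : Subgroup.center P).2⟩
    · have h1 := hf g h
      have h2 := congrArg ι h1
      exact h2.symm

end FPY
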