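import Pool.Agent.FPY.G2

set_option autoImplicit false

namespace FPY

variable {p : ℕ} {V W : Type} [AddCommGroup V] [Module (ZMod p) V] [AddCommGroup W]
  [Module (ZMod p) W] {b : V →ₗ[ZMod p] V →ₗ[ZMod p] W}

/-- Induced maps.  PROOF. The centre is characteristic.  `A v = π (α g)` for any `g` with `π g = v`; `ι (B w) = α (ι w)`.
Additive, so linear (`AddMonoidHom.toZModLinearMap`).  Compatibility: `α` applied to `com`. -/
theorem induced {P : Type} [Group P] [Finite P] {π : P → V} {ι : W → P} (h : Mdl p π ι b)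
    (α : MulAut P) : ∃ (A : V →ₗ[ZMod p] V) (B : W →ₗ[ZMod p] W), (∀ g, π (α g) = A (π g)) ∧
      (∀ w, α (ι w) = ι (B w)) ∧ ∀ x y, b (A x) (A y) = B (b x y) := by
  obtain ⟨h0, h1, h2, h3, h4, h5⟩ := mdl_basic h
  have hcen : ∀ g, g ∈ Subgroup.center P → α g ∈ Subgroup.center P := by
    intro g hg
    rw [Subgroup.mem_center_iff] at hg ⊢
    intro k
    have h6 := hg (α.symm k)
    have h7 := congrArg α h6
    rw [map_mul, map_mul, MulEquiv.apply_symm_apply] at h7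
    exact h7
  choose s hs using h.surj
  have hA : ∀ g, π (α g) = π (α (s (π g))) := by
    intro g
    obtain ⟨w, hw⟩ := h5 g (s (π g)) (hs (π g)).symm
    conv_lhs => rw [hw]
    rw [map_mul, h.mul, (h.ker _).2 (hcen _ ((h.mem _).2 ⟨w, rfl⟩)), add_zero]
  have hB : ∀ w, ∃ w', ι w' = α (ι w) := fun w => (h.mem _).1 (hcen _ ((h.mem _).2 ⟨w, rfl⟩))
  choose B hB using hB
  have hAadd : ∀ x y, π (α (s (x + y))) = π (α (s x)) + π (α (s y)) := by
    intro x y
    have h6 := hA (s x * s y)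
    rw [h.mul, hs, hs, map_mul, h.mul] at h6
    exact h6.symm
  have hBadd : ∀ x y, B (x + y) = B x + B y := by
    intro x y
    apply h.inj
    rw [hB, h.add, map_mul, ← hB, ← hB, ← h.add]
  refine ⟨(AddMonoidHom.mk' (fun x => π (α (s x))) hAadd).toZModLinearMap p,
    (AddMonoidHom.mk' B hBadd).toZModLinearMap p, hA, fun w => (hB w).symm, fun x y => ?_⟩
  change b (π (α (s x))) (π (α (s y))) = B (b x y)
  apply h.inj
  rw [hB, ← h.com]
  have h6 := h.com (s x) (s y)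
  rw [hs, hs] at h6
  rw [← h6, map_mul, map_mul, map_mul, map_inv, map_inv]

/-- PROOF. `exists_compl`, `PF P` for `H`, `induced`.  `A u = u` for `u ∈ U`: `u = π g`, `g ∈ H`, `α g = g`.
`B w = w ↔ α (ι w) = ι w ↔ ι w ∈ H ↔ w ∈ X` (`inj`). -/
theorem mdl_hyp {P : Type} [Group P] [Finite P] (hp : p.Prime) (h2 : p ≠ 2) [Finite V] [Finite W]
    {π : P → V} {ι : W → P} (h : Mdl p π ι b) (hF : FPX.PF P) : Hyp p b := by
  obtain ⟨_, _, _, h3, h4, _⟩ := mdl_basic h
  refine ⟨hp, h2, inferInstance, inferInstance, h3, h4, fun U X hUX => ?_⟩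
  obtain ⟨H, hH1, hH2, hH3⟩ := exists_compl hp h U X hUX
  obtain ⟨α, hα⟩ := hF H
  obtain ⟨A, B, hA, hB, hAB⟩ := induced h α
  refine ⟨A, B, hAB, fun u hu => ?_, fun w => ?_⟩
  · obtain ⟨g, hg, rfl⟩ := hH2 u hu
    rw [← hA, (hα g).2 hg]
  · rw [← hH1, ← hα, hB]
    exact ⟨fun h5 => by rw [h5], fun h5 => h.inj h5⟩

end FPY
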