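import Pool.Agent.FPY.G2

set_option autoImplicit false

namespace FPY

variable {p : ℕ} {V W : Type} [AddCommGroup V] [Module (ZMod p) V] [AddCommGroup W]
  [Module (ZMod p) W] {b : V →ₗ[ZMod p] V →ₗ[ZMod p] W}

private theorem G4_nsmul {P : Type} [Group P] {π : P → V} {ι : W → P} (h : Mdl p π ι b)
    (w : W) (n : ℕ) : ι (n • w) = ι w ^ n := by
  induction n with
  | zero => rw [zero_nsmul, pow_zero, (mdl_basic h).1]
  | succ n ih => rw [succ_nsmul, h.add, ih, pow_succ]

private theorem G4_neg {P : Type} [Group P] {π : P → V} {ι : W → P} (h : Mdl p π ι b)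
    (w : W) : ι (-w) = (ι w)⁻¹ := by
  rw [eq_inv_iff_mul_eq_one, ← h.add, neg_add_cancel, (mdl_basic h).1]

/-- PROOF. The derived subgroup is the set of the `ι w`, `w ∈ Im b`: commutators are `ι (b x y)`, the image of `Im b`
under `ι` is a subgroup (`Subgroup.closure_induction`, `Submodule.span_induction`; `ι (c • w) = ι w ^ c.val`). -/
theorem mdl_comm {P : Type} [Group P] (hp : p.Prime) {π : P → V} {ι : W → P} (h : Mdl p π ι b)
    (g : P) : g ∈ commutator P ↔ ∃ w ∈ Im b, ι w = g := by
  have : Fact p.Prime := ⟨hp⟩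
  constructor
  · intro hg
    rw [commutator_eq_closure] at hg
    induction hg using Subgroup.closure_induction with
    | mem x hx =>
      obtain ⟨g1, g2, rfl⟩ := hx
      exact ⟨b (π g1) (π g2), Submodule.subset_span ⟨(π g1, π g2), rfl⟩, (h.com g1 g2).symm⟩
    | one => exact ⟨0, Submodule.zero_mem _, (mdl_basic h).1⟩
    | mul x y _ _ hx hy =>
      obtain ⟨w, hw, rfl⟩ := hx
      obtain ⟨w', hw', rfl⟩ := hy
      exact ⟨w + w', Submodule.add_mem _ hw hw', h.add w w'⟩
    | inv x _ hx =>
      obtain ⟨w, hw, rfl⟩ := hx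
      exact ⟨-w, Submodule.neg_mem _ hw, G4_neg h w⟩
  · rintro ⟨w, hw, rfl⟩
    unfold Im at hw
    induction hw using Submodule.span_induction with
    | mem x hx =>
      obtain ⟨⟨u, v⟩, rfl⟩ := hx
      obtain ⟨g1, rfl⟩ := h.surj u
      obtain ⟨g2, rfl⟩ := h.surj v
      have h1 := h.com g1 g2
      change ι (b (π g1) (π g2)) ∈ commutator P
      rw [← h1]
      exact Subgroup.commutator_mem_commutator (Subgroup.mem_top g1) (Subgroup.mem_top g2)
    | zero =>
      rw [(mdl_basic h).1]
      exact Subgroup.one_mem _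
    | add x y _ _ hx hy =>
      rw [h.add]
      exact Subgroup.mul_mem _ hx hy
    | smul c x _ hx =>
      have h1 : c • x = c.val • x := by
        rw [← Nat.cast_smul_eq_nsmul (ZMod p), ZMod.natCast_zmod_val]
      rw [h1, G4_nsmul h]
      exact Subgroup.pow_mem _ hx _

/-- PROOF. `Nat.card (commutator P) = Nat.card (Im b) = p ^ finrank` (`Module.natCard_eq_pow_finrank`). -/
theorem mdl_card {P : Type} [Group P] [Finite P] (hp : p.Prime) [Finite V] [Finite W] {π : P → V}
    {ι : W → P} (h : Mdl p π ι b) :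
    Nat.card (commutator P) = p ^ Module.finrank (ZMod p) (Im b) ∧
      (Subgroup.center P).index = p ^ Module.finrank (ZMod p) V := by
  have : Fact p.Prime := ⟨hp⟩
  have hV : Module.Finite (ZMod p) V := Module.Finite.of_finite
  have hW : Module.Finite (ZMod p) (Im b) := Module.Finite.of_finite
  constructor
  · let e : Im b → commutator P := fun w => ⟨ι w, (mdl_comm hp h _).2 ⟨w, w.2, rfl⟩⟩
    have he : Function.Bijective e := by
      constructor
      · intro w w' hww
        exact Subtype.ext (h.inj (congrArg Subtype.val hww))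
      · rintro ⟨g, hg⟩
        obtain ⟨w, hw, rfl⟩ := (mdl_comm hp h g).1 hg
        exact ⟨⟨w, hw⟩, rfl⟩
    rw [← Nat.card_congr (Equiv.ofBijective e he),
      Module.natCard_eq_pow_finrank (K := ZMod p), Nat.card_zmod]
  · let f : P →* Multiplicative V := MonoidHom.mk' (fun g => Multiplicative.ofAdd (π g))
      (fun g g' => by rw [h.mul]; rfl)
    have hf : f.ker = Subgroup.center P := by
      ext g
      rw [MonoidHom.mem_ker, ← h.ker g]
      exact Iff.rfl
    have hr : f.range = ⊤ := by
      rw [MonoidHom.range_eq_top]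
      intro v
      obtain ⟨g, hg⟩ := h.surj (Multiplicative.toAdd v)
      exact ⟨g, congrArg Multiplicative.ofAdd hg⟩
    rw [← hf, Subgroup.index_ker, hr, Subgroup.card_top,
      Nat.card_congr (Multiplicative.toAdd (α := V)),
      Module.natCard_eq_pow_finrank (K := ZMod p), Nat.card_zmod]

/-- PROOF. `Im b` is contained in the span of `z`, of dimension at most one. -/
theorem im_le_one (hp : p.Prime) [Finite W] (z : W) (hz : ∀ x y, ∃ c : ZMod p, b x y = c • z) :
    Module.finrank (ZMod p) (Im b) ≤ 1 := by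
  have : Fact p.Prime := ⟨hp⟩
  have hW : Module.Finite (ZMod p) W := Module.Finite.of_finite
  have h1 : Im b ≤ Submodule.span (ZMod p) {z} := by
    unfold Im
    rw [Submodule.span_le]
    rintro _ ⟨⟨u, v⟩, rfl⟩
    obtain ⟨c, hc⟩ := hz u v
    change b u v ∈ Submodule.span (ZMod p) {z}
    rw [hc]
    exact Submodule.smul_mem _ _ (Submodule.mem_span_singleton_self z)
  have h2 := Submodule.finrank_mono h1
  have h3 : Module.finrank (ZMod p) (Submodule.span (ZMod p) ({z} : Set W)) ≤ 1 := by
    refine (finrank_span_le_card ({z} : Set W)).trans ?_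
    simp
  exact h2.trans h3

end FPY
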