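import Pool.Agent.FPY.S1

set_option autoImplicit false

namespace FPY

variable {p : ℕ} {V W : Type} [AddCommGroup V] [Module (ZMod p) V] [AddCommGroup W]
  [Module (ZMod p) W] {b : V →ₗ[ZMod p] V →ₗ[ZMod p] W}

private theorem S2pi_iota {P : Type} [Group P] {π : P → V} {ι : W → P} (h : Mdl p π ι b) (w : W) :
    π (ι w) = 0 := (h.ker _).2 ((h.mem _).2 ⟨w, rfl⟩)

private theorem S2pi_one {P : Type} [Group P] {π : P → V} {ι : W → P} (h : Mdl p π ι b) :
    π 1 = 0 := by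
  have h1 := h.mul 1 1
  rw [mul_one] at h1
  exact left_eq_add.mp h1

private theorem S2pi_inv {P : Type} [Group P] {π : P → V} {ι : W → P} (h : Mdl p π ι b) (g : P) :
    π g⁻¹ = - π g := by
  have h1 := h.mul g⁻¹ g
  rw [inv_mul_cancel, S2pi_one h] at h1
  exact eq_neg_of_add_eq_zero_left h1.symm

/-- Unique representation.  PROOF. `g = σ (π g) * ι w` (`mdl_basic`); `π (σ u * ι w) = u`. -/
theorem rep_sec {P : Type} [Group P] {π : P → V} {ι : W → P} (h : Mdl p π ι b) {σ : V → P}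
    (hσ : ∀ v, π (σ v) = v) :
    (∀ g, ∃ u w, g = σ u * ι w) ∧ ∀ u w u' w', σ u * ι w = σ u' * ι w' → u = u' ∧ w = w' := by
  refine ⟨fun g => ?_, fun u w u' w' he => ?_⟩
  · have h1 : π ((σ (π g))⁻¹ * g) = 0 := by
      rw [h.mul, S2pi_inv h, hσ, neg_add_cancel]
    obtain ⟨w, hw⟩ := (h.mem _).1 ((h.ker _).1 h1)
    exact ⟨π g, w, by rw [hw, mul_inv_cancel_left]⟩
  · have h1 : π (σ u * ι w) = u := by rw [h.mul, hσ, S2pi_iota h, add_zero]
    have h2 : π (σ u' * ι w') = u' := by rw [h.mul, hσ, S2pi_iota h, add_zero]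
    have h3 : u = u' := by rw [← h1, ← h2, he]
    refine ⟨h3, ?_⟩
    rw [h3] at he
    exact h.inj (mul_left_cancel he)

/-- Automorphisms from linear data.  PROOF (compare `FPX.hei_aut`, Pool/Agent/FPX/H11.lean).
`α (σ u * ι w) = σ (A u) * ι (δ u + B w)`, well defined by `rep_sec`.  Multiplicative:
`σ u ι w σ v ι w' = σ (u + v) ι (2⁻¹ b u v + w + w')` is mapped to
`σ (A u + A v) ι (δ u + δ v + B (2⁻¹ b u v) + B w + B w')`, the product of the images, because
`σ (A u) σ (A v) = σ (A u + A v) ι (2⁻¹ b (A u) (A v))`.  Injective, so bijective (`P` finite). -/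
theorem aut_of_lin {P : Type} [Group P] [Finite P] {π : P → V} {ι : W → P} (h : Mdl p π ι b)
    {σ : V → P} (hσ : ∀ v, π (σ v) = v)
    (hσm : ∀ u v, σ u * σ v = σ (u + v) * ι ((2 : ZMod p)⁻¹ • b u v))
    (A : V ≃ₗ[ZMod p] V) (B : W ≃ₗ[ZMod p] W) (hAB : ∀ x y, b (A x) (A y) = B (b x y))
    (δ : V →ₗ[ZMod p] W) : ∃ α : MulAut P, ∀ u w, α (σ u * ι w) = σ (A u) * ι (δ u + B w) := by
  obtain ⟨hrep, hun⟩ := rep_sec h hσ
  choose uu ww hz using hrep
  let F : P → P := fun g => σ (A (uu g)) * ι (δ (uu g) + B (ww g))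
  have hF : ∀ (u : V) (w : W), F (σ u * ι w) = σ (A u) * ι (δ u + B w) := by
    intro u w
    obtain ⟨e1, e2⟩ := hun _ _ _ _ (hz (σ u * ι w))
    show σ (A (uu (σ u * ι w))) * ι (δ (uu (σ u * ι w)) + B (ww (σ u * ι w))) = _
    rw [← e1, ← e2]
  have hcen : ∀ (w : W) (g : P), ι w * g = g * ι w := by
    intro w g
    exact (Subgroup.mem_center_iff.mp ((h.mem _).2 ⟨w, rfl⟩) g).symm
  have hmulrep : ∀ (u v : V) (w w' : W),
      (σ u * ι w) * (σ v * ι w') = σ (u + v) * ι ((2 : ZMod p)⁻¹ • b u v + (w + w')) := by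
    intro u v w w'
    calc (σ u * ι w) * (σ v * ι w') = σ u * (ι w * σ v) * ι w' := by group
      _ = σ u * (σ v * ι w) * ι w' := by rw [hcen w (σ v)]
      _ = (σ u * σ v) * (ι w * ι w') := by group
      _ = _ := by rw [hσm, mul_assoc, ← h.add, ← h.add]
  have hFmul : ∀ a b, F (a * b) = F a * F b := by
    intro x y
    have ea := hz x
    have eb := hz y
    obtain ⟨u, hu⟩ : ∃ u, u = uu x := ⟨_, rfl⟩
    obtain ⟨w, hw⟩ : ∃ w, w = ww x := ⟨_, rfl⟩
    obtain ⟨v, hv⟩ : ∃ v, v = uu y := ⟨_, rfl⟩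
    obtain ⟨w', hw'⟩ : ∃ w', w' = ww y := ⟨_, rfl⟩
    rw [← hu, ← hw] at ea
    rw [← hv, ← hw'] at eb
    rw [ea, eb, hmulrep, hF, hF, hF, hmulrep, map_add A, map_add δ, map_add B, map_add B,
      LinearEquiv.map_smul B, hAB]
    congr 2
    abel
  let F' : P →* P := MonoidHom.mk' F hFmul
  have hF' : ∀ g, F' g = F g := fun g => rfl
  have hinj : Function.Injective F' := by
    intro g g' hg
    rw [hF', hF', hz g, hz g', hF, hF] at hg
    obtain ⟨e1, e2⟩ := hun _ _ _ _ hg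
    have e3 : uu g = uu g' := A.injective e1
    rw [e3] at e2
    have e4 : ww g = ww g' := B.injective (add_left_cancel e2)
    rw [hz g, hz g', e3, e4]
  let α : MulAut P := MulEquiv.ofBijective F' ⟨hinj, Finite.surjective_of_injective hinj⟩
  exact ⟨α, fun u w => hF u w⟩

end FPY
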