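import Pool.Agent.FPY.S10
import Pool.Agent.FPY.S2

set_option autoImplicit false

namespace FPY

variable {p : ℕ} {V W : Type} [AddCommGroup V] [Module (ZMod p) V] [AddCommGroup W]
  [Module (ZMod p) W] {b : V →ₗ[ZMod p] V →ₗ[ZMod p] W}

/-- PROOF. Let `H` be a subgroup.  `X = {w | ι w ∈ H}`, `U = {π g | g ∈ H}` are submodules (additive subgroups of
`ZMod p`-modules), `b(U, U) ≤ X` by `com`.  `lin_suff`: `A, B, ε`; `exists_sec`: `σ`.  For `u ∈ U` there is `s(u) ∈ W` with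
`σ u * ι (s u) ∈ H` (`rep_sec` for `g ∈ H`, `π g = u`), unique modulo `X`.  `δ₀(u) = s u - B (s u)` does not depend on the
choice (`B` is the identity on `X`) and is additive on `U`:
`σ u ι(s u) σ v ι(s v) = σ (u+v) ι (2⁻¹ b u v + s u + s v) ∈ H`, and `b u v ∈ X` is fixed by `B`.  It is a linear map
`U → R`, `R = range (1 - B)`; extend it to a linear map `δ₀ : V → R` (`LinearMap.exists_extend`), `δ = δ₀ + ε`.
`aut_of_lin` gives `α`.  `α (σ v * ι w) = σ v * ι w` iff `A v = v` and `δ v + B w = w` (`rep_sec`).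
If `σ v ι w ∈ H`: `v ∈ U`, `w - s v ∈ X`, so `(1 - B) w = (1 - B) (s v) = δ₀ v`, `ε v = 0`: fixed.
Conversely let `A v = v`, `δ₀ v + ε v + B w = w`: `δ₀ v = w₁ - B w₁` for some `w₁`, so
`ε v + B (w - w₁) = w - w₁` and `v ∈ U`; then `ε v = 0`, `(1 - B) w = δ₀ v = (1 - B)(s v)`, `w - s v ∈ X`,
`σ v ι w = σ v ι (s v) ι (w - s v) ∈ H`. -/
theorem suff_three {P : Type} [Group P] [Finite P] {π : P → V} {ι : W → P} (h : Mdl p π ι b)
    (hf : Free3 p b) : FPX.PF P := by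
  intro H
  have hp : Fact p.Prime := ⟨hf.prime⟩
  obtain ⟨hι0, hπ1, hπι, -, -, -⟩ := mdl_basic h
  have hcen : ∀ (g : P) (w : W), g * ι w = ι w * g := by
    intro g w
    have h1 : ι w ∈ Subgroup.center P := (h.mem _).2 ⟨w, rfl⟩
    exact Subgroup.mem_center_iff.1 h1 g
  have hιneg : ∀ w, ι (-w) = (ι w)⁻¹ := by
    intro w
    rw [eq_inv_iff_mul_eq_one, ← h.add, neg_add_cancel, hι0]
  have hπinv : ∀ g, π g⁻¹ = -π g := by
    intro g
    rw [eq_neg_iff_add_eq_zero, ← h.mul, inv_mul_cancel, hπ1]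
  -- the submodules
  let Xa : AddSubgroup W :=
    { carrier := {w | ι w ∈ H}
      add_mem' := fun {x y} hx hy => by
        show ι (x + y) ∈ H
        rw [h.add]
        exact H.mul_mem hx hy
      zero_mem' := by
        show ι 0 ∈ H
        rw [hι0]
        exact H.one_mem
      neg_mem' := fun {x} hx => by
        show ι (-x) ∈ H
        rw [hιneg]
        exact H.inv_mem hx }
  let X : Submodule (ZMod p) W := AddSubgroup.toZModSubmodule p Xa
  have hX : ∀ w, w ∈ X ↔ ι w ∈ H := fun _ => Iff.rfl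
  let Ua : AddSubgroup V :=
    { carrier := {v | ∃ g ∈ H, π g = v}
      add_mem' := fun {x y} hx hy => by
        obtain ⟨g, hg, rfl⟩ := hx
        obtain ⟨g', hg', rfl⟩ := hy
        exact ⟨g * g', H.mul_mem hg hg', h.mul g g'⟩
      zero_mem' := ⟨1, H.one_mem, hπ1⟩
      neg_mem' := fun {x} hx => by
        obtain ⟨g, hg, rfl⟩ := hx
        exact ⟨g⁻¹, H.inv_mem hg, hπinv g⟩ }
  let U : Submodule (ZMod p) V := AddSubgroup.toZModSubmodule p Ua
  have hU : ∀ v, v ∈ U ↔ ∃ g ∈ H, π g = v := fun _ => Iff.rfl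
  have hUX : ∀ u ∈ U, ∀ v ∈ U, b u v ∈ X := by
    intro u hu v hv
    obtain ⟨g, hg, rfl⟩ := (hU u).1 hu
    obtain ⟨g', hg', rfl⟩ := (hU v).1 hv
    rw [hX, ← h.com]
    exact H.mul_mem (H.mul_mem (H.mul_mem hg hg') (H.inv_mem hg)) (H.inv_mem hg')
  obtain ⟨A, B, ε, hAB, hAU, hBX, hεU, hfin⟩ := lin_suff hf U X hUX
  obtain ⟨σ, hσ, hσm⟩ := exists_sec hf.prime hf.odd h
  obtain ⟨hrep, huniq⟩ := rep_sec h hσ
  have hs : ∀ u : U, ∃ w, σ u * ι w ∈ H := by
    rintro ⟨u, hu⟩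
    obtain ⟨g, hg, rfl⟩ := (hU u).1 hu
    obtain ⟨u', w, hgw⟩ := hrep g
    have h1 : π g = u' := by
      conv_lhs => rw [hgw]
      rw [h.mul, hσ, hπι, add_zero]
    refine ⟨w, ?_⟩
    show σ (π g) * ι w ∈ H
    rw [h1, ← hgw]
    exact hg
  choose s hs using hs
  have hdiff : ∀ v w w', σ v * ι w ∈ H → σ v * ι w' ∈ H → w' - w ∈ X := by
    intro v w w' h1 h2
    rw [hX]
    have h3 : ι (w' - w) = (σ v * ι w)⁻¹ * (σ v * ι w') := by
      rw [mul_inv_rev, mul_assoc, inv_mul_cancel_left, sub_eq_add_neg, add_comm, h.add, hιneg]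
    rw [h3]
    exact H.mul_mem (H.inv_mem h1) h2
  have hBfix : ∀ w ∈ X, B w = w := fun w hw => (hBX w).2 hw
  let δa : U →+ W :=
    { toFun := fun u => s u - B (s u)
      map_zero' := by
        have h1 : s 0 ∈ X := by
          have h2 := hdiff 0 0 (s 0) (by
            have h3 : σ 0 * σ 0 = σ 0 := by
              rw [hσm, map_zero, smul_zero, hι0, mul_one, add_zero]
            have h4 : σ 0 = 1 := by
              have h5 := congrArg (fun z => (σ 0)⁻¹ * z) h3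
              simpa using h5
            rw [h4, hι0, mul_one]
            exact H.one_mem) (hs 0)
          rw [sub_zero] at h2
          exact h2
        rw [hBfix _ h1, sub_self]
      map_add' := fun u v => by
        have h1 : σ ((u : V) + v) * ι ((2 : ZMod p)⁻¹ • b (u : V) v + (s u + s v)) ∈ H := by
          have h2 := H.mul_mem (hs u) (hs v)
          have h3 : σ (u : V) * ι (s u) * (σ (v : V) * ι (s v)) =
              σ ((u : V) + v) * ι ((2 : ZMod p)⁻¹ • b (u : V) v + (s u + s v)) := by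
            rw [h.add, ← mul_assoc (σ ((u : V) + v)), ← hσm, h.add, mul_assoc, mul_assoc, ← mul_assoc (ι (s u)) (σ (v : V)),
              ← hcen (σ (v : V)) (s u), mul_assoc]
          rw [← h3]
          exact h2
        have h4 := hdiff _ _ _ h1 (hs (u + v))
        have h5 := hBfix _ h4
        have h6 := hBfix _ (hUX u u.2 v v.2)
        rw [map_sub, map_add, map_smul, h6, map_add] at h5
        have h7 : B (s (u + v)) = s (u + v) - (s u + s v) + (B (s u) + B (s v)) := by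
          rw [sub_eq_iff_eq_add] at h5
          rw [h5]
          abel
        rw [h7]
        abel }
  have hδa : ∀ u : U, δa u = s u - B (s u) := fun _ => rfl
  let R : Submodule (ZMod p) W := LinearMap.range (LinearMap.id - (B : W →ₗ[ZMod p] W))
  let δ₀ : U →ₗ[ZMod p] R := LinearMap.codRestrict R (δa.toZModLinearMap p) (fun u => ⟨s u, rfl⟩)
  obtain ⟨δ₁, hδ₁⟩ := LinearMap.exists_extend δ₀
  have hδ₁' : ∀ u : U, ((δ₁ (u : V) : R) : W) = s u - B (s u) := by
    intro u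
    have h1 := LinearMap.congr_fun hδ₁ u
    have h2 : δ₁ (u : V) = δ₀ u := h1
    rw [h2]
    rfl
  obtain ⟨α, hα⟩ := aut_of_lin h hσ hσm A B hAB (R.subtype ∘ₗ δ₁ + ε)
  have hδ : ∀ v, (R.subtype ∘ₗ δ₁ + ε) v = ((δ₁ v : R) : W) + ε v := fun _ => rfl
  refine ⟨α, fun g => ?_⟩
  obtain ⟨v, w, rfl⟩ := hrep g
  rw [hα, hδ]
  have hπg : π (σ v * ι w) = v := by rw [h.mul, hσ, hπι, add_zero]
  constructor
  · intro heq
    obtain ⟨hAv, hw⟩ := huniq _ _ _ _ heq
    obtain ⟨w₁, hw₁⟩ := (δ₁ v).2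
    have hw₁' : w₁ - B w₁ = ((δ₁ v : R) : W) := hw₁
    have hvU : v ∈ U := by
      refine hfin v (w - w₁) hAv ?_
      rw [map_sub]
      rw [← hw₁'] at hw
      have : ε v + (B w - B w₁) = (w₁ - B w₁ + ε v + B w) - w₁ := by abel
      rw [this, hw]
    have h1 := hδ₁' ⟨v, hvU⟩
    have h1' : ((δ₁ v : R) : W) = s ⟨v, hvU⟩ - B (s ⟨v, hvU⟩) := h1
    rw [h1', hεU v hvU, add_zero] at hw
    have h2 : w - s ⟨v, hvU⟩ ∈ X := by
      rw [← hBX, map_sub]
      have : B w - B (s ⟨v, hvU⟩) = (s ⟨v, hvU⟩ - B (s ⟨v, hvU⟩) + B w) - s ⟨v, hvU⟩ := by abel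
      rw [this, hw]
    have h3 := H.mul_mem (hs ⟨v, hvU⟩) ((hX _).1 h2)
    have h4 : σ v * ι w = σ v * ι (s ⟨v, hvU⟩) * ι (w - s ⟨v, hvU⟩) := by
      rw [mul_assoc, ← h.add, add_sub_cancel]
    rw [h4]
    exact h3
  · intro hH
    have hvU : v ∈ U := (hU v).2 ⟨_, hH, hπg⟩
    have h1 : ((δ₁ v : R) : W) = s ⟨v, hvU⟩ - B (s ⟨v, hvU⟩) := hδ₁' ⟨v, hvU⟩
    have h2 := hBfix _ (hdiff v _ _ (hs ⟨v, hvU⟩) hH)
    rw [map_sub, sub_eq_iff_eq_add] at h2
    rw [hAU v hvU, h1, hεU v hvU, add_zero, h2]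
    congr 2
    abel

end FPY
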