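import Pool.Agent.FPY.LIN
import Pool.Agent.FPY.G1
import Pool.Agent.FPY.G3
import Pool.Agent.FPY.G4
import Pool.Agent.FPY.S11
import Pool.Agent.FPX.H13
import Pool.Agent.FPX.F4

set_option autoImplicit false

namespace FPY

/-- PROOF. `exists_mdl`, `mdl_hyp`, `lin`, `mdl_card`, `im_le_one`. -/
theorem nec {P : Type} [Group P] [Finite P] {p : ℕ} (hp : p.Prime) (h2 : p ≠ 2)
    (hexp : ∀ g : P, g ^ p = 1) (hc : ∀ g h : P, g * h * g⁻¹ * h⁻¹ ∈ Subgroup.center P)
    (hF : FPX.PF P) : Nat.card (commutator P) ∣ p ∨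
      (Nat.card (commutator P) = p ^ 3 ∧ (Subgroup.center P).index = p ^ 3) := by
  obtain ⟨V, W, iV, mV, iW, mW, fV, fW, π, ι, b, h⟩ := exists_mdl hp hexp hc
  have h1 := mdl_hyp hp h2 h hF
  obtain ⟨hc1, hc2⟩ := mdl_card hp h
  rcases lin h1 with ⟨z, hz⟩ | ⟨hV, hW⟩
  · left
    have h3 := im_le_one hp z hz
    rw [hc1]
    calc p ^ Module.finrank (ZMod p) (Im b) ∣ p ^ 1 := pow_dvd_pow p h3
      _ = p := pow_one p
  · right
    rw [hc1, hc2, hV]
    refine ⟨?_, rfl⟩
    unfold Im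
    rw [hW]

/-- PROOF. `|P'| = 1`: `P` is abelian of odd exponent `p` (`FPX.main_ab` or the lemma on odd abelian groups used there);
`|P'| = p`: `FPX.thmC`, `Cond` holds with `e = 0`.  `|P'| = p^3 = |P : Z|`: `P' ≤ Z(P)` is a hypothesis; `exists_mdl`,
`mdl_card` give `Free3`; `suff_three`. -/
theorem suff_all {P : Type} [Group P] [Finite P] {p : ℕ} (hp : p.Prime) (h2 : p ≠ 2)
    (hexp : ∀ g : P, g ^ p = 1) (hc : ∀ g h : P, g * h * g⁻¹ * h⁻¹ ∈ Subgroup.center P)
    (h : Nat.card (commutator P) ∣ p ∨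
      (Nat.card (commutator P) = p ^ 3 ∧ (Subgroup.center P).index = p ^ 3)) : FPX.PF P := by
  have hpf : Fact p.Prime := ⟨hp⟩
  have hP : IsPGroup p P := fun g => ⟨1, by rw [pow_one]; exact hexp g⟩
  have hcc : commutator P ≤ Subgroup.center P := by
    unfold commutator
    rw [Subgroup.commutator_le]
    intro g _ k _
    exact hc g k
  rcases h with h | ⟨h3, h4⟩
  · rcases (Nat.dvd_prime hp).1 h with h1 | h1
    · have hbot : commutator P = ⊥ := Subgroup.card_eq_one.1 h1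
      have hcomm : ∀ a b : P, a * b = b * a := by
        intro a b
        have h5 : a * b * a⁻¹ * b⁻¹ ∈ commutator P := by
          unfold commutator
          exact Subgroup.commutator_mem_commutator (Subgroup.mem_top a) (Subgroup.mem_top b)
        rw [hbot, Subgroup.mem_bot] at h5
        have h6 : a * b = (a * b * a⁻¹ * b⁻¹) * (b * a) := by group
        rw [h6, h5, one_mul]
      exact FPX.F4_odd P hcomm hp h2 hP
    · refine (FPX.thmC hp hP h1).2 ⟨h2, fun g => ⟨g, hexp g, 1, Subgroup.one_mem _, (mul_one g).symm⟩, 0, ?_, ?_⟩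
      · intro ζ _
        rw [zero_add, pow_one]
        exact hexp ζ
      · intro c hcc'
        exact ⟨c, hcc hcc', by rw [pow_zero, pow_one]⟩
  · obtain ⟨V, W, iV, mV, iW, mW, fV, fW, π, ι, b, h⟩ := exists_mdl hp hexp hc
    obtain ⟨hc1, hc2⟩ := mdl_card hp h
    obtain ⟨_, _, _, halt, _, _⟩ := mdl_basic h
    refine suff_three h ⟨hp, h2, fV, fW, halt, ?_, ?_⟩
    · exact Nat.pow_right_injective hp.two_le (hc2.symm.trans h4)
    · exact Nat.pow_right_injective hp.two_le (hc1.symm.trans h3)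

end FPY
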