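import Pool.Agent.FPY.Defs2

set_option autoImplicit false

namespace FPY

variable {p : ℕ} {V W : Type} [AddCommGroup V] [Module (ZMod p) V] [AddCommGroup W]
  [Module (ZMod p) W] {b : V →ₗ[ZMod p] V →ₗ[ZMod p] W}

/-- Consequences of the definition.  PROOF. `ι 0 = 1` (`add`), `com g g`, and `ker`: if `b (π g) (π h) = 0` for all
`h` then `g` is central. -/
theorem mdl_basic {P : Type} [Group P] {π : P → V} {ι : W → P} (h : Mdl p π ι b) :
    ι 0 = 1 ∧ π 1 = 0 ∧ (∀ w, π (ι w) = 0) ∧ (∀ x, b x x = 0) ∧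
      (∀ x, (∀ y, b x y = 0) → x = 0) ∧ (∀ g h, π g = π h → ∃ w, g = h * ι w) := by
  have h0 : ι 0 = 1 := by
    have h1 := h.add 0 0
    rw [add_zero] at h1
    exact (mul_eq_left.1 h1.symm)
  have h1 : π 1 = 0 := by
    have h1 := h.mul 1 1
    rw [mul_one] at h1
    exact (add_eq_left.1 h1.symm)
  refine ⟨h0, h1, fun w => (h.ker _).2 ((h.mem _).2 ⟨w, rfl⟩), fun x => ?_, fun x hx => ?_,
    fun g k hgk => ?_⟩
  · obtain ⟨g, rfl⟩ := h.surj x
    have h2 := h.com g g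
    apply h.inj
    rw [← h2, h0]
    group
  · obtain ⟨g, rfl⟩ := h.surj x
    rw [h.ker, Subgroup.mem_center_iff]
    intro k
    have h2 := h.com g k
    rw [hx, h0] at h2
    have h3 : g * k = k * g := by
      calc g * k = g * k * g⁻¹ * k⁻¹ * (k * g) := by group
        _ = k * g := by rw [h2, one_mul]
    exact h3.symm
  · have h2 : π (k⁻¹ * g) = 0 := by
      have h3 := h.mul k⁻¹ k
      rw [inv_mul_cancel, h1] at h3
      rw [h.mul, hgk, ← h3]
    obtain ⟨w, hw⟩ := (h.mem _).1 ((h.ker _).1 h2)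
    exact ⟨w, by rw [hw]; group⟩

private theorem G2_inv {P : Type} [Group P] {π : P → V} {ι : W → P} (h : Mdl p π ι b) (g : P) :
    π g⁻¹ = -π g := by
  have h3 := h.mul g⁻¹ g
  rw [inv_mul_cancel, (mdl_basic h).2.1] at h3
  exact eq_neg_of_add_eq_zero_left h3.symm

private theorem G2_pow {P : Type} [Group P] {π : P → V} {ι : W → P} (h : Mdl p π ι b) (g : P)
    (n : ℕ) : π (g ^ n) = n • π g := by
  induction n with
  | zero => rw [pow_zero, zero_smul, (mdl_basic h).2.1]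
  | succ n ih => rw [pow_succ, h.mul, ih, succ_nsmul]

private theorem G2_zpow {P : Type} [Group P] {π : P → V} {ι : W → P} (h : Mdl p π ι b) (g : P)
    (n : ℤ) : π (g ^ n) = n • π g := by
  obtain ⟨m, rfl | rfl⟩ := n.eq_nat_or_neg
  · rw [zpow_natCast, G2_pow h, natCast_zsmul]
  · rw [zpow_neg, zpow_natCast, G2_inv h, G2_pow h, neg_smul, natCast_zsmul]

/-- Complements.  PROOF. Among the subgroups `H` of `P` (finite) with `∀ w, ι w ∈ H ↔ w ∈ X` and `∀ h ∈ H, π h ∈ U`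
choose a maximal one (the image of `X` under `ι` is such a subgroup).  Suppose `u ∈ U`, `u = π g`, is not in `π(H)`.
`g` normalises `H`: `g h g⁻¹ = [g, h] h` and `[g, h] = ι (b u (π h)) ∈ ι(X) ≤ H`.  Let `K = {h g^i | h ∈ H, i : ℕ}`
(a subgroup, as `g ^ p = 1` and `g` normalises `H`; or `K = H ⊔ zpowers g`, `Subgroup.mul_normal` style).
`π k ∈ U` for `k ∈ K`.  If `ι w = h g^i ∈ K` and `p ∤ i` then `i u = - π h`, so `u ∈ π(H)` (a multiple of an element of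
the additive group `π(H)`), contradiction; if `p ∣ i` then `ι w = h ∈ H`, `w ∈ X`.  So `K` contradicts the
maximality of `H`. -/
theorem exists_compl {P : Type} [Group P] [Finite P] (hp : p.Prime) {π : P → V} {ι : W → P}
    (h : Mdl p π ι b) (U : Submodule (ZMod p) V) (X : Submodule (ZMod p) W)
    (hUX : ∀ u ∈ U, ∀ v ∈ U, b u v ∈ X) :
    ∃ H : Subgroup P, (∀ w, ι w ∈ H ↔ w ∈ X) ∧ (∀ u ∈ U, ∃ g ∈ H, π g = u) ∧
      ∀ g ∈ H, π g ∈ U := by
  have : Fact p.Prime := ⟨hp⟩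
  obtain ⟨h0, h1, h2, h3, h4, h5⟩ := mdl_basic h
  have hιinv : ∀ w, (ι w)⁻¹ = ι (-w) := by
    intro w
    have h6 := h.add w (-w)
    rw [add_neg_cancel, h0] at h6
    exact inv_eq_of_mul_eq_one_right h6.symm
  obtain ⟨S, hS⟩ : ∃ S : Set (Subgroup P), S = {H | (∀ w, ι w ∈ H ↔ w ∈ X) ∧
      ∀ g ∈ H, π g ∈ U} := ⟨_, rfl⟩
  have hSne : S.Nonempty := by
    refine ⟨{ carrier := {g | ∃ w ∈ X, ι w = g}
              one_mem' := ⟨0, X.zero_mem, h0⟩
              mul_mem' := ?_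
              inv_mem' := ?_ }, ?_⟩
    · rintro _ _ ⟨w, hw, rfl⟩ ⟨w', hw', rfl⟩
      exact ⟨w + w', X.add_mem hw hw', h.add w w'⟩
    · rintro _ ⟨w, hw, rfl⟩
      exact ⟨-w, X.neg_mem hw, (hιinv w).symm⟩
    · rw [hS]
      refine ⟨fun w => ⟨?_, fun hw => ⟨w, hw, rfl⟩⟩, ?_⟩
      · rintro ⟨w', hw', hww⟩
        rw [← h.inj hww]
        exact hw'
      · rintro _ ⟨w, hw, rfl⟩
        rw [h2]
        exact U.zero_mem
  obtain ⟨H, hH, hmax⟩ := (Set.toFinite S).exists_maximal hSne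
  rw [hS] at hH
  refine ⟨H, hH.1, ?_, hH.2⟩
  by_contra hcon
  push Not at hcon
  obtain ⟨u, hu, hun⟩ := hcon
  obtain ⟨g, rfl⟩ := h.surj u
  have hnorm : ∀ (i : ℤ) (k : P), k ∈ H → g ^ i * k * (g ^ i)⁻¹ ∈ H := by
    intro i k hk
    have h6 := h.com (g ^ i) k
    have h7 : g ^ i * k * (g ^ i)⁻¹ = ι (b (π (g ^ i)) (π k)) * k := by
      rw [← h6]; group
    rw [h7]
    refine H.mul_mem ((hH.1 _).2 (hUX _ ?_ _ (hH.2 k hk))) hk
    rw [G2_zpow h]
    exact zsmul_mem hu i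
  have hgp : ∀ i : ℤ, ((i : ZMod p) = 0) → g ^ i = 1 := by
    intro i hi
    obtain ⟨j, rfl⟩ := (ZMod.intCast_zmod_eq_zero_iff_dvd i p).1 hi
    rw [zpow_mul, zpow_natCast, h.exp, one_zpow]
  obtain ⟨K, hK⟩ : ∃ K : Subgroup P, ∀ k, k ∈ K ↔ ∃ x ∈ H, ∃ i : ℤ, k = x * g ^ i := by
    refine ⟨{ carrier := {k | ∃ x ∈ H, ∃ i : ℤ, k = x * g ^ i}
              one_mem' := ⟨1, H.one_mem, 0, by simp⟩
              mul_mem' := ?_
              inv_mem' := ?_ }, fun k => Iff.rfl⟩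
    · rintro _ _ ⟨x, hx, i, rfl⟩ ⟨y, hy, j, rfl⟩
      refine ⟨x * (g ^ i * y * (g ^ i)⁻¹), H.mul_mem hx (hnorm i y hy), i + j, ?_⟩
      rw [zpow_add]
      group
    · rintro _ ⟨x, hx, i, rfl⟩
      refine ⟨g ^ (-i) * x⁻¹ * (g ^ (-i))⁻¹, hnorm (-i) _ (H.inv_mem hx), -i, ?_⟩
      group
  have hHK : H ≤ K := fun x hx => (hK x).2 ⟨x, hx, 0, by simp⟩
  have hKS : K ∈ S := by
    rw [hS]
    refine ⟨fun w => ⟨fun hw => ?_, fun hw => hHK ((hH.1 w).2 hw)⟩, fun k hk => ?_⟩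
    · obtain ⟨x, hx, i, hxi⟩ := (hK _).1 hw
      by_cases hi : (i : ZMod p) = 0
      · rw [hgp i hi, mul_one] at hxi
        rw [← hH.1, hxi]
        exact hx
      · exfalso
        have h6 : π x + i • π g = 0 := by
          rw [← G2_zpow h, ← h.mul, ← hxi, h2]
        have h7 : i • π g = (i : ZMod p) • π g := (Int.cast_smul_eq_zsmul (ZMod p) i (π g)).symm
        rw [h7] at h6
        have h8 : π g = (-(i : ZMod p)⁻¹) • π x := by
          have h9 : π x = -((i : ZMod p) • π g) := eq_neg_of_add_eq_zero_left h6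
          rw [h9, neg_smul, smul_neg, neg_neg, smul_smul, inv_mul_cancel₀ hi, one_smul]
        refine hun (x ^ (-(i : ZMod p)⁻¹).val) (H.pow_mem hx _) ?_
        rw [G2_pow h, h8, ← Nat.cast_smul_eq_nsmul (ZMod p), ZMod.natCast_zmod_val]
    · obtain ⟨x, hx, i, rfl⟩ := (hK _).1 hk
      rw [h.mul, G2_zpow h]
      exact U.add_mem (hH.2 x hx) (zsmul_mem hu i)
  have h6 := hmax hKS hHK
  exact hun g (h6 ((hK g).2 ⟨1, H.one_mem, 1, by simp⟩)) rfl

end FPY
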