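import Pool.Agent.FPY.Defs

set_option autoImplicit false

namespace FPY

variable {p : ℕ} {V W : Type} [AddCommGroup V] [Module (ZMod p) V] [AddCommGroup W]
  [Module (ZMod p) W] {b : V →ₗ[ZMod p] V →ₗ[ZMod p] W}

/-- PROOF. `b (x + y) (x + y) = 0`. -/
theorem anti (halt : ∀ x, b x x = 0) (x y : V) : b x y = - b y x := by
  have h := halt (x + y)
  have h2 : b (x + y) (x + y) = b x x + b x y + (b y x + b y y) := by
    simp only [map_add, LinearMap.add_apply]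
    abel
  rw [h2, halt x, halt y, zero_add, add_zero] at h
  exact eq_neg_of_add_eq_zero_left h

/-- PROOF. Write `p` for the prime, `F_p` is a field.  If `w` is not in the kernel of a functional `f` etc.:
choose `ψ₁` with `ψ₁ w ≠ 0` and `ψ₂` with `ψ₂ u ≠ 0` (`exists_dual_forall_apply_eq_zero_iff`,
`Module.exists_dual...`, `Module.forall_dual_apply_eq_zero_iff`); one of `ψ₁`, `ψ₂`, `ψ₁ + ψ₂` works. -/
theorem two_functionals (hp : p.Prime) (w u : W) (hw : w ≠ 0) (hu : u ≠ 0) :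
    ∃ ψ : W →ₗ[ZMod p] ZMod p, ψ w ≠ 0 ∧ ψ u ≠ 0 := by
  have : Fact p.Prime := ⟨hp⟩
  obtain ⟨ψ₁, h₁⟩ : ∃ ψ : W →ₗ[ZMod p] ZMod p, ψ w ≠ 0 := by
    by_contra hcon
    push Not at hcon
    exact hw ((Module.forall_dual_apply_eq_zero_iff (ZMod p) w).1 hcon)
  obtain ⟨ψ₂, h₂⟩ : ∃ ψ : W →ₗ[ZMod p] ZMod p, ψ u ≠ 0 := by
    by_contra hcon
    push Not at hcon
    exact hu ((Module.forall_dual_apply_eq_zero_iff (ZMod p) u).1 hcon)
  by_cases h3 : ψ₁ u = 0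
  · by_cases h4 : ψ₂ w = 0
    · refine ⟨ψ₁ + ψ₂, ?_, ?_⟩
      · rw [LinearMap.add_apply, h4, add_zero]; exact h₁
      · rw [LinearMap.add_apply, h3, zero_add]; exact h₂
    · exact ⟨ψ₂, h4, h₂⟩
  · exact ⟨ψ₁, h₁, h3⟩

/-- PROOF. `Module.forall_dual_apply_eq_zero_iff` / `Submodule.exists_le_ker_of_notMem` for the span of
`z`: if `w` is not a multiple of `z` there is a functional vanishing at `z` and not at `w`. -/
theorem functional_sep (hp : p.Prime) (z w : W) (h : ¬ ∃ c : ZMod p, w = c • z) :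
    ∃ ψ : W →ₗ[ZMod p] ZMod p, ψ z = 0 ∧ ψ w ≠ 0 := by
  have : Fact p.Prime := ⟨hp⟩
  have hw : w ∉ Submodule.span (ZMod p) ({z} : Set W) := by
    intro hmem
    obtain ⟨c, hc⟩ := Submodule.mem_span_singleton.1 hmem
    exact h ⟨c, hc.symm⟩
  obtain ⟨f, hf1, hf2⟩ := Submodule.exists_le_ker_of_notMem hw
  exact ⟨f, hf2 (Submodule.mem_span_singleton_self z), hf1⟩

/-- PROOF. Choose `w₁` with `φ w₁ = 1` (`φ ≠ 0`, `F_p` a field), `u = B w₁ - w₁`, not `0` because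
`φ w₁ ≠ 0`.  `w - φ(w) w₁` is in the kernel of `φ`, so it is fixed by `B`. -/
theorem one_rank (hp : p.Prime) (φ : W →ₗ[ZMod p] ZMod p) (hφ : φ ≠ 0) (B : W →ₗ[ZMod p] W)
    (hB : ∀ w, B w = w ↔ φ w = 0) : ∃ u, u ≠ 0 ∧ ∀ w, B w = w + φ w • u := by
  have : Fact p.Prime := ⟨hp⟩
  obtain ⟨v, hv⟩ : ∃ v, φ v ≠ 0 := by
    by_contra hcon
    push Not at hcon
    exact hφ (LinearMap.ext hcon)
  have hw1 : φ ((φ v)⁻¹ • v) = 1 := by
    rw [map_smul, smul_eq_mul, inv_mul_cancel₀ hv]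
  refine ⟨B ((φ v)⁻¹ • v) - (φ v)⁻¹ • v, ?_, ?_⟩
  · intro h0
    have h1 := (hB _).1 (sub_eq_zero.1 h0)
    rw [hw1] at h1
    exact one_ne_zero h1
  · intro w
    have h2 : φ (w - φ w • ((φ v)⁻¹ • v)) = 0 := by
      rw [map_sub, map_smul φ (φ w), hw1, smul_eq_mul, mul_one, sub_self]
    have h3 := (hB _).2 h2
    rw [map_sub, map_smul B (φ w)] at h3
    rw [smul_sub]
    rw [sub_eq_sub_iff_add_eq_add] at h3
    have h4 : B w = w + φ w • B ((φ v)⁻¹ • v) - φ w • ((φ v)⁻¹ • v) := by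
      rw [← h3]; abel
    rw [h4]; abel

/-- PROOF. `h.hC A (LinearMap.ker φ)`: `b(A, A) ≤ ker φ` by `hA`.  `one_rank` gives `u`; `N = (map) - 1`.
`b (x + N x) (y + N y) = b x y + φ (b x y) • u` is expanded. -/
theorem exists_dat (h : Hyp p b) (φ : W →ₗ[ZMod p] ZMod p) (hφ : φ ≠ 0) (A : Submodule (ZMod p) V)
    (hA : MaxI b φ A) : ∃ N u, Dat b φ A N u := by
  obtain ⟨A', B, hAB, hAU, hBX⟩ := h.hC A (LinearMap.ker φ) (by
    intro u hu v hv
    rw [LinearMap.mem_ker]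
    exact (hA v).1 hv u hu)
  obtain ⟨u, hu, hu2⟩ := one_rank h.prime φ hφ B (fun w => by rw [hBX w, LinearMap.mem_ker])
  refine ⟨A' - LinearMap.id, u, ⟨hA, ?_, ?_, hu⟩⟩
  · intro a ha
    rw [LinearMap.sub_apply, hAU a ha, LinearMap.id_apply, sub_self]
  · intro x y
    have h1 : φ (b x y) • u = b (A' x) (A' y) - b x y := by
      rw [hAB, hu2]; abel
    rw [h1]
    simp only [LinearMap.sub_apply, LinearMap.id_apply, map_sub]
    abel

end FPY
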