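import Pool.Agent.FPY.L1

set_option autoImplicit false

namespace FPY

variable {p : ℕ} {V W : Type} [AddCommGroup V] [Module (ZMod p) V] [AddCommGroup W]
  [Module (ZMod p) W] {b : V →ₗ[ZMod p] V →ₗ[ZMod p] W}

/-- PROOF. `V` is finite, so there is a maximal element `A` (for `≤`) of the set of the submodules
containing `U` on which the form vanishes.  Let `x` satisfy `φ (b a x) = 0` for all `a ∈ A`; on
`A ⊔ span {x}` the form vanishes (`anti`), so it is equal to `A` and `x ∈ A`. -/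
theorem exists_max [Finite V] (halt : ∀ x, b x x = 0) (φ : W →ₗ[ZMod p] ZMod p)
    (U : Submodule (ZMod p) V) (hU : ∀ u ∈ U, ∀ v ∈ U, φ (b u v) = 0) :
    ∃ A : Submodule (ZMod p) V, U ≤ A ∧ MaxI b φ A := by
  have hfin : Finite (Submodule (ZMod p) V) := inferInstance
  obtain ⟨A, hUA, hA⟩ := Set.Finite.exists_le_maximal
    (s := {A : Submodule (ZMod p) V | ∀ u ∈ A, ∀ v ∈ A, φ (b u v) = 0}) (Set.toFinite _) hU
  have hiso : ∀ u ∈ A, ∀ v ∈ A, φ (b u v) = 0 := hA.prop
  refine ⟨A, hUA, fun x => ⟨fun hx a ha => hiso a ha x hx, fun hx => ?_⟩⟩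
  have h1 : ∀ u ∈ A ⊔ Submodule.span (ZMod p) {x}, ∀ v ∈ A ⊔ Submodule.span (ZMod p) {x},
      φ (b u v) = 0 := by
    intro u hu v hv
    obtain ⟨a, ha, y, hy, rfl⟩ := Submodule.mem_sup.1 hu
    obtain ⟨a', ha', y', hy', rfl⟩ := Submodule.mem_sup.1 hv
    obtain ⟨c, rfl⟩ := Submodule.mem_span_singleton.1 hy
    obtain ⟨c', rfl⟩ := Submodule.mem_span_singleton.1 hy'
    have e1 := hiso a ha a' ha'
    have e2 := hx a ha
    have e3 := hx a' ha'
    have e4 : b x a' = - b a' x := anti halt x a'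
    simp only [map_add, LinearMap.add_apply, map_smul, LinearMap.smul_apply, halt, e4, map_neg,
      e1, e2, e3, smul_zero, neg_zero, add_zero]
  have h2 : A ⊔ Submodule.span (ZMod p) {x} ≤ A := hA.le_of_ge h1 le_sup_left
  exact h2 (Submodule.mem_sup_right (Submodule.mem_span_singleton_self x))

/-- the radical is contained in every maximal isotropic subspace. -/
theorem rad_le (halt : ∀ x, b x x = 0) {φ : W →ₗ[ZMod p] ZMod p} {A : Submodule (ZMod p) V}
    (hA : MaxI b φ A) : Rad b φ ≤ A := by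
  intro x hx
  refine (hA x).2 fun a _ => ?_
  rw [anti halt a x, map_neg, mem_Rad.1 hx a, neg_zero]

end FPY
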