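import Pool.Agent.FPY.L1

set_option autoImplicit false

namespace FPY

variable {p : ℕ} {V W : Type} [AddCommGroup V] [Module (ZMod p) V] [AddCommGroup W]
  [Module (ZMod p) W] {b : V →ₗ[ZMod p] V →ₗ[ZMod p] W}

/-- Type A.  PROOF. Let `μ = φ u ≠ 0`.  For `a ∈ A`: `mul a x` says `b a (N x) = φ (b a x) • u`
(`N a = 0`), so `φ (b a (N x - μ • x)) = 0`, so `N x - μ • x ∈ A` (`max`).
`L = {l : N l = μ • l}`.  `x = (x - μ⁻¹ • N x) + μ⁻¹ • N x`: the first is in `A`; the second is in `L`, because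
`N (N x - μ • x) = 0` (`zero`).  For `l ∈ L`: `b a l = μ⁻¹ • b a (N l) = μ⁻¹ • φ (b a l) • u`. -/
theorem type_A (hp : p.Prime) {φ : W →ₗ[ZMod p] ZMod p} {A : Submodule (ZMod p) V}
    {N : V →ₗ[ZMod p] V} {u : W} (h : Dat b φ A N u) (hu : φ u ≠ 0) :
    ∃ L : Submodule (ZMod p) V, (∀ x, ∃ a ∈ A, ∃ l ∈ L, x = a + l) ∧
      ∀ a ∈ A, ∀ l ∈ L, ∃ c : ZMod p, b a l = c • u := by
  have := Fact.mk hp
  set μ : ZMod p := φ u with hμ
  have h1 : ∀ a ∈ A, ∀ x, b a (N x) = φ (b a x) • u := by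
    intro a ha x
    have := h.mul a x
    rw [h.zero a ha, map_zero, LinearMap.zero_apply, LinearMap.zero_apply, zero_add,
      add_zero] at this
    exact this
  have h2 : ∀ x, N x - μ • x ∈ A := by
    intro x
    refine (h.max _).2 fun a ha => ?_
    rw [map_sub, map_smul, h1 a ha x, map_sub, map_smul, map_smul, smul_eq_mul, smul_eq_mul, ← hμ,
      mul_comm, sub_self]
  have h3 : ∀ x, N (N x) = μ • N x := by
    intro x
    have := h.zero _ (h2 x)
    rw [map_sub, map_smul, sub_eq_zero] at this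
    exact this
  have h4 : μ⁻¹ * μ = 1 := inv_mul_cancel₀ hu
  refine ⟨LinearMap.ker (N - μ • LinearMap.id), fun x => ?_, fun a ha l hl => ?_⟩
  · refine ⟨x - μ⁻¹ • N x, ?_, μ⁻¹ • N x, ?_, (sub_add_cancel _ _).symm⟩
    · have h5 : x - μ⁻¹ • N x = (-μ⁻¹) • (N x - μ • x) := by
        rw [smul_sub, smul_smul, neg_mul, h4, neg_smul, neg_smul, one_smul]
        abel
      rw [h5]
      exact A.smul_mem _ (h2 x)
    · rw [LinearMap.mem_ker, LinearMap.sub_apply, LinearMap.smul_apply, LinearMap.id_apply,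
        map_smul, h3, smul_comm, sub_self]
  · rw [LinearMap.mem_ker, LinearMap.sub_apply, LinearMap.smul_apply, LinearMap.id_apply,
      sub_eq_zero] at hl
    refine ⟨μ⁻¹ * φ (b a l), ?_⟩
    have h5 : l = μ⁻¹ • N l := by
      rw [hl, smul_smul, h4, one_smul]
    calc b a l = μ⁻¹ • b a (N l) := by
          conv_lhs => rw [h5]
          rw [map_smul]
      _ = (μ⁻¹ * φ (b a l)) • u := by rw [h1 a ha l, smul_smul]

end FPY
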