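import Pool.Agent.FPY.L2

set_option autoImplicit false

namespace FPY

variable {p : ℕ} {V W : Type} [AddCommGroup V] [Module (ZMod p) V] [AddCommGroup W]
  [Module (ZMod p) W] {b : V →ₗ[ZMod p] V →ₗ[ZMod p] W}

/-- Type B.  PROOF. For `a ∈ A`: `mul a x` gives `b a (N x) = φ (b a x) • u` (act).  So
`φ (b a (N x)) = 0`, and `N x ∈ A` (`max`).  act for `a = N x`: `b (N x) (N y) = s(x, y) • u` with
`s(x, y) = φ (b (N x) y)`.  `φ` applied to `mul x y`: `s(x,y) + φ (b x (N y)) + s(x,y) φ(u) = φ(b x y) φ(u)`, so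
`s(x,y) = - φ (b x (N y)) = s(y,x)` (`anti`).  `0 = b (N x) (N x) = s(x,x) • u` gives `s(x,x) = 0`, so
`2 s(x,y) = s(x+y,x+y) - ... = 0` and `s = 0` (`p` odd).  So `N x ∈ Rad b φ` and `b (N x) (N y) = 0`; `der` is
`mul`.  `zero`: `Rad b φ ≤ A` (`rad_le`).  `orth`: `b (N x) d = - b d (N x) = - φ (b d x) • u = 0`.
`ker`: if `N x = 0` then `0 = b a (N x) = φ (b a x) • u`, so `φ (b a x) = 0` for all `a ∈ A`, `x ∈ A`. -/
theorem type_B (hp : p.Prime) (h2 : p ≠ 2) (halt : ∀ x, b x x = 0) {φ : W →ₗ[ZMod p] ZMod p}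
    {A : Submodule (ZMod p) V} {N : V →ₗ[ZMod p] V} {u : W} (h : Dat b φ A N u) (hu : φ u = 0) :
    TB b φ A N u := by
  haveI : Fact p.Prime := ⟨hp⟩
  have hsm : ∀ c : ZMod p, c • u = 0 → c = 0 := by
    intro c hc
    rcases smul_eq_zero.1 hc with h1 | h1
    · exact h1
    · exact absurd h1 h.ne
  have act : ∀ a ∈ A, ∀ x, b a (N x) = φ (b a x) • u := by
    intro a ha x
    have h1 := h.mul a x
    rw [h.zero a ha, map_zero, LinearMap.zero_apply, zero_add, LinearMap.zero_apply, add_zero] at h1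
    exact h1
  have hNA : ∀ x, N x ∈ A := by
    intro x
    rw [h.max]
    intro a ha
    rw [act a ha x, map_smul, hu, smul_zero]
  have hsym : ∀ x y, φ (b (N x) y) = φ (b (N y) x) := by
    intro x y
    have h1 := congrArg φ (h.mul x y)
    rw [map_add, map_add, act (N x) (hNA x) y, map_smul, map_smul, hu, smul_zero, smul_zero,
      add_zero, anti halt x (N y), map_neg] at h1
    linear_combination h1
  have hxx : ∀ x, φ (b (N x) x) = 0 := by
    intro x
    apply hsm
    rw [← act (N x) (hNA x) x]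
    exact halt _
  have h2' : (2 : ZMod p) ≠ 0 := by
    intro h3
    have h4 : ((2 : ℕ) : ZMod p) = 0 := by exact_mod_cast h3
    rw [ZMod.natCast_eq_zero_iff] at h4
    exact h2 ((Nat.prime_dvd_prime_iff_eq hp Nat.prime_two).1 h4)
  have hs : ∀ x y, φ (b (N x) y) = 0 := by
    intro x y
    have h1 := hxx (x + y)
    have h3 := hxx x
    have h4 := hxx y
    have h5 := hsym x y
    simp only [map_add, LinearMap.add_apply] at h1
    have h6 : (2 : ZMod p) * φ (b (N x) y) = 0 := by
      linear_combination h1 - h3 - h4 + h5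
    rcases mul_eq_zero.1 h6 with h7 | h7
    · exact absurd h7 h2'
    · exact h7
  refine ⟨h.max, ⟨fun x => mem_Rad.2 (hs x), fun d hd => h.zero d (rad_le halt h.max hd), ?_, ?_⟩,
    act, ?_, h.ne, hu⟩
  · intro x d hd
    rw [anti halt, act d (rad_le halt h.max hd) x, mem_Rad.1 hd x, zero_smul, neg_zero]
  · intro x y
    have h1 := h.mul x y
    rw [act (N x) (hNA x) y, hs x y, zero_smul, add_zero] at h1
    exact h1
  · intro x hx
    rw [h.max]
    intro a ha
    apply hsm
    rw [← act a ha x, hx, map_zero]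

end FPY
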