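import Pool.Agent.FPY.L1

set_option autoImplicit false

namespace FPY

variable {p : ℕ} {V W : Type} [AddCommGroup V] [Module (ZMod p) V] [AddCommGroup W]
  [Module (ZMod p) W] {b : V →ₗ[ZMod p] V →ₗ[ZMod p] W}

/-- PROOF. The map `V → Dual V`, `y ↦ φ (b y ·)`, has range `R`; the common kernel of the functionals in
`R` (`R.dualCoannihilator`) is `{v | ∀ y, φ (b y v) = 0} = Rad b φ` (`anti`).  `f` vanishes on it, so `f` is in
`R.dualCoannihilator.dualAnnihilator = R` (`Subspace.dualCoannihilator_dualAnnihilator_eq`, finite dimension). -/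
theorem rep (hp : p.Prime) [Finite V] (halt : ∀ x, b x x = 0) (φ : W →ₗ[ZMod p] ZMod p)
    (f : V →ₗ[ZMod p] ZMod p) (hf : ∀ d ∈ Rad b φ, f d = 0) : ∃ y, ∀ v, f v = φ (b y v) := by
  have : Fact p.Prime := ⟨hp⟩
  have : Module.Finite (ZMod p) V := Module.Finite.of_finite
  let F : V →ₗ[ZMod p] Module.Dual (ZMod p) V := b.compr₂ φ
  have hF : ∀ y v, F y v = φ (b y v) := fun y v => rfl
  have h1 : f ∈ (LinearMap.range F).dualCoannihilator.dualAnnihilator := by
    rw [Submodule.mem_dualAnnihilator]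
    intro v hv
    rw [Submodule.mem_dualCoannihilator] at hv
    refine hf v ?_
    rw [mem_Rad]
    intro y
    rw [anti halt v y, map_neg, ← hF, hv (F y) (LinearMap.mem_range_self F y), neg_zero]
  rw [Subspace.dualCoannihilator_dualAnnihilator_eq] at h1
  obtain ⟨y, hy⟩ := h1
  exact ⟨y, fun v => by rw [← hF, hy]⟩

end FPY
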