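import Pool.Agent.FPY.L2
import Pool.Agent.FPY.L5

set_option autoImplicit false

namespace FPY

variable {p : ℕ} {V W : Type} [AddCommGroup V] [Module (ZMod p) V] [AddCommGroup W]
  [Module (ZMod p) W] {b : V →ₗ[ZMod p] V →ₗ[ZMod p] W}

/-- PROOF. The linear map `T : A → Dual V`, `a ↦ φ (b a ·)`, has kernel `Rad b φ` (contained in `A`,
`rad_le`) and range `A.dualAnnihilator`: a functional `f` vanishing on `A` vanishes on `Rad b φ`, so
`f = φ (b y ·)` (`rep`), and `y ∈ A` because `φ (b a y) = - φ (b y a) = 0` for `a ∈ A` (`MaxI`).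
`finrank A = finrank (Rad b φ) + (finrank V - finrank A)` (`LinearMap.finrank_range_add_finrank_ker`,
`Subspace.finrank_add_finrank_dualAnnihilator_eq`). -/
theorem dim_max (hp : p.Prime) [Finite V] (halt : ∀ x, b x x = 0) (φ : W →ₗ[ZMod p] ZMod p)
    (A : Submodule (ZMod p) V) (hA : MaxI b φ A) :
    2 * Module.finrank (ZMod p) A =
      Module.finrank (ZMod p) V + Module.finrank (ZMod p) (Rad b φ) := by
  have : Fact p.Prime := ⟨hp⟩
  have hanti : ∀ x y, b x y = - b y x := anti halt
  set T : A →ₗ[ZMod p] Module.Dual (ZMod p) V := (b.compr₂ φ).domRestrict A with hT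
  have hTa : ∀ (a : A) (v : V), T a v = φ (b (a : V) v) := fun a v => rfl
  have hker : LinearMap.ker T = (Rad b φ).comap A.subtype := by
    ext a
    rw [LinearMap.mem_ker, Submodule.mem_comap, mem_Rad]
    constructor
    · intro h v
      have h4 := hTa a v
      rw [h] at h4
      exact h4.symm
    · intro h
      ext v
      exact h v
  have hrange : LinearMap.range T = A.dualAnnihilator := by
    ext f
    rw [LinearMap.mem_range, Submodule.mem_dualAnnihilator]
    constructor
    · rintro ⟨a, rfl⟩ w hw
      rw [hTa]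
      exact (hA w).1 hw a a.2
    · intro hf
      obtain ⟨y, hy⟩ := rep hp halt φ f (fun d hd => hf d (rad_le halt hA hd))
      have hyA : y ∈ A := by
        rw [hA]
        intro a ha
        rw [hanti, map_neg, ← hy, hf a ha, neg_zero]
      refine ⟨⟨y, hyA⟩, ?_⟩
      ext v
      rw [hTa, hy]
  have h1 := LinearMap.finrank_range_add_finrank_ker T
  have h2 := Subspace.finrank_add_finrank_dualAnnihilator_eq A
  have h3 : Module.finrank (ZMod p) (LinearMap.ker T) = Module.finrank (ZMod p) (Rad b φ) := by
    rw [hker]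
    exact (Submodule.comapSubtypeEquivOfLe (rad_le halt hA)).finrank_eq
  rw [hrange, h3] at h1
  omega

end FPY
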