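import Pool.Agent.FPY.M9

set_option autoImplicit false

namespace FPY

variable {p : ℕ} {V W : Type} [AddCommGroup V] [Module (ZMod p) V] [AddCommGroup W]
  [Module (ZMod p) W] {b : V →ₗ[ZMod p] V →ₗ[ZMod p] W}

/-- PROOF. Choose `a₀ ∉ Rad b φ` (`hm.nz`) and `u` from `line_eq` for `a₀, a₀`.  For `a ∈ Rad b φ`: `b a d = 0`
(`rad_abelian`).  For `a ∉ Rad b φ`: `exists_third` gives `v`, `line_eq` for `a₀, v` (with `u'`) and for `a, v` (with `u''`);
`u'` is a multiple of `u` (both are values of `b a₀ ·` and ...), `u''` of `u'`, all nonzero; so `b a d` is a multiple of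
`u`. -/
theorem connect (h : Hyp2 p b) {φ : W →ₗ[ZMod p] ZMod p} (hm : Min b φ)
    (hr : 2 ≤ Module.finrank (ZMod p) (Rad b φ)) :
    ∃ u : W, ∀ a, ∀ d ∈ Rad b φ, ∃ c : ZMod p, b a d = c • u := by
  obtain ⟨x₀, y₀, hxy⟩ := hm.nz
  have ha₀ : x₀ ∉ Rad b φ := fun hx => hxy (hx y₀)
  have h00 : φ (b x₀ x₀) = 0 := by rw [h.alt x₀, map_zero]
  obtain ⟨u, -, hu1, -, -, -⟩ := line_eq h hm x₀ x₀ ha₀ ha₀ h00
  refine ⟨u, fun a d hd => ?_⟩
  by_cases ha : a ∈ Rad b φ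
  · exact ⟨0, by rw [zero_smul]; exact rad_abelian h hm a ha d hd⟩
  · obtain ⟨v, hv, hv1, hv2⟩ := exists_third h hm hr x₀ a
    obtain ⟨u', -, -, hp2, ⟨d1, hd1, hd1'⟩, -⟩ := line_eq h hm x₀ v ha₀ hv hv1
    obtain ⟨u'', -, hq1, -, -, ⟨d2, hd2, hd2'⟩⟩ := line_eq h hm a v ha hv hv2
    obtain ⟨c1, hc1⟩ := hu1 d1 hd1
    obtain ⟨c2, hc2⟩ := hp2 d2 hd2
    obtain ⟨c3, hc3⟩ := hq1 d hd
    refine ⟨c3 * (c2 * c1), ?_⟩
    rw [hc3, ← hd2', hc2, ← hd1', hc1, smul_smul, smul_smul, mul_assoc]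

/-- PROOF. There is `φ` with `NZ b φ` (`h0`, a functional not zero at `b x y`), so, `W → ZMod p` linear maps being
finitely many (or by `Nat.find`/well-foundedness of the orders), there is a minimal one: `Min b φ`.
`r = finrank (Rad b φ)`, `finrank V = 3 r` (`dim_three`).  `r ≠ 0`: `V ≠ 0`.  If `r ≥ 2`: `connect` gives `u`; for
`0 ≠ k ∈ Rad b φ`, `b k x = - b x k` is a multiple of `u` for all `x`: contradiction to `hR`.  So `r = 1`. -/
theorem finrank_V (h : Hyp2 p b) (h0 : ∃ x y, b x y ≠ 0) : Module.finrank (ZMod p) V = 3 := by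
  classical
  have hpf : Fact p.Prime := ⟨h.prime⟩
  have hfV : Finite V := h.finV
  obtain ⟨x, y, hxy⟩ := h0
  have hex : ∃ n : ℕ, ∃ φ : W →ₗ[ZMod p] ZMod p, NZ b φ ∧ Nat.card (Xs b φ) = n := by
    obtain ⟨ψ, h1, -⟩ := two_functionals h.prime (b x y) (b x y) hxy hxy
    exact ⟨_, ψ, ⟨x, y, h1⟩, rfl⟩
  obtain ⟨φ, hφ, hφn⟩ := Nat.find_spec hex
  have hm : Min b φ := ⟨hφ, fun ψ hψ => by
    rw [hφn]
    exact Nat.find_min' hex ⟨ψ, hψ, rfl⟩⟩
  have hd := dim_three h hm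
  set r := Module.finrank (ZMod p) (Rad b φ) with hrdef
  have hr0 : r ≠ 0 := by
    intro h1
    rw [h1] at hd
    have h2 : Subsingleton V := Module.finrank_zero_iff.1 (by simpa using hd)
    apply hxy
    rw [Subsingleton.elim x 0, map_zero, LinearMap.zero_apply]
  have hr1 : ¬ 2 ≤ r := by
    intro h2
    obtain ⟨u, hu⟩ := connect h hm h2
    have hne : Rad b φ ≠ ⊥ := by
      intro h3
      rw [hrdef, h3, finrank_bot] at h2
      omega
    obtain ⟨k, hk, hk0⟩ := Submodule.exists_mem_ne_zero_of_ne_bot hne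
    refine h.hR k hk0 u fun z => ?_
    obtain ⟨c, hc⟩ := hu z k hk
    exact ⟨-c, by rw [anti h.alt k z, hc, neg_smul]⟩
  have hr2 : r = 1 := by omega
  rw [hd, hr2]

end FPY
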