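import Pool.Agent.FPY.L1

set_option autoImplicit false

namespace FPY

variable {p : ℕ} {V W : Type} [AddCommGroup V] [Module (ZMod p) V] [AddCommGroup W]
  [Module (ZMod p) W] {b : V →ₗ[ZMod p] V →ₗ[ZMod p] W}

/-- PROOF. Let `e` be a basis of `V` indexed by `Fin 3` (`Module.finBasisOfFinrankEq`).  The span of the values of
`b` is spanned by `w₀₁ = b e₀ e₁`, `w₀₂ = b e₀ e₂`, `w₁₂ = b e₁ e₂` (`anti`, `alt`).  They are linearly
independent: let `α w₀₁ + β w₀₂ + γ w₁₂ = 0`, not all zero.  There are linearly independent `x, y` with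
`b x y = α w₀₁ + β w₀₂ + γ w₁₂ = 0`: if `γ ≠ 0`: `x = e₁ + (β/γ) • e₀`, `y = γ • e₂ - α • e₀`:
`b x y = γ w₁₂ - α b e₁ e₀ + β w₀₂ = γ w₁₂ + α w₀₁ + β w₀₂`.  If `γ = 0`: `x = e₀`, `y = α • e₁ + β • e₂`.
Complete `x, y` to a basis `x, y, t` (or: `V/span{x,y}` has dimension one): `b x v` for `v = a x + b y + c t` is
`c • b x t`, a multiple of `b x t`: contradiction to `hR x` (`x ≠ 0`). -/
theorem finrank_W (h : Hyp2 p b) (h3 : Module.finrank (ZMod p) V = 3) :
    Module.finrank (ZMod p) (Submodule.span (ZMod p) (Set.range fun q : V × V => b q.1 q.2)) = 3 := by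
  haveI : Fact p.Prime := ⟨h.prime⟩
  haveI := h.finV
  haveI : Module.Finite (ZMod p) V := Module.Finite.of_finite
  let e := Module.finBasisOfFinrankEq (ZMod p) V h3
  have hrep : ∀ v : V, v = e.repr v 0 • e 0 + e.repr v 1 • e 1 + e.repr v 2 • e 2 := by
    intro v
    have := e.sum_repr v
    rw [Fin.sum_univ_three] at this
    exact this.symm
  have hne : ∀ i, e i ≠ 0 := fun i => e.ne_zero i
  have h10 : b (e 1) (e 0) = - b (e 0) (e 1) := anti h.alt _ _
  have h20 : b (e 2) (e 0) = - b (e 0) (e 2) := anti h.alt _ _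
  have h21 : b (e 2) (e 1) = - b (e 1) (e 2) := anti h.alt _ _
  let w : Fin 3 → W := ![b (e 0) (e 1), b (e 0) (e 2), b (e 1) (e 2)]
  have hspan : Submodule.span (ZMod p) (Set.range fun q : V × V => b q.1 q.2) =
      Submodule.span (ZMod p) (Set.range w) := by
    apply le_antisymm
    · rw [Submodule.span_le]
      rintro _ ⟨⟨x, y⟩, rfl⟩
      have hw0 : b (e 0) (e 1) ∈ Submodule.span (ZMod p) (Set.range w) :=
        Submodule.subset_span ⟨0, rfl⟩
      have hw1 : b (e 0) (e 2) ∈ Submodule.span (ZMod p) (Set.range w) :=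
        Submodule.subset_span ⟨1, rfl⟩
      have hw2 : b (e 1) (e 2) ∈ Submodule.span (ZMod p) (Set.range w) :=
        Submodule.subset_span ⟨2, rfl⟩
      have hxy : b x y = (e.repr x 0 * e.repr y 1 - e.repr x 1 * e.repr y 0) • b (e 0) (e 1) +
          (e.repr x 0 * e.repr y 2 - e.repr x 2 * e.repr y 0) • b (e 0) (e 2) +
          (e.repr x 1 * e.repr y 2 - e.repr x 2 * e.repr y 1) • b (e 1) (e 2) := by
        conv_lhs => rw [hrep x, hrep y]
        simp only [map_add, map_smul, LinearMap.add_apply, LinearMap.smul_apply, h.alt, h10, h20,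
          h21]
        module
      show b x y ∈ _
      rw [hxy]
      exact Submodule.add_mem _ (Submodule.add_mem _ (Submodule.smul_mem _ _ hw0)
        (Submodule.smul_mem _ _ hw1)) (Submodule.smul_mem _ _ hw2)
    · rw [Submodule.span_le]
      rintro _ ⟨i, rfl⟩
      apply Submodule.subset_span
      fin_cases i
      · exact ⟨(e 0, e 1), rfl⟩
      · exact ⟨(e 0, e 2), rfl⟩
      · exact ⟨(e 1, e 2), rfl⟩
  have hlin : LinearIndependent (ZMod p) w := by
    rw [Fintype.linearIndependent_iff]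
    intro g hg
    rw [Fin.sum_univ_three] at hg
    have hg' : g 0 • b (e 0) (e 1) + g 1 • b (e 0) (e 2) + g 2 • b (e 1) (e 2) = 0 := hg
    have hγ : g 2 = 0 := by
      by_contra hγ
      set x : V := e 1 + ((g 2)⁻¹ * g 1) • e 0 with hx
      have hx0 : x ≠ 0 := by
        intro h0
        have h1 : e.repr x 1 = 0 := by rw [h0]; simp
        rw [hx] at h1
        simp at h1
      refine h.hR x hx0 (b (e 0) (e 1)) ?_
      intro v
      have h12 : b (e 1) (e 2) = - ((g 2)⁻¹ * g 0) • b (e 0) (e 1) -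
          ((g 2)⁻¹ * g 1) • b (e 0) (e 2) := by
        have h4 : g 2 • b (e 1) (e 2) = - (g 0 • b (e 0) (e 1)) - g 1 • b (e 0) (e 2) := by
          rw [eq_sub_iff_add_eq, eq_neg_iff_add_eq_zero, ← hg']
          abel
        have h5 : b (e 1) (e 2) = (g 2)⁻¹ • (g 2 • b (e 1) (e 2)) := by
          rw [smul_smul, inv_mul_cancel₀ hγ, one_smul]
        rw [h5, h4]
        module
      refine ⟨- e.repr v 0 + ((g 2)⁻¹ * g 1) * e.repr v 1 - (g 2)⁻¹ * g 0 * e.repr v 2, ?_⟩
      conv_lhs => rw [hrep v, hx]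
      simp only [map_add, map_smul, LinearMap.add_apply, LinearMap.smul_apply, h.alt, h10, h12]
      module
    rw [hγ, zero_smul, add_zero] at hg'
    have hβ : g 1 = 0 := by
      by_contra hβ
      refine h.hR (e 0) (hne 0) (b (e 0) (e 1)) ?_
      intro v
      have h02 : b (e 0) (e 2) = - ((g 1)⁻¹ * g 0) • b (e 0) (e 1) := by
        have h4 : g 1 • b (e 0) (e 2) = - (g 0 • b (e 0) (e 1)) := by
          rw [eq_neg_iff_add_eq_zero, ← hg']
          abel
        have h5 : b (e 0) (e 2) = (g 1)⁻¹ • (g 1 • b (e 0) (e 2)) := by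
          rw [smul_smul, inv_mul_cancel₀ hβ, one_smul]
        rw [h5, h4]
        module
      refine ⟨e.repr v 1 - (g 1)⁻¹ * g 0 * e.repr v 2, ?_⟩
      conv_lhs => rw [hrep v]
      simp only [map_add, map_smul, h.alt, h02]
      module
    rw [hβ, zero_smul, add_zero] at hg'
    have hα : g 0 = 0 := by
      by_contra hα
      have h01 : b (e 0) (e 1) = 0 := by
        rcases smul_eq_zero.1 hg' with h6 | h6
        · exact absurd h6 hα
        · exact h6
      refine h.hR (e 0) (hne 0) (b (e 0) (e 2)) ?_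
      intro v
      refine ⟨e.repr v 2, ?_⟩
      conv_lhs => rw [hrep v]
      simp only [map_add, map_smul, h.alt, h01]
      module
    intro i
    fin_cases i
    · exact hα
    · exact hβ
    · exact hγ
  rw [hspan, finrank_span_eq_card hlin, Fintype.card_fin]

end FPY
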