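import Pool.Agent.FPY.L3
import Pool.Agent.FPY.L4

set_option autoImplicit false

namespace FPY

variable {p : ℕ} {V W : Type} [AddCommGroup V] [Module (ZMod p) V] [AddCommGroup W]
  [Module (ZMod p) W] {b : V →ₗ[ZMod p] V →ₗ[ZMod p] W}

/-- Type A does not occur.  PROOF. Suppose `φ u ≠ 0`; `type_A` gives `L`.  `A ≠ ⊤` (`hφ` and `max`), so there is
`a' ∈ L`, `a' ∉ A` (otherwise `V = A + L = A`).
For `a ∈ A`, `b a a'` is a multiple of `u`, so `φ (b a a') = 0` implies `b a a' = 0`.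
`A₁ = {a ∈ A | b a a' = 0} ⊔ span {a'}`.  The form of `φ` vanishes on `A₁` (`anti`).
`A₁` is `MaxI`: choose `a₀ ∈ A` with `φ (b a₀ a') ≠ 0` (`a' ∉ A`, `max`).  Let `φ (b a x) = 0` for all `a ∈ A₁`.
For `a ∈ A`: `a - t • a₀ ∈ A₁` with `t = φ (b a a') / φ (b a₀ a')` (it is in `A` and
`φ (b (a - t a₀) a') = 0`), so `φ (b a x) = t φ (b a₀ x)`; let `x' = x - s • a'`,
`s = φ (b a₀ x) / φ (b a₀ a')`: `φ (b a x') = t φ (b a₀ x) - s φ (b a a') = 0`.  So `x' ∈ A` (`max`);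
and `0 = φ (b a' x) = φ (b a' x')`, so `b x' a' = 0` (`anti`, the remark above), `x' ∈ A₁`,
`x = x' + s • a' ∈ A₁`.
`b a' y = 0` for all `y ∈ A₁`.  `exists_dat` for `A₁`: `N₁, u₁`.
If `φ u₁ ≠ 0`: `type_A` for `A₁` gives `L₁`; for `x = a + l`: `b a' x = b a' l` is a multiple of `u₁`:
contradiction to `hR a'` (`a' ≠ 0` as `a' ∉ A`).
If `φ u₁ = 0`: `type_B`: `b a' (N₁ x) = φ (b a' x) • u₁`, and `N₁ x ∈ Rad b φ ≤ A₁` (`rad_le`), so the left side is
`0`, `φ (b a' x) = 0` for all `x`, so `a' ∈ Rad b φ ≤ A`, contradiction. -/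
theorem not_A (h : Hyp p b) (hR : ∀ v, v ≠ 0 → ∀ z, ¬ ∀ x, ∃ c : ZMod p, b v x = c • z)
    (φ : W →ₗ[ZMod p] ZMod p) (hφ : NZ b φ) (A : Submodule (ZMod p) V) (N : V →ₗ[ZMod p] V) (u : W)
    (hd : Dat b φ A N u) : φ u = 0 := by
  by_contra hu
  have : Fact p.Prime := ⟨h.prime⟩
  obtain ⟨L, hL1, hL2⟩ := type_A h.prime hd hu
  have hmax := hd.max
  have halt := h.alt
  obtain ⟨a', ha'L, ha'A⟩ : ∃ a' ∈ L, a' ∉ A := by
    by_contra hcon
    push Not at hcon
    obtain ⟨x, y, hxy⟩ := hφ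
    have hall : ∀ v, v ∈ A := by
      intro v
      obtain ⟨a, ha, l, hl, rfl⟩ := hL1 v
      exact A.add_mem ha (hcon l hl)
    exact hxy ((hmax y).1 (hall y) x (hall x))
  have k1 : ∀ a ∈ A, φ (b a a') = 0 → b a a' = 0 := by
    intro a ha h0
    obtain ⟨c, hc⟩ := hL2 a ha a' ha'L
    rw [hc, map_smul, smul_eq_mul] at h0
    rcases mul_eq_zero.1 h0 with h1 | h1
    · rw [hc, h1, zero_smul]
    · exact (hu h1).elim
  obtain ⟨a₀, ha₀, hk⟩ : ∃ a₀ ∈ A, φ (b a₀ a') ≠ 0 := by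
    by_contra hcon
    push Not at hcon
    exact ha'A ((hmax a').2 hcon)
  let A₁ : Submodule (ZMod p) V :=
    { carrier := {x | ∃ a ∈ A, ∃ c : ZMod p, b a a' = 0 ∧ x = a + c • a'}
      add_mem' := by
        rintro x y ⟨a, ha, c, h1, rfl⟩ ⟨a2, ha2, c2, h2, rfl⟩
        refine ⟨a + a2, A.add_mem ha ha2, c + c2, ?_, ?_⟩
        · rw [map_add, LinearMap.add_apply, h1, h2, add_zero]
        · rw [add_smul]; abel
      zero_mem' := ⟨0, A.zero_mem, 0, by simp, by simp⟩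
      smul_mem' := by
        rintro t x ⟨a, ha, c, h1, rfl⟩
        refine ⟨t • a, A.smul_mem t ha, t * c, ?_, ?_⟩
        · rw [map_smul, LinearMap.smul_apply, h1, smul_zero]
        · rw [smul_add, mul_smul] }
  have hmem : ∀ x, x ∈ A₁ ↔ ∃ a ∈ A, ∃ c : ZMod p, b a a' = 0 ∧ x = a + c • a' :=
    fun x => Iff.rfl
  have ha'1 : a' ∈ A₁ := (hmem _).2 ⟨0, A.zero_mem, 1, by simp, by simp⟩
  have hz : ∀ y ∈ A₁, b a' y = 0 := by
    intro y hy
    obtain ⟨a, ha, c, h1, rfl⟩ := (hmem y).1 hy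
    rw [map_add, map_smul, halt a', smul_zero, add_zero, anti halt, h1, neg_zero]
  have hMI : MaxI b φ A₁ := by
    intro x
    constructor
    · intro hx y hy
      obtain ⟨a, ha, c, h1, rfl⟩ := (hmem x).1 hx
      obtain ⟨a2, ha2, c2, h2, rfl⟩ := (hmem y).1 hy
      have e1 : b (a2 + c2 • a') (a + c • a') = b a2 a := by
        have e2 : b a' a = 0 := by rw [anti halt, h1, neg_zero]
        simp only [map_add, LinearMap.add_apply, map_smul, LinearMap.smul_apply, h2, e2, halt a',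
          smul_zero, add_zero]
      rw [e1]
      exact (hmax a).1 ha a2 ha2
    · intro hx
      set k := φ (b a₀ a') with hkdef
      set s := φ (b a₀ x) / k with hs
      have hx'A : x - s • a' ∈ A := by
        rw [hmax]
        intro a ha
        set t := φ (b a a') / k with ht
        have hmA : a - t • a₀ ∈ A := A.sub_mem ha (A.smul_mem t ha₀)
        have h0 : b (a - t • a₀) a' = 0 := by
          refine k1 _ hmA ?_
          rw [map_sub, LinearMap.sub_apply, map_smul, LinearMap.smul_apply, map_sub, map_smul,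
            smul_eq_mul, ← hkdef, ht, div_mul_cancel₀ _ hk, sub_self]
        have h1 : a - t • a₀ ∈ A₁ := (hmem _).2 ⟨_, hmA, 0, h0, by simp⟩
        have h2 := hx _ h1
        rw [map_sub, LinearMap.sub_apply, map_smul, LinearMap.smul_apply, map_sub, map_smul,
          smul_eq_mul, sub_eq_zero] at h2
        rw [map_sub, map_smul, map_sub, map_smul, smul_eq_mul, h2, hs, ht]
        ring
      have h3 : b (x - s • a') a' = 0 := by
        refine k1 _ hx'A ?_
        rw [anti halt, map_neg, map_sub, map_smul, halt a', smul_zero, sub_zero, hx a' ha'1,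
          neg_zero]
      exact (hmem _).2 ⟨_, hx'A, s, h3, by abel⟩
  have hφ0 : φ ≠ 0 := by
    rintro rfl
    obtain ⟨x, y, hxy⟩ := hφ
    exact hxy rfl
  have ha'0 : a' ≠ 0 := by
    rintro rfl
    exact ha'A A.zero_mem
  obtain ⟨N₁, u₁, hd₁⟩ := exists_dat h φ hφ0 A₁ hMI
  by_cases hu1 : φ u₁ = 0
  · have hTB := type_B h.prime h.odd halt hd₁ hu1
    have hrad : a' ∈ Rad b φ := by
      intro x
      have h1 := hTB.act a' ha'1 x
      have h2 : N₁ x ∈ A₁ := rad_le halt hMI (hTB.der.mem x)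
      rw [hz _ h2] at h1
      rcases smul_eq_zero.1 h1.symm with h3 | h3
      · exact h3
      · exact (hTB.ne h3).elim
    exact ha'A (rad_le halt hmax hrad)
  · obtain ⟨L₁, h1, h2⟩ := type_A h.prime hd₁ hu1
    refine hR a' ha'0 u₁ fun x => ?_
    obtain ⟨a, ha, l, hl, rfl⟩ := h1 x
    obtain ⟨c, hc⟩ := h2 a' ha'1 l hl
    exact ⟨c, by rw [map_add, hz a ha, zero_add, hc]⟩

end FPY
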