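import Pool.Agent.FPY.R1d
import Pool.Agent.FPY.NA
import Pool.Agent.FPY.M10
import Pool.Agent.FPY.M11

set_option autoImplicit false

namespace FPY

variable {p : ℕ} {V W : Type} [AddCommGroup V] [Module (ZMod p) V] [AddCommGroup W]
  [Module (ZMod p) W] {b : V →ₗ[ZMod p] V →ₗ[ZMod p] W}

/-- PROOF. `hR` is `r1`, `hB` is `exists_dat` (`φ ≠ 0` as `NZ b φ`), `not_A`, `type_B`. -/
theorem hyp2 (h : Hyp p b) (hD : ¬ ∃ z, ∀ x y, ∃ c : ZMod p, b x y = c • z) : Hyp2 p b := by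
  have hR : ∀ v, v ≠ 0 → ∀ z, ¬ ∀ x, ∃ c : ZMod p, b v x = c • z := by
    intro v hv z hz
    exact hD ⟨z, r1 h hv hz⟩
  refine ⟨h.prime, h.odd, h.finV, h.finW, h.alt, h.nondeg, hR, ?_⟩
  intro φ hφ A hA
  have hφ0 : φ ≠ 0 := by
    rintro rfl
    obtain ⟨x, y, hxy⟩ := hφ
    exact hxy (by simp)
  obtain ⟨N, u, hd⟩ := exists_dat h φ hφ0 A hA
  exact ⟨N, u, type_B h.prime h.odd h.alt hd (not_A h hR φ hφ A N u hd)⟩

/-- THEOREM (linear algebra). -/
theorem lin (h : Hyp p b) :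
    (∃ z, ∀ x y, ∃ c : ZMod p, b x y = c • z) ∨
      (Module.finrank (ZMod p) V = 3 ∧
        Module.finrank (ZMod p)
          (Submodule.span (ZMod p) (Set.range fun q : V × V => b q.1 q.2)) = 3) := by
  by_cases hD : ∃ z, ∀ x y, ∃ c : ZMod p, b x y = c • z
  · exact Or.inl hD
  · right
    have h2 := hyp2 h hD
    have h0 : ∃ x y, b x y ≠ 0 := by
      by_contra hne
      push Not at hne
      exact hD ⟨0, fun x y => ⟨0, by rw [hne x y, smul_zero]⟩⟩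
    have h3 := finrank_V h2 h0
    exact ⟨h3, finrank_W h2 h3⟩

end FPY
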