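import Pool.Agent.FPY.L1

set_option autoImplicit false

namespace FPY

variable {p : ℕ} {V W : Type} [AddCommGroup V] [Module (ZMod p) V] [AddCommGroup W]
  [Module (ZMod p) W] {b : V →ₗ[ZMod p] V →ₗ[ZMod p] W}

/-- The commutator of two derivations.  PROOF. Write `K = N M - M N`.
`M d ∈ Rad b φ` for `d ∈ Rad b φ`: `φ` applied to `hM.der d v`: `φ (b (M d) v) + φ (b d (M v)) = ψ (b d v) φ(y) = 0`
and `φ (b d (M v)) = 0`.
`M (N v) ∈ Rad b φ`: `N v ∈ Rad b φ` and the previous line; `N (M v) ∈ Rad b φ` by `hN.mem`.  So `mem`.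
`zero`: for `d ∈ Rad b φ`: `N d = 0`, and `N (M d) = 0` as `M d ∈ Rad b φ`.
`orth`: `b (N (M x)) d = 0` (`hN.orth`); `b (M (N x)) d = ψ (b (N x) d) • y - b (N x) (M d)` (`hM.der`), `b (N x) d = 0`
and `b (N x) (M d) = 0` (`hN.orth`, `M d ∈ Rad b φ`).
`der`: `b (K x) y' + b x (K y')` `= [b (N M x) y' + b (M x) (N y')] - [b (M x) (N y') + b (M N x) y'] ...`: precisely
`b (N (M x)) y' + b (M x) (N y') = φ (b (M x) y') • x₀`, `b (N x) (M y') + b x (N (M y')) = φ (b x (M y')) • x₀`,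
`b (M (N x)) y' + b (N x) (M y') = ψ (b (N x) y') • y`, `b (M x) (N y') + b x (M (N y')) = ψ (b x (N y')) • y`, so the sum
is `φ (b (M x) y' + b x (M y')) • x₀ - ψ (b (N x) y' + b x (N y')) • y = φ (ψ (b x y') • y) • x₀ -
ψ (φ (b x y') • x₀) • y = - φ (b x y') ψ(x₀) • y` (`φ y = 0`). -/
theorem der_comm {φ ψ : W →ₗ[ZMod p] ZMod p} {N M : V →ₗ[ZMod p] V} {x₀ y : W}
    (hN : Der b φ N x₀) (hM : Der b ψ M y) (hy : φ y = 0) :
    Der b φ (N ∘ₗ M - M ∘ₗ N) (-(ψ x₀ • y)) := by
  have hMd : ∀ d ∈ Rad b φ, M d ∈ Rad b φ := by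
    intro d hd v
    have h1 := congrArg φ (hM.der d v)
    rw [map_add, map_smul, hy, smul_zero, hd (M v), add_zero] at h1
    exact h1
  refine ⟨?_, ?_, ?_, ?_⟩
  · intro x
    exact (Rad b φ).sub_mem (hN.mem (M x)) (hMd _ (hN.mem x))
  · intro d hd
    rw [LinearMap.sub_apply, LinearMap.comp_apply, LinearMap.comp_apply, hN.zero d hd,
      hN.zero _ (hMd d hd), map_zero, sub_zero]
  · intro x d hd
    have h1 := hN.orth (M x) d hd
    have h2 := hM.der (N x) d
    have h3 := hN.orth x d hd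
    have h4 := hN.orth x (M d) (hMd d hd)
    rw [h3, map_zero, zero_smul, h4, add_zero] at h2
    rw [LinearMap.sub_apply, LinearMap.comp_apply, LinearMap.comp_apply, map_sub,
      LinearMap.sub_apply, h1, h2, sub_zero]
  · intro x y'
    have e1 := hN.der (M x) y'
    have e2 := hN.der x (M y')
    have e3 := hM.der (N x) y'
    have e4 := hM.der x (N y')
    have e5 := hM.der x y'
    have e6 := hN.der x y'
    have s1 : φ (b (M x) y') + φ (b x (M y')) = 0 := by
      rw [← map_add, e5, map_smul, hy, smul_zero]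
    have s2 : ψ (b (N x) y') + ψ (b x (N y')) = φ (b x y') * ψ x₀ := by
      rw [← map_add, e6, map_smul, smul_eq_mul]
    simp only [LinearMap.sub_apply, LinearMap.comp_apply, map_sub]
    calc b (N (M x)) y' - b (M (N x)) y' + (b x (N (M y')) - b x (M (N y')))
        = ((b (N (M x)) y' + b (M x) (N y')) + (b (N x) (M y') + b x (N (M y')))) -
          ((b (M (N x)) y' + b (N x) (M y')) + (b (M x) (N y') + b x (M (N y')))) := by abel
      _ = (φ (b (M x) y') + φ (b x (M y'))) • x₀ - (ψ (b (N x) y') + ψ (b x (N y'))) • y := by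
          rw [e1, e2, e3, e4, add_smul, add_smul]
      _ = φ (b x y') • -(ψ x₀ • y) := by
          rw [s1, s2, zero_smul, zero_sub, mul_smul, smul_neg]

end FPY
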