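import Pool.Agent.FPY.M1
import Pool.Agent.FPY.L2

set_option autoImplicit false

namespace FPY

variable {p : ℕ} {V W : Type} [AddCommGroup V] [Module (ZMod p) V] [AddCommGroup W]
  [Module (ZMod p) W] {b : V →ₗ[ZMod p] V →ₗ[ZMod p] W}

/-- PROOF. `φ` applied to `hN.der x y`, `φ (b x y) ≠ 0`: `φ (b (N x) y) = 0` as `N x ∈ Rad b φ`, and
`φ (b x (N y)) = - φ (b (N y) x) = 0` (`anti`). -/
theorem der_phi (hp : p.Prime) (halt : ∀ x, b x x = 0) {φ : W →ₗ[ZMod p] ZMod p} (hφ : NZ b φ)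
    {N : V →ₗ[ZMod p] V} {u : W} (hN : Der b φ N u) : φ u = 0 := by
  have := Fact.mk hp
  obtain ⟨x, y, hxy⟩ := hφ
  have h1 := congrArg φ (hN.der x y)
  have h2 : φ (b (N x) y) = 0 := mem_Rad.1 (hN.mem x) y
  have h3 : φ (b x (N y)) = 0 := by
    rw [anti halt x (N y), map_neg, mem_Rad.1 (hN.mem y) x, neg_zero]
  rw [map_add, h2, h3, add_zero, map_smul, smul_eq_mul] at h1
  exact (mul_eq_zero.1 h1.symm).resolve_left hxy

/-- PROOF. Suppose `φ y = 0` for all `y ∈ Xs b ψ`.  Let `N` be the derivation with `Der b φ N x₀`.  For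
`y ∈ Xs b ψ`, `Der b ψ M y`, `der_comm` gives `-(ψ x₀ • y) ∈ Xs b φ`, so `y ∈ Xs b φ` (`ψ x₀ ≠ 0`).
So `Xs b ψ ≤ Xs b φ`, and the orders are equal by `hm.le`, so `Xs b ψ = Xs b φ ∋ x₀`; but `ψ` vanishes on
`Xs b ψ` (`der_phi`): contradiction to `ψ x₀ ≠ 0`. -/
theorem exists_y (h : Hyp2 p b) {φ ψ : W →ₗ[ZMod p] ZMod p} (hm : Min b φ) (hψ : NZ b ψ) {x₀ : W}
    (hx : x₀ ∈ Xs b φ) (hψx : ψ x₀ ≠ 0) : ∃ y ∈ Xs b ψ, φ y ≠ 0 := by
  have := Fact.mk h.prime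
  have := h.finW
  by_contra hcon
  push Not at hcon
  obtain ⟨N, hN⟩ := hx
  have hle : (Xs b ψ : Submodule (ZMod p) W) ≤ Xs b φ := by
    rintro y ⟨M, hM⟩
    have h1 : -(ψ x₀ • y) ∈ Xs b φ := ⟨_, der_comm hN hM (hcon y ⟨M, hM⟩)⟩
    have h2 : y = (-(ψ x₀)⁻¹) • (-(ψ x₀ • y)) := by
      rw [smul_neg, neg_smul, neg_neg, smul_smul, inv_mul_cancel₀ hψx, one_smul]
    rw [h2]
    exact (Xs b φ).smul_mem _ h1
  have heq : Xs b ψ = Xs b φ := by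
    refine SetLike.coe_injective ?_
    refine Set.eq_of_subset_of_ncard_le (fun y hy => hle hy) ?_ (Set.toFinite _)
    have := hm.le ψ hψ
    rwa [← Nat.card_coe_set_eq, ← Nat.card_coe_set_eq]
  have hx' : x₀ ∈ Xs b ψ := by
    rw [heq]
    exact ⟨N, hN⟩
  obtain ⟨M, hM⟩ := hx'
  exact hψx (der_phi h.prime h.alt hψ hM)

/-- PROOF. `exists_max` for `U = ⊥`, `h.hB`. -/
theorem exists_tb (h : Hyp2 p b) {φ : W →ₗ[ZMod p] ZMod p} (hφ : NZ b φ) :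
    ∃ A N u, TB b φ A N u := by
  have := h.finV
  obtain ⟨A, -, hA⟩ := exists_max h.alt φ ⊥ (fun u hu v _ => by
    rw [(Submodule.mem_bot (ZMod p)).1 hu, map_zero, LinearMap.zero_apply, map_zero])
  obtain ⟨N, u, hT⟩ := h.hB φ hφ A hA
  exact ⟨A, N, u, hT⟩

end FPY
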