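import Pool.Agent.FPY.M2

set_option autoImplicit false

namespace FPY

variable {p : ℕ} {V W : Type} [AddCommGroup V] [Module (ZMod p) V] [AddCommGroup W]
  [Module (ZMod p) W] {b : V →ₗ[ZMod p] V →ₗ[ZMod p] W}

/-- PROOF (symmetric formula). `φ` applied to `hM.der d v`: `φ (b (M d) v) + φ (b d (M v)) = ψ (b d v) φ(y)` and
`φ (b d (M v)) = 0` as `d ∈ Rad b φ`. -/
theorem der_rad {φ ψ : W →ₗ[ZMod p] ZMod p} {M : V →ₗ[ZMod p] V} {y : W} (hM : Der b ψ M y)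
    {d : V} (hd : d ∈ Rad b φ) (v : V) : φ (b (M d) v) = φ y * ψ (b d v) := by
  have h1 := congrArg φ (hM.der d v)
  rw [map_add, map_smul, smul_eq_mul, hd (M v), add_zero] at h1
  rw [h1, mul_comm]

/-- The radical of a minimal form is abelian.  PROOF. Suppose `w = b d d' ≠ 0`.  `exists_tb` for `φ`: `u ≠ 0` in
`Xs b φ`.  `two_functionals`: `ψ w ≠ 0`, `ψ u ≠ 0`.  `NZ b ψ`.  `exists_y`: `Der b ψ M y`, `φ y ≠ 0`.
`der_rad` with `v = d'`: `φ (b (M d) d') = φ y * ψ w ≠ 0`, but `d' ∈ Rad b φ` (`anti`): contradiction. -/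
theorem rad_abelian (h : Hyp2 p b) {φ : W →ₗ[ZMod p] ZMod p} (hm : Min b φ) :
    ∀ d ∈ Rad b φ, ∀ d' ∈ Rad b φ, b d d' = 0 := by
  intro d hd d' hd'
  by_contra hw
  obtain ⟨A, N, u, hT⟩ := exists_tb h hm.nz
  have hu : u ∈ Xs b φ := ⟨N, hT.der⟩
  obtain ⟨ψ, hψw, hψu⟩ := two_functionals h.prime (b d d') u hw hT.ne
  have hψ : NZ b ψ := ⟨d, d', hψw⟩
  obtain ⟨y, ⟨M, hM⟩, hφy⟩ := exists_y h hm hψ hu hψu
  have h1 := der_rad hM hd d'
  have : Fact p.Prime := ⟨h.prime⟩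
  have h2 : φ (b (M d) d') = 0 := by
    rw [anti h.alt, map_neg, hd' (M d), neg_zero]
  rw [h2] at h1
  exact mul_ne_zero hφy hψw h1.symm

end FPY
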