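import Pool.Agent.FPY.M3

set_option autoImplicit false

namespace FPY

variable {p : ℕ} {V W : Type} [AddCommGroup V] [Module (ZMod p) V] [AddCommGroup W]
  [Module (ZMod p) W] {b : V →ₗ[ZMod p] V →ₗ[ZMod p] W}

/-- PROOF. Let `Der b ψ M y` with `φ y ≠ 0` (`exists_y`).  `s, t : ZMod p`, `t φ(y) = 1`, `s ψ(x₀) = -1`.
`γ₁ w = w + s φ(w) x₀`, `γ₂ w = w + t ψ(w) y`, `g₁ v = v + s N v`, `g₂ v = v + t M v`.
`b (g₁ v) (g₁ v') = γ₁ (b v v')`: `b (N v) (N v') = 0` (`hN.orth`, `N v' ∈ Rad b φ`), and `hN.der`; likewise for `g₂, γ₂`.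
`φ (γ₂ (γ₁ w)) = ψ w`: `φ (γ₂ w) = φ w + ψ w`, and `(φ + ψ)(γ₁ w) = φ w + ψ w + s φ(w) ψ(x₀) = ψ w`
(`φ x₀ = 0`, `der_phi`).
`g = g₂ g₁` is bijective: `N (N v) = 0` (`N v ∈ Rad b φ`, `hN.zero`), so `g₁` has the inverse `v ↦ v - s N v`.
`γ = γ₂ γ₁` is injective: `w + s φ(w) x₀ = 0` gives `φ w = 0` (apply `φ`), `w = 0`.
So `e ∈ Rad b ψ ↔ g e ∈ Rad b φ` (`φ (b (g e) (g v)) = φ (γ (b e v)) = ψ (b e v)`, `g` surjective), and `g` restricts
to a linear bijection `Rad b ψ → Rad b φ`.  For `e, e' ∈ Rad b ψ`: `γ (b e e') = b (g e) (g e') = 0` (`rad_abelian`), so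
`b e e' = 0`. -/
theorem orbit (h : Hyp2 p b) {φ ψ : W →ₗ[ZMod p] ZMod p} (hm : Min b φ) (hψ : NZ b ψ)
    {N : V →ₗ[ZMod p] V} {x₀ : W} (hN : Der b φ N x₀) (hψx : ψ x₀ ≠ 0) :
    (∀ e ∈ Rad b ψ, ∀ e' ∈ Rad b ψ, b e e' = 0) ∧
      Module.finrank (ZMod p) (Rad b ψ) = Module.finrank (ZMod p) (Rad b φ) := by
  have : Fact p.Prime := ⟨h.prime⟩
  have := h.finV
  obtain ⟨y, ⟨M, hM⟩, hφy⟩ := exists_y h hm hψ ⟨N, hN⟩ hψx
  have hφx : φ x₀ = 0 := der_phi h.prime h.alt hm.nz hN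
  have hψy : ψ y = 0 := der_phi h.prime h.alt hψ hM
  obtain ⟨s, hs⟩ : ∃ s : ZMod p, s * ψ x₀ = -1 := ⟨-(ψ x₀)⁻¹, by
    rw [neg_mul, inv_mul_cancel₀ hψx]⟩
  obtain ⟨t, ht⟩ : ∃ t : ZMod p, t * φ y = 1 := ⟨(φ y)⁻¹, inv_mul_cancel₀ hφy⟩
  -- the two transvection pairs
  obtain ⟨g₁, hg₁⟩ : ∃ g : V →ₗ[ZMod p] V, ∀ v, g v = v + s • N v :=
    ⟨LinearMap.id + s • N, fun v => rfl⟩
  obtain ⟨g₂, hg₂⟩ : ∃ g : V →ₗ[ZMod p] V, ∀ v, g v = v + t • M v :=
    ⟨LinearMap.id + t • M, fun v => rfl⟩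
  obtain ⟨γ₁, hγ₁⟩ : ∃ γ : W →ₗ[ZMod p] W, ∀ w, γ w = w + s • φ w • x₀ :=
    ⟨LinearMap.id + s • φ.smulRight x₀, fun v => rfl⟩
  obtain ⟨γ₂, hγ₂⟩ : ∃ γ : W →ₗ[ZMod p] W, ∀ w, γ w = w + t • ψ w • y :=
    ⟨LinearMap.id + t • ψ.smulRight y, fun v => rfl⟩
  have k1 : ∀ v v', b (g₁ v) (g₁ v') = γ₁ (b v v') := by
    intro v v'
    have h1 := hN.der v v'
    have h2 := hN.orth v (N v') (hN.mem v')
    rw [hg₁, hg₁, hγ₁, ← h1]
    simp only [map_add, map_smul, LinearMap.add_apply, LinearMap.smul_apply, h2, smul_zero,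
      add_zero, smul_add]
    abel
  have k2 : ∀ v v', b (g₂ v) (g₂ v') = γ₂ (b v v') := by
    intro v v'
    have h1 := hM.der v v'
    have h2 := hM.orth v (M v') (hM.mem v')
    rw [hg₂, hg₂, hγ₂, ← h1]
    simp only [map_add, map_smul, LinearMap.add_apply, LinearMap.smul_apply, h2, smul_zero,
      add_zero, smul_add]
    abel
  have k : ∀ v v', b (g₂ (g₁ v)) (g₂ (g₁ v')) = γ₂ (γ₁ (b v v')) := by
    intro v v'
    rw [k2, k1]
  have hfg : ∀ w, φ (γ₂ (γ₁ w)) = ψ w := by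
    intro w
    rw [hγ₂ (γ₁ w), map_add, map_smul, map_smul, hγ₁ w]
    simp only [map_add, map_smul, smul_eq_mul, hφx, mul_zero, add_zero]
    linear_combination (ψ w + s * (φ w * ψ x₀)) * ht + φ w * hs
  have i1 : Function.Injective g₁ := by
    rw [injective_iff_map_eq_zero]
    intro v hv
    rw [hg₁] at hv
    have h3 : N v = 0 := by
      have h4 := congrArg N hv
      rw [map_add, map_smul, hN.zero _ (hN.mem v), smul_zero, add_zero, map_zero] at h4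
      exact h4
    rw [h3, smul_zero, add_zero] at hv
    exact hv
  have i2 : Function.Injective g₂ := by
    rw [injective_iff_map_eq_zero]
    intro v hv
    rw [hg₂] at hv
    have h3 : M v = 0 := by
      have h4 := congrArg M hv
      rw [map_add, map_smul, hM.zero _ (hM.mem v), smul_zero, add_zero, map_zero] at h4
      exact h4
    rw [h3, smul_zero, add_zero] at hv
    exact hv
  have j1 : ∀ w, γ₁ w = 0 → w = 0 := by
    intro w hw
    rw [hγ₁] at hw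
    have h3 : φ w = 0 := by
      have h4 := congrArg φ hw
      rw [map_add, map_smul, map_smul, hφx, smul_zero, smul_zero, add_zero, map_zero] at h4
      exact h4
    rw [h3, zero_smul, smul_zero, add_zero] at hw
    exact hw
  have j2 : ∀ w, γ₂ w = 0 → w = 0 := by
    intro w hw
    rw [hγ₂] at hw
    have h3 : ψ w = 0 := by
      have h4 := congrArg ψ hw
      rw [map_add, map_smul, map_smul, hψy, smul_zero, smul_zero, add_zero, map_zero] at h4
      exact h4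
    rw [h3, zero_smul, smul_zero, add_zero] at hw
    exact hw
  have ig : Function.Injective (g₂ ∘ₗ g₁) := by
    rw [LinearMap.coe_comp]
    exact i2.comp i1
  have sg : Function.Surjective (g₂ ∘ₗ g₁) := Finite.surjective_of_injective ig
  have hmem : ∀ e, e ∈ Rad b ψ ↔ g₂ (g₁ e) ∈ Rad b φ := by
    intro e
    rw [mem_Rad, mem_Rad]
    constructor
    · intro he z
      obtain ⟨v, rfl⟩ := sg z
      rw [LinearMap.comp_apply, k, hfg]
      exact he v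
    · intro he v
      rw [← hfg, ← k]
      exact he _
  refine ⟨fun e he e' he' => ?_, ?_⟩
  · have h5 := rad_abelian h hm _ ((hmem e).1 he) _ ((hmem e').1 he')
    rw [k] at h5
    exact j1 _ (j2 _ h5)
  · have h6 : (Rad b ψ).map (g₂ ∘ₗ g₁) = Rad b φ := by
      ext z
      rw [Submodule.mem_map]
      constructor
      · rintro ⟨e, he, rfl⟩
        exact (hmem e).1 he
      · intro hz
        obtain ⟨v, rfl⟩ := sg z
        exact ⟨v, (hmem v).2 hz, rfl⟩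
    rw [← h6]
    exact (Submodule.equivMapOfInjective _ ig (Rad b ψ)).finrank_eq

end FPY
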