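import Pool.Agent.FPY.M3

set_option autoImplicit false

namespace FPY

variable {p : ℕ} {V W : Type} [AddCommGroup V] [Module (ZMod p) V] [AddCommGroup W]
  [Module (ZMod p) W] {b : V →ₗ[ZMod p] V →ₗ[ZMod p] W}

/-- PROOF. For `d ∈ Rad b φ`: `φ y * ψ (b d v) = φ (b (M d) v) = - φ (b v (M d)) = 0` (`der_rad`, `M d ∈ Rad b ψ`,
`hv`), so `ψ (b d v) = 0`.  `ψ` applied to `hN.der v v'`: `ψ (b (N v) v') + ψ (b v (N v')) = φ (b v v') ψ(x₀)`, and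
`ψ (b v (N v')) = 0` by the previous line (`N v' ∈ Rad b φ`, `anti`).  So with `d = N v ∈ Rad b φ`:
`ψ (b d v') = ψ(x₀) φ (b v v')`, and `φ (b (M d) v') = φ y ψ(x₀) φ (b v v')` (`der_rad`).  So
`v - (φ y ψ x₀)⁻¹ • M (N v) ∈ Rad b φ`, and `M (N v) ∈ Rad b ψ`. -/
theorem perp (hp : p.Prime) (halt : ∀ x, b x x = 0) {φ ψ : W →ₗ[ZMod p] ZMod p}
    {N M : V →ₗ[ZMod p] V} {x₀ y : W} (hN : Der b φ N x₀) (hM : Der b ψ M y) (hψ : ψ x₀ ≠ 0)
    (hφ : φ y ≠ 0) (v : V) (hv : ∀ e ∈ Rad b ψ, φ (b v e) = 0) :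
    ∃ d ∈ Rad b φ, ∃ e ∈ Rad b ψ, v = d + e := by
  have hpf : Fact p.Prime := ⟨hp⟩
  have h1 : ∀ d ∈ Rad b φ, ψ (b d v) = 0 := by
    intro d hd
    have h2 := der_rad hM hd v
    rw [anti halt (M d) v, map_neg, hv (M d) (hM.mem d), neg_zero] at h2
    exact (mul_eq_zero.1 h2.symm).resolve_left hφ
  have h2 : ∀ v', ψ (b (N v) v') = φ (b v v') * ψ x₀ := by
    intro v'
    have h3 := congrArg ψ (hN.der v v')
    rw [map_add, map_smul, smul_eq_mul, anti halt v (N v'), map_neg, h1 (N v') (hN.mem v'),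
      neg_zero, add_zero] at h3
    exact h3
  have h3 : ∀ v', φ (b (M (N v)) v') = φ y * (φ (b v v') * ψ x₀) := by
    intro v'
    rw [der_rad hM (hN.mem v) v', h2 v']
  refine ⟨v - (φ y * ψ x₀)⁻¹ • M (N v), ?_, (φ y * ψ x₀)⁻¹ • M (N v),
    (Rad b ψ).smul_mem _ (hM.mem _), (sub_add_cancel _ _).symm⟩
  intro v'
  rw [map_sub, map_smul, LinearMap.sub_apply, LinearMap.smul_apply, map_sub, map_smul, h3 v',
    smul_eq_mul]
  field_simp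
  ring

end FPY
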