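import Pool.Agent.FPY.M3

set_option autoImplicit false

namespace FPY

variable {p : ℕ} {V W : Type} [AddCommGroup V] [Module (ZMod p) V] [AddCommGroup W]
  [Module (ZMod p) W] {b : V →ₗ[ZMod p] V →ₗ[ZMod p] W}

/-- PROOF. Let `Y = {y | ∃ χ, ∀ v, φ (b y v) = χ (b k v)}`, a submodule.  Suppose the claim is false: the form
of `φ` vanishes on `Y`.  `exists_max`: `Y ≤ A`, `MaxI b φ A`; `h.hB`: `TB b φ A N u`; `u ∈ Xs b φ`.
`b k ≠ 0`: `w = b k v₀ ≠ 0` (`nondeg`).  `two_functionals`: `χ u ≠ 0`, `χ w ≠ 0`.  `exists_y` for `χ`: `Der b χ M y`,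
`φ y ≠ 0`.  `der_rad` (`k ∈ Rad b φ`): `φ (b (M k) v) = φ y * χ (b k v)`, so `M k ∈ Y ≤ A`.  `TB.act` for `a = M k`:
`b (M k) (N v) = φ (b (M k) v) • u`; apply `χ`: the left side is `0` (`M k ∈ Rad b χ`), the right side at `v = v₀` is
`φ y * χ w * χ u ≠ 0`: contradiction. -/
theorem not_iso (h : Hyp2 p b) {φ : W →ₗ[ZMod p] ZMod p} (hm : Min b φ) {k : V}
    (hk : k ∈ Rad b φ) (hk0 : k ≠ 0) :
    ∃ (y y' : V) (χ χ' : W →ₗ[ZMod p] ZMod p), (∀ v, φ (b y v) = χ (b k v)) ∧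
      (∀ v, φ (b y' v) = χ' (b k v)) ∧ φ (b y y') ≠ 0 := by
  have hp : Fact p.Prime := ⟨h.prime⟩
  have hfin := h.finV
  by_contra hcon
  push Not at hcon
  let Y : Submodule (ZMod p) V :=
    { carrier := {y | ∃ χ : W →ₗ[ZMod p] ZMod p, ∀ v, φ (b y v) = χ (b k v)}
      add_mem' := by
        rintro y y' ⟨χ, hχ⟩ ⟨χ', hχ'⟩
        refine ⟨χ + χ', fun v => ?_⟩
        rw [map_add, LinearMap.add_apply, map_add, hχ, hχ', LinearMap.add_apply]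
      zero_mem' := ⟨0, fun v => by simp⟩
      smul_mem' := by
        rintro c y ⟨χ, hχ⟩
        refine ⟨c • χ, fun v => ?_⟩
        rw [map_smul, LinearMap.smul_apply, map_smul, hχ, LinearMap.smul_apply] }
  obtain ⟨A, hYA, hA⟩ := exists_max h.alt φ Y (by
    rintro y ⟨χ, hχ⟩ y' ⟨χ', hχ'⟩
    exact hcon y y' χ χ' hχ hχ')
  obtain ⟨N, u, hT⟩ := h.hB φ hm.nz A hA
  obtain ⟨v₀, hv₀⟩ : ∃ v₀, b k v₀ ≠ 0 := by
    by_contra hc
    push Not at hc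
    exact hk0 (h.nondeg k hc)
  obtain ⟨χ, hχw, hχu⟩ := two_functionals h.prime (b k v₀) u hv₀ hT.ne
  have hNZ : NZ b χ := ⟨k, v₀, hχw⟩
  obtain ⟨y, ⟨M, hM⟩, hy⟩ := exists_y h hm hNZ (x₀ := u) ⟨N, hT.der⟩ hχu
  have hMk : M k ∈ Y := ⟨φ y • χ, fun v => by
    rw [der_rad hM hk v, LinearMap.smul_apply, smul_eq_mul]⟩
  have h1 := hT.act (M k) (hYA hMk) v₀
  have h2 := congrArg χ h1
  rw [hM.mem k (N v₀), map_smul, smul_eq_mul, der_rad hM hk v₀] at h2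
  exact mul_ne_zero (mul_ne_zero hy hχw) hχu h2.symm

end FPY
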