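import Pool.Agent.FPY.M4
import Pool.Agent.FPY.M5
import Pool.Agent.FPY.M6

set_option autoImplicit false

namespace FPY

variable {p : ℕ} {V W : Type} [AddCommGroup V] [Module (ZMod p) V] [AddCommGroup W]
  [Module (ZMod p) W] {b : V →ₗ[ZMod p] V →ₗ[ZMod p] W}

/-- PROOF. Suppose `k ≠ 0`; `not_iso`: `y, y', χ, χ'`.  `exists_y`: `Der b ψ M y₁`, `φ y₁ ≠ 0`.  For `e ∈ Rad b ψ`:
`b k e = 0` (`orbit`), so `φ (b y e) = χ (b k e) = 0`; `perp`: `y = d + e`, `d ∈ Rad b φ`, `e ∈ Rad b ψ`.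
`φ (b y y') = φ (b e y') = - φ (b y' e) = - χ' (b k e) = 0`: contradiction. -/
theorem disj (h : Hyp2 p b) {φ ψ : W →ₗ[ZMod p] ZMod p} (hm : Min b φ) (hψ : NZ b ψ)
    {N : V →ₗ[ZMod p] V} {x₀ : W} (hN : Der b φ N x₀) (hψx : ψ x₀ ≠ 0) (k : V)
    (hk : k ∈ Rad b φ) (hk' : k ∈ Rad b ψ) : k = 0 := by
  by_contra hk0
  obtain ⟨y, y', χ, χ', hy, hy', hyy⟩ := not_iso h hm hk hk0
  have hx : x₀ ∈ Xs b φ := ⟨N, hN⟩
  obtain ⟨y₁, ⟨M, hM⟩, hφy⟩ := exists_y h hm hψ hx hψx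
  have ho := (orbit h hm hψ hN hψx).1
  have h1 : ∀ e ∈ Rad b ψ, φ (b y e) = 0 := fun e he => by
    rw [hy e, ho k hk' e he, map_zero]
  obtain ⟨d, hd, e, he, hde⟩ := perp h.prime h.alt hN hM hψx hφy y h1
  apply hyy
  rw [hde, map_add, LinearMap.add_apply, map_add, hd y', zero_add, anti h.alt, map_neg, hy' e,
    ho k hk' e he, map_zero, neg_zero]

end FPY
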