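import Pool.Agent.FPY.M7
import Pool.Agent.FPY.L6

set_option autoImplicit false

namespace FPY

variable {p : ℕ} {V W : Type} [AddCommGroup V] [Module (ZMod p) V] [AddCommGroup W]
  [Module (ZMod p) W] {b : V →ₗ[ZMod p] V →ₗ[ZMod p] W}

/-- PROOF. `exists_tb` for `φ`: `N, u` with `Der b φ N u`, `u ≠ 0`; `NZ b φ` gives `w = b x y ≠ 0`;
`two_functionals`: `ψ u ≠ 0`, `ψ w ≠ 0`.  `S = Rad b φ ⊔ Rad b ψ` is `MaxI b φ`: it is isotropic because
`φ (b (d + e) (d' + e')) = φ (b e e') = 0` (`orbit`; `d, d'` are in the radical), and if `φ (b s v) = 0` for all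
`s ∈ S` then `v ∈ S` (`perp`, `exists_y`).  `finrank S = finrank (Rad b φ) + finrank (Rad b ψ)` (`disj`,
`Submodule.finrank_sup_add_finrank_inf_eq`) `= 2 finrank (Rad b φ)` (`orbit`).  `dim_max`. -/
theorem dim_three (h : Hyp2 p b) {φ : W →ₗ[ZMod p] ZMod p} (hm : Min b φ) :
    Module.finrank (ZMod p) V = 3 * Module.finrank (ZMod p) (Rad b φ) := by
  have hpf : Fact p.Prime := ⟨h.prime⟩
  have hfV : Finite V := h.finV
  obtain ⟨A, N, u, ht⟩ := exists_tb h hm.nz
  obtain ⟨x, y, hxy⟩ := hm.nz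
  have hw : b x y ≠ 0 := fun h0 => hxy (by rw [h0, map_zero])
  obtain ⟨ψ, hψu, hψw⟩ := two_functionals h.prime u (b x y) ht.ne hw
  have hψ : NZ b ψ := ⟨x, y, hψw⟩
  obtain ⟨y₁, ⟨M, hM⟩, hφy⟩ := exists_y h hm hψ ⟨N, ht.der⟩ hψu
  obtain ⟨hiso, hfin⟩ := orbit h hm hψ ht.der hψu
  have hS : MaxI b φ (Rad b φ ⊔ Rad b ψ) := by
    intro v
    constructor
    · intro hv a ha
      obtain ⟨d, hd, e, he, rfl⟩ := Submodule.mem_sup.1 hv
      obtain ⟨d', hd', e', he', rfl⟩ := Submodule.mem_sup.1 ha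
      have h1 : φ (b d' (d + e)) = 0 := hd' _
      have h2 : φ (b e' d) = 0 := by rw [anti h.alt e' d, map_neg, hd e', neg_zero]
      have h3 : φ (b e' e) = 0 := by rw [hiso e' he' e he, map_zero]
      rw [map_add b d' e', LinearMap.add_apply, map_add φ, h1, map_add (b e'), map_add φ, h2, h3]
      simp
    · intro hv
      have hv' : ∀ e ∈ Rad b ψ, φ (b v e) = 0 := by
        intro e he
        rw [anti h.alt v e, map_neg, hv e (Submodule.mem_sup_right he), neg_zero]
      obtain ⟨d, hd, e, he, rfl⟩ := perp h.prime h.alt ht.der hM hψu hφy v hv'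
      exact Submodule.add_mem_sup hd he
  have hinf : Rad b φ ⊓ Rad b ψ = ⊥ := by
    rw [eq_bot_iff]
    intro k hk
    rw [Submodule.mem_bot]
    exact disj h hm hψ ht.der hψu k (Submodule.mem_inf.1 hk).1 (Submodule.mem_inf.1 hk).2
  have h1 := Submodule.finrank_sup_add_finrank_inf_eq (Rad b φ) (Rad b ψ)
  rw [hinf, finrank_bot, hfin] at h1
  have h2 := dim_max h.prime h.alt φ _ hS
  omega

/-- PROOF. `ker N = A` (`TB.ker`; `N a = 0` for `a ∈ A`: `b (N a) y = φ (b a y) • u - b a (N y) = 0` by `der` and `act`,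
`nondeg`).  `finrank (range N) = finrank V - finrank A = finrank (Rad b φ)` by `dim_three` and `dim_max`, and
`range N ≤ Rad b φ` (`der.mem`), so they are equal. -/
theorem surj_N (h : Hyp2 p b) {φ : W →ₗ[ZMod p] ZMod p} (hm : Min b φ) {A : Submodule (ZMod p) V}
    {N : V →ₗ[ZMod p] V} {u : W} (ht : TB b φ A N u) : ∀ d ∈ Rad b φ, ∃ v, N v = d := by
  have hpf : Fact p.Prime := ⟨h.prime⟩
  have hfV : Finite V := h.finV
  have hker : LinearMap.ker N = A := by
    apply le_antisymm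
    · intro x hx
      exact ht.ker x (LinearMap.mem_ker.1 hx)
    · intro a ha
      rw [LinearMap.mem_ker]
      apply h.nondeg
      intro y
      have h1 := ht.der.der a y
      rw [ht.act a ha y] at h1
      exact add_eq_right.1 h1
  have h1 := LinearMap.finrank_range_add_finrank_ker N
  rw [hker] at h1
  have h2 := dim_max h.prime h.alt φ A ht.max
  have h3 := dim_three h hm
  have h4 : Module.finrank (ZMod p) (LinearMap.range N) =
      Module.finrank (ZMod p) (Rad b φ) := by omega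
  have h5 : LinearMap.range N ≤ Rad b φ := by
    rintro _ ⟨x, rfl⟩
    exact ht.der.mem x
  have h6 : LinearMap.range N = Rad b φ := Submodule.eq_of_le_of_finrank_eq h5 h4
  intro d hd
  rw [← h6] at hd
  exact hd

end FPY
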