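import Pool.Agent.FPY.M8

set_option autoImplicit false

namespace FPY

variable {p : ℕ} {V W : Type} [AddCommGroup V] [Module (ZMod p) V] [AddCommGroup W]
  [Module (ZMod p) W] {b : V →ₗ[ZMod p] V →ₗ[ZMod p] W}

/-- PROOF. `b a d = b a (N v) = φ (b a v) • u` (`surj_N`, `TB.act`).  `a ∉ Rad b φ`: some `φ (b a v) ≠ 0`, and `d = N v'`
with `v' = (φ (b a v))⁻¹ • v`. -/
theorem line (h : Hyp2 p b) {φ : W →ₗ[ZMod p] ZMod p} (hm : Min b φ) {A : Submodule (ZMod p) V}
    {N : V →ₗ[ZMod p] V} {u : W} (ht : TB b φ A N u) (a : V) (ha : a ∈ A) (har : a ∉ Rad b φ) :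
    (∀ d ∈ Rad b φ, ∃ c : ZMod p, b a d = c • u) ∧ ∃ d ∈ Rad b φ, b a d = u := by
  haveI : Fact p.Prime := ⟨h.prime⟩
  constructor
  · intro d hd
    obtain ⟨v, hv⟩ := surj_N h hm ht d hd
    exact ⟨φ (b a v), by rw [← hv, ht.act a ha v]⟩
  · rw [mem_Rad] at har
    push Not at har
    obtain ⟨v, hv⟩ := har
    refine ⟨N ((φ (b a v))⁻¹ • v), ht.der.mem _, ?_⟩
    rw [ht.act a ha, map_smul, map_smul, smul_eq_mul, inv_mul_cancel₀ hv, one_smul]

/-- If `a, a'` are not in the radical and `φ (b a a') = 0` then the lines `b(a, Rad)` and `b(a', Rad)` are equal.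
PROOF. `exists_max` for `span {a, a'}`, `h.hB`, `line`. -/
theorem line_eq (h : Hyp2 p b) {φ : W →ₗ[ZMod p] ZMod p} (hm : Min b φ) (a a' : V)
    (ha : a ∉ Rad b φ) (ha' : a' ∉ Rad b φ) (haa : φ (b a a') = 0) :
    ∃ u, u ≠ 0 ∧ (∀ d ∈ Rad b φ, ∃ c : ZMod p, b a d = c • u) ∧
      (∀ d ∈ Rad b φ, ∃ c : ZMod p, b a' d = c • u) ∧ (∃ d ∈ Rad b φ, b a d = u) ∧
      ∃ d ∈ Rad b φ, b a' d = u := by
  haveI : Fact p.Prime := ⟨h.prime⟩
  haveI := h.finV
  have hanti : φ (b a' a) = 0 := by rw [anti h.alt a' a, map_neg, haa, neg_zero]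
  obtain ⟨A, hUA, hA⟩ := exists_max h.alt φ (Submodule.span (ZMod p) {a, a'}) (by
    intro u hu v hv
    obtain ⟨s, t, rfl⟩ := Submodule.mem_span_pair.1 hu
    obtain ⟨s', t', rfl⟩ := Submodule.mem_span_pair.1 hv
    simp only [map_add, map_smul, LinearMap.add_apply, LinearMap.smul_apply, h.alt, haa, hanti,
      smul_zero, add_zero, map_zero])
  obtain ⟨N, u, ht⟩ := h.hB φ hm.nz A hA
  have haA : a ∈ A := hUA (Submodule.subset_span (by simp))
  have ha'A : a' ∈ A := hUA (Submodule.subset_span (by simp))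
  obtain ⟨h1, h2⟩ := line h hm ht a haA ha
  obtain ⟨h3, h4⟩ := line h hm ht a' ha'A ha'
  exact ⟨u, ht.ne, h1, h3, h2, h4⟩

/-- PROOF. `finrank V = 3 r`, `r = finrank (Rad b φ) ≥ 2`.  The space `{v | φ (b a v) = 0 ∧ φ (b a' v) = 0}` has
dimension at least `3 r - 2 > r` (kernel of a linear map to `ZMod p × ZMod p`), so it is not contained in
`Rad b φ`. -/
theorem exists_third (h : Hyp2 p b) {φ : W →ₗ[ZMod p] ZMod p} (hm : Min b φ)
    (hr : 2 ≤ Module.finrank (ZMod p) (Rad b φ)) (a a' : V) :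
    ∃ v, v ∉ Rad b φ ∧ φ (b a v) = 0 ∧ φ (b a' v) = 0 := by
  haveI : Fact p.Prime := ⟨h.prime⟩
  haveI := h.finV
  haveI : Module.Finite (ZMod p) V := Module.Finite.of_finite
  by_contra hcon
  push Not at hcon
  let T : V →ₗ[ZMod p] ZMod p × ZMod p := (φ ∘ₗ b a).prod (φ ∘ₗ b a')
  have hle : LinearMap.ker T ≤ Rad b φ := by
    intro v hv
    by_contra hvr
    have hT : T v = 0 := hv
    have h1 : φ (b a v) = 0 := congrArg Prod.fst hT
    have h2 : φ (b a' v) = 0 := congrArg Prod.snd hT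
    exact hcon v hvr h1 h2
  have hrk := LinearMap.finrank_range_add_finrank_ker T
  have hr2 : Module.finrank (ZMod p) (LinearMap.range T) ≤ 2 := by
    refine (Submodule.finrank_le _).trans ?_
    rw [Module.finrank_prod, Module.finrank_self]
  have hk := Submodule.finrank_mono hle
  have hd := dim_three h hm
  omega

end FPY
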