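import Pool.Agent.FPY.L3
import Pool.Agent.FPY.L4

set_option autoImplicit false

namespace FPY

variable {p : ℕ} {V W : Type} [AddCommGroup V] [Module (ZMod p) V] [AddCommGroup W]
  [Module (ZMod p) W] {b : V →ₗ[ZMod p] V →ₗ[ZMod p] W}

/-- PROOF. `φ ≠ 0`; `exists_dat` gives `N`, `u`.  If `φ u = 0`: `type_B`, `act h x`: `b h (N x) = φ (b h x) • u`, and
`b h (N x) = c • z`; applying `φ`: `c φ(z) = 0`, `c = 0`, so `φ (b h x) • u = 0`, `φ (b h x) = 0` for all `x`;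
`b h x = c' • z` then gives `c' = 0`, so `b h x = 0` for all `x`, `h = 0` (`nondeg`), contradiction.
So `φ u ≠ 0`; `type_A` gives `L`.  There is `l₀ ∈ L` with `b h l₀ ≠ 0`: otherwise, as `b h a = c • z` with
`c φ(z) = φ (b h a) = 0` for `a ∈ A`, `b h x = 0` for all `x = a + l`.  `b h l₀ = c • z = c' • u`, both
nonzero, so `u` is a multiple of `z`. -/
theorem r1a (h : Hyp p b) {v₀ : V} {z : W} (h0 : v₀ ≠ 0) (hz : ∀ x, ∃ c : ZMod p, b v₀ x = c • z)
    (φ : W →ₗ[ZMod p] ZMod p) (hφ : φ z ≠ 0) (A : Submodule (ZMod p) V) (hA : MaxI b φ A)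
    (hvA : v₀ ∈ A) :
    ∃ L : Submodule (ZMod p) V, (∀ x, ∃ a ∈ A, ∃ l ∈ L, x = a + l) ∧
      ∀ a ∈ A, ∀ l ∈ L, ∃ c : ZMod p, b a l = c • z := by
  have : Fact p.Prime := ⟨h.prime⟩
  have hφ0 : φ ≠ 0 := by
    rintro rfl
    exact hφ rfl
  obtain ⟨N, u, hD⟩ := exists_dat h φ hφ0 A hA
  by_cases hu : φ u = 0
  · exfalso
    have hTB := type_B h.prime h.odd h.alt hD hu
    apply h0
    apply h.nondeg
    intro x
    have h1 := hTB.act v₀ hvA x
    obtain ⟨c, hc⟩ := hz (N x)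
    have hc0 : c = 0 := by
      have h2 : φ (c • z) = φ (φ (b v₀ x) • u) := by rw [← hc, h1]
      rw [map_smul, map_smul, hu, smul_zero, smul_eq_mul] at h2
      rcases mul_eq_zero.1 h2 with h3 | h3
      · exact h3
      · exact absurd h3 hφ
    rw [h1, hc0, zero_smul] at hc
    have h3 : φ (b v₀ x) = 0 := by
      rcases smul_eq_zero.1 hc with h4 | h4
      · exact h4
      · exact absurd h4 hD.ne
    obtain ⟨c', hc'⟩ := hz x
    rw [hc', map_smul, smul_eq_mul] at h3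
    rcases mul_eq_zero.1 h3 with h4 | h4
    · rw [hc', h4, zero_smul]
    · exact absurd h4 hφ
  · obtain ⟨L, hL1, hL2⟩ := type_A h.prime hD hu
    have hl : ∃ l ∈ L, b v₀ l ≠ 0 := by
      by_contra hcon
      push Not at hcon
      apply h0
      apply h.nondeg
      intro x
      obtain ⟨a, ha, l, hl, rfl⟩ := hL1 x
      rw [map_add, hcon l hl, add_zero]
      obtain ⟨c, hc⟩ := hz a
      have h3 : φ (b v₀ a) = 0 := (hA a).1 ha v₀ hvA
      rw [hc, map_smul, smul_eq_mul] at h3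
      rcases mul_eq_zero.1 h3 with h4 | h4
      · rw [hc, h4, zero_smul]
      · exact absurd h4 hφ
    obtain ⟨l₀, hl₀, hne⟩ := hl
    obtain ⟨c, hc⟩ := hz l₀
    obtain ⟨c', hc'⟩ := hL2 v₀ hvA l₀ hl₀
    have hc'0 : c' ≠ 0 := by
      rintro rfl
      rw [zero_smul] at hc'
      exact hne hc'
    have huz : u = (c'⁻¹ * c) • z := by
      rw [mul_smul, ← hc, hc', smul_smul, inv_mul_cancel₀ hc'0, one_smul]
    refine ⟨L, hL1, fun a ha l hl => ?_⟩
    obtain ⟨d, hd⟩ := hL2 a ha l hl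
    exact ⟨d * (c'⁻¹ * c), by rw [hd, huz, smul_smul]⟩

end FPY
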