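import Pool.Agent.FPY.R1a
import Pool.Agent.FPY.L2
import Pool.Agent.FPY.L5

set_option autoImplicit false

namespace FPY

variable {p : ℕ} {V W : Type} [AddCommGroup V] [Module (ZMod p) V] [AddCommGroup W]
  [Module (ZMod p) W] {b : V →ₗ[ZMod p] V →ₗ[ZMod p] W}

/-- PROOF. `ψ (b x ·)` vanishes on `Rad b φ`, so there is `y` with `ψ (b x v) = φ (b y v)` for all `v`
(`rep`).  The form of `φ` vanishes on `span {v₀, x, y}`: `b v₀ x = 0`; `φ (b y v₀) = ψ (b x v₀) = 0` (`anti`);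
`φ (b y x) = ψ (b x x) = 0`.  `exists_max` gives a maximal isotropic `A` containing `v₀, x, y`, `r1a` gives
`L`.  For `l ∈ L`: `b x l = c • z`, so `φ (b y l) = ψ (b x l) = 0` (`ψ z = 0`), and `φ (b y a) = 0` for `a ∈ A`.
So `ψ (b x v) = φ (b y v) = 0` for all `v`. -/
theorem r1b (h : Hyp p b) {v₀ : V} {z : W} (h0 : v₀ ≠ 0) (hz : ∀ x, ∃ c : ZMod p, b v₀ x = c • z)
    (φ ψ : W →ₗ[ZMod p] ZMod p) (hφ : φ z ≠ 0) (hψ : ψ z = 0) (x : V) (hx : b v₀ x = 0)
    (hd : ∀ d ∈ Rad b φ, ψ (b x d) = 0) : x ∈ Rad b ψ := by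
  have := h.finV
  have halt := h.alt
  obtain ⟨y, hy⟩ := rep h.prime halt φ (ψ.comp (b x)) (fun d hd' => hd d hd')
  have hy' : ∀ v, φ (b y v) = ψ (b x v) := fun v => (hy v).symm
  -- the form vanishes on the span of `v₀, x, y`
  have e0 : b x v₀ = 0 := by rw [anti halt x v₀, hx, neg_zero]
  have e1 : φ (b y v₀) = 0 := by rw [hy', e0, map_zero]
  have e2 : φ (b y x) = 0 := by rw [hy', halt, map_zero]
  have e3 : φ (b v₀ y) = 0 := by rw [anti halt v₀ y, map_neg, e1, neg_zero]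
  have e4 : φ (b x y) = 0 := by rw [anti halt x y, map_neg, e2, neg_zero]
  have hU : ∀ u ∈ Submodule.span (ZMod p) ({v₀, x, y} : Set V),
      ∀ v ∈ Submodule.span (ZMod p) ({v₀, x, y} : Set V), φ (b u v) = 0 := by
    intro u hu v hv
    induction hu, hv using Submodule.span_induction₂ with
    | mem_mem u v hu hv =>
      simp only [Set.mem_insert_iff, Set.mem_singleton_iff] at hu hv
      rcases hu with rfl | rfl | rfl <;> rcases hv with rfl | rfl | rfl <;>
        simp [halt, hx, e0, e1, e2, e3, e4]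
    | zero_left v hv => simp
    | zero_right u hu => simp
    | add_left u u' v _ _ _ h1 h2 => rw [map_add, LinearMap.add_apply, map_add, h1, h2, add_zero]
    | add_right u v v' _ _ _ h1 h2 => rw [map_add, map_add, h1, h2, add_zero]
    | smul_left c u v _ _ h1 => rw [map_smul, LinearMap.smul_apply, map_smul, h1, smul_zero]
    | smul_right c u v _ _ h1 => rw [map_smul, map_smul, h1, smul_zero]
  obtain ⟨A, hUA, hA⟩ := exists_max halt φ _ hU
  have hv₀A : v₀ ∈ A := hUA (Submodule.subset_span (by simp))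
  have hxA : x ∈ A := hUA (Submodule.subset_span (by simp))
  have hyA : y ∈ A := hUA (Submodule.subset_span (by simp))
  obtain ⟨L, hL1, hL2⟩ := r1a h h0 hz φ hφ A hA hv₀A
  rw [mem_Rad]
  intro v
  obtain ⟨a, ha, l, hl, rfl⟩ := hL1 v
  obtain ⟨c, hc⟩ := hL2 x hxA l hl
  have h1 : ψ (b x l) = 0 := by rw [hc, map_smul, hψ, smul_zero]
  have h2 : ψ (b x a) = 0 := by rw [← hy', (hA a).1 ha y hyA]
  rw [map_add, map_add, h1, h2, add_zero]

end FPY
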