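import Pool.Agent.FPY.R1b

set_option autoImplicit false

namespace FPY

variable {p : ℕ} {V W : Type} [AddCommGroup V] [Module (ZMod p) V] [AddCommGroup W]
  [Module (ZMod p) W] {b : V →ₗ[ZMod p] V →ₗ[ZMod p] W}

/-- PROOF. Let `Y = Rad b φ ⊔ Rad b ψ` and suppose `Y ≠ ⊤`.  There is a functional `f ≠ 0` vanishing on `Y`
(`Submodule.exists_le_ker_of_lt_top`), `f = ψ (b x ·)` (`rep` for `ψ`).
Claim: `x ∈ Y`.  Otherwise there is a functional `f'` vanishing on `Y`, `f' x ≠ 0`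
(`Submodule.exists_le_ker_of_notMem`), `f' = ψ (b x' ·)` (`rep`).  `b v₀ x = c • z`, `b v₀ x' = c' • z`; `r1b` for
`c • x' - c' • x` (it is killed by `b v₀`, and `ψ (b (c • x' - c' • x) d) = 0` for `d ∈ Rad b φ ≤ Y`) gives
`c ψ (b x' v) = c' ψ (b x v)` for all `v`; for `v = x`: `c f'(x) = 0`, so `c = 0`, i.e. `b v₀ x = 0`, and `r1b` for `x`
gives `f = 0`, contradiction.
So `x = d + r`, `d ∈ Rad b φ`, `r ∈ Rad b ψ`, and `f = ψ (b d ·)`.  `b v₀ d = c • z` with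
`c φ(z) = φ (b v₀ d) = - φ (b d v₀) = 0`, so `b v₀ d = 0`; `r1b` for `d` (`ψ (b d d') = f d' = 0` for
`d' ∈ Rad b φ`) gives `f = 0`, contradiction. -/
theorem r1c (h : Hyp p b) {v₀ : V} {z : W} (h0 : v₀ ≠ 0) (hz : ∀ x, ∃ c : ZMod p, b v₀ x = c • z)
    (φ ψ : W →ₗ[ZMod p] ZMod p) (hφ : φ z ≠ 0) (hψ : ψ z = 0) (x : V) :
    ∃ d ∈ Rad b φ, ∃ r ∈ Rad b ψ, x = d + r := by
  haveI := Fact.mk h.prime
  haveI := h.finV
  haveI := h.finW
  by_contra hcon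
  have hx : x ∉ Rad b φ ⊔ Rad b ψ := by
    intro hx
    obtain ⟨d, hd, r, hr, e⟩ := Submodule.mem_sup.1 hx
    exact hcon ⟨d, hd, r, hr, e.symm⟩
  obtain ⟨f, hfx, hfY⟩ := Submodule.exists_le_ker_of_notMem hx
  have hfφ : ∀ d ∈ Rad b φ, f d = 0 := fun d hd => hfY (Submodule.mem_sup_left hd)
  have hfψ : ∀ d ∈ Rad b ψ, f d = 0 := fun d hd => hfY (Submodule.mem_sup_right hd)
  obtain ⟨x₁, hx₁⟩ := rep h.prime h.alt ψ f hfψ
  have hne : x₁ ∉ Rad b ψ := by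
    intro h1
    exact hfx (by rw [hx₁ x]; exact h1 x)
  have hY : x₁ ∈ Rad b φ ⊔ Rad b ψ := by
    by_contra hn
    obtain ⟨f', hf'x, hf'Y⟩ := Submodule.exists_le_ker_of_notMem hn
    have hf'φ : ∀ d ∈ Rad b φ, f' d = 0 := fun d hd => hf'Y (Submodule.mem_sup_left hd)
    have hf'ψ : ∀ d ∈ Rad b ψ, f' d = 0 := fun d hd => hf'Y (Submodule.mem_sup_right hd)
    obtain ⟨x', hx'⟩ := rep h.prime h.alt ψ f' hf'ψ
    obtain ⟨c, hc⟩ := hz x₁
    obtain ⟨c', hc'⟩ := hz x'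
    have hw : c • x' - c' • x₁ ∈ Rad b ψ := by
      refine r1b h h0 hz φ ψ hφ hψ _ ?_ ?_
      · rw [map_sub, map_smul, map_smul, hc, hc', smul_smul, smul_smul, mul_comm, sub_self]
      · intro d hd
        rw [map_sub, map_smul, map_smul, LinearMap.sub_apply, LinearMap.smul_apply,
          LinearMap.smul_apply, map_sub, map_smul, map_smul, ← hx', ← hx₁, hf'φ d hd, hfφ d hd,
          smul_zero, smul_zero, sub_self]
    have h1 := hw x₁
    rw [map_sub, map_smul, map_smul, LinearMap.sub_apply, LinearMap.smul_apply,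
      LinearMap.smul_apply, map_sub, map_smul, map_smul, ← hx', h.alt x₁, map_zero, smul_zero,
      sub_zero, smul_eq_mul, mul_eq_zero] at h1
    have hc0 : c = 0 := h1.resolve_right hf'x
    exact hne (r1b h h0 hz φ ψ hφ hψ x₁ (by rw [hc, hc0, zero_smul])
      fun d hd => by rw [← hx₁]; exact hfφ d hd)
  obtain ⟨d, hd, r, hr, e⟩ := Submodule.mem_sup.1 hY
  have hfd : ∀ v, f v = ψ (b d v) := by
    intro v
    rw [hx₁ v, ← e, map_add, LinearMap.add_apply, map_add, hr v, add_zero]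
  obtain ⟨c, hc⟩ := hz d
  have h2 : φ (b v₀ d) = 0 := by
    rw [anti h.alt v₀ d, map_neg, hd v₀, neg_zero]
  rw [hc, map_smul, smul_eq_mul, mul_eq_zero] at h2
  have hc0 : c = 0 := h2.resolve_right hφ
  have h3 : d ∈ Rad b ψ := r1b h h0 hz φ ψ hφ hψ d (by rw [hc, hc0, zero_smul])
    fun d' hd' => by rw [← hfd]; exact hfφ d' hd'
  exact hfx (by rw [hfd x]; exact h3 x)

end FPY
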