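import Pool.Agent.FPY.R1c

set_option autoImplicit false

namespace FPY

variable {p : ℕ} {V W : Type} [AddCommGroup V] [Module (ZMod p) V] [AddCommGroup W]
  [Module (ZMod p) W] {b : V →ₗ[ZMod p] V →ₗ[ZMod p] W}

/-- If some nonzero `v₀` has `b(v₀, V)` of dimension one, then the image of `b` has dimension one.
PROOF. `z ≠ 0` (`nondeg`).  Let `b x y` not be a multiple of `z`.  `functional_sep`: `ψ` with `ψ z = 0`,
`ψ (b x y) ≠ 0`; choose `φ` with `φ z ≠ 0`.  `r1c` for `φ, ψ`: `V = Rad b φ + Rad b ψ`.  Let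
`d' ∈ Rad b (φ + ψ)`: `φ (b d' v) = - ψ (b d' v)`.  For `v ∈ Rad b φ` the left side is `0` (`anti`), for
`v ∈ Rad b ψ` the right side is `0` and so `ψ (b d' v) = 0` for all `v`: `d' ∈ Rad b ψ`.  `r1c` for `φ + ψ, ψ`
(`(φ + ψ) z = φ z ≠ 0`): `V = Rad b (φ + ψ) + Rad b ψ = Rad b ψ`, so `ψ (b x y) = 0`, contradiction. -/
theorem r1 (h : Hyp p b) {v₀ : V} {z : W} (h0 : v₀ ≠ 0) (hz : ∀ x, ∃ c : ZMod p, b v₀ x = c • z) :
    ∀ x y, ∃ c : ZMod p, b x y = c • z := by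
  have hp : Fact p.Prime := ⟨h.prime⟩
  have hzne : z ≠ 0 := by
    intro hz0
    refine h0 (h.nondeg v₀ fun y => ?_)
    obtain ⟨c, hc⟩ := hz y
    rw [hc, hz0, smul_zero]
  intro x y
  by_contra hcon
  obtain ⟨ψ, hψz, hψ⟩ := functional_sep h.prime z (b x y) hcon
  obtain ⟨φ, -, hφ⟩ := functional_sep h.prime 0 z (by
    rintro ⟨c, hc⟩
    rw [smul_zero] at hc
    exact hzne hc)
  have key : ∀ d' ∈ Rad b (φ + ψ), d' ∈ Rad b ψ := by
    intro d' hd' v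
    obtain ⟨d, hd, r, hr, e⟩ := r1c h h0 hz φ ψ hφ hψz v
    have h1 : ψ (b d' r) = 0 := by rw [anti h.alt d' r, map_neg, hr d', neg_zero]
    have h2 : φ (b d' d) = 0 := by rw [anti h.alt d' d, map_neg, hd d', neg_zero]
    have h3 := hd' d
    rw [LinearMap.add_apply, h2, zero_add] at h3
    rw [e, map_add, map_add, h3, h1, add_zero]
  have hφψ : (φ + ψ) z ≠ 0 := by rwa [LinearMap.add_apply, hψz, add_zero]
  obtain ⟨d, hd, r, hr, e⟩ := r1c h h0 hz (φ + ψ) ψ hφψ hψz x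
  have hx : x ∈ Rad b ψ := by
    rw [e]
    exact (Rad b ψ).add_mem (key d hd) hr
  exact hψ (hx y)

end FPY
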