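import Pool.Agent.FPY.G2

set_option autoImplicit false

namespace FPY

variable {p : ℕ} {V W : Type} [AddCommGroup V] [Module (ZMod p) V] [AddCommGroup W]
  [Module (ZMod p) W] {b : V →ₗ[ZMod p] V →ₗ[ZMod p] W}

/-- The sum `x ⊕ y = x y ι (- b / 2)`. -/
def S1_add {P : Type} [Group P] (π : P → V) (ι : W → P) (b : V →ₗ[ZMod p] V →ₗ[ZMod p] W)
    (x y : P) : P :=
  x * y * ι (-((2 : ZMod p)⁻¹ • b (π x) (π y)))

theorem S1_cen {P : Type} [Group P] {π : P → V} {ι : W → P} (h : Mdl p π ι b) (w : W) (g : P) :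
    g * ι w = ι w * g :=
  Subgroup.mem_center_iff.1 ((h.mem _).2 ⟨w, rfl⟩) g

theorem S1_pi {P : Type} [Group P] {π : P → V} {ι : W → P} (h : Mdl p π ι b) (x y : P) :
    π (S1_add π ι b x y) = π x + π y := by
  unfold S1_add
  rw [h.mul, h.mul, (mdl_basic h).2.2.1, add_zero]

theorem S1_assoc {P : Type} [Group P] {π : P → V} {ι : W → P} (h : Mdl p π ι b) (x y w : P) :
    S1_add π ι b (S1_add π ι b x y) w = S1_add π ι b x (S1_add π ι b y w) := by
  have e1 : ∀ a c : P, S1_add π ι b a c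
      = a * c * ι (-((2 : ZMod p)⁻¹ • b (π a) (π c))) := fun a c => rfl
  rw [e1 (S1_add π ι b x y) w, e1 x (S1_add π ι b y w), S1_pi h, S1_pi h, e1 x y, e1 y w]
  calc x * y * ι (-((2 : ZMod p)⁻¹ • b (π x) (π y))) * w *
        ι (-((2 : ZMod p)⁻¹ • b (π x + π y) (π w)))
      = x * y * (ι (-((2 : ZMod p)⁻¹ • b (π x) (π y))) * w) *
        ι (-((2 : ZMod p)⁻¹ • b (π x + π y) (π w))) := by group
    _ = x * y * (w * ι (-((2 : ZMod p)⁻¹ • b (π x) (π y)))) *
        ι (-((2 : ZMod p)⁻¹ • b (π x + π y) (π w))) := by rw [S1_cen h _ w]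
    _ = x * y * w * (ι (-((2 : ZMod p)⁻¹ • b (π x) (π y))) *
        ι (-((2 : ZMod p)⁻¹ • b (π x + π y) (π w)))) := by group
    _ = x * y * w * (ι (-((2 : ZMod p)⁻¹ • b (π y) (π w))) *
        ι (-((2 : ZMod p)⁻¹ • b (π x) (π y + π w)))) := by
        rw [← h.add, ← h.add]
        congr 2
        rw [map_add, map_add, LinearMap.add_apply, smul_add, smul_add]
        abel
    _ = _ := by group

theorem S1_two (hp : p.Prime) (h2 : p ≠ 2) : (2 : ZMod p) ≠ 0 := by
  intro h3
  have h4 : ((2 : ℕ) : ZMod p) = 0 := by exact_mod_cast h3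
  rw [ZMod.natCast_eq_zero_iff] at h4
  exact h2 ((Nat.prime_dvd_prime_iff_eq hp Nat.prime_two).1 h4)

theorem S1_anti {P : Type} [Group P] {π : P → V} {ι : W → P} (h : Mdl p π ι b) (u v : V) :
    b u v = - b v u := by
  have hb := (mdl_basic h).2.2.2.1
  have h1 := hb (u + v)
  have h3 : b (u + v) (u + v) = b u u + b u v + (b v u + b v v) := by
    rw [map_add b u v, LinearMap.add_apply, map_add (b u), map_add (b v)]
  rw [h3, hb u, hb v, zero_add, add_zero] at h1
  exact eq_neg_of_add_eq_zero_left h1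

theorem S1_comm {P : Type} [Group P] (hp : p.Prime) (h2 : p ≠ 2) {π : P → V} {ι : W → P}
    (h : Mdl p π ι b) (x y : P) : S1_add π ι b x y = S1_add π ι b y x := by
  have : Fact p.Prime := ⟨hp⟩
  unfold S1_add
  have e1 : x * y = ι (b (π x) (π y)) * (y * x) := by
    rw [← h.com]; group
  have e2 : -((2 : ZMod p)⁻¹ • b (π y) (π x))
      = b (π x) (π y) + -((2 : ZMod p)⁻¹ • b (π x) (π y)) := by
    rw [S1_anti h (π y) (π x), smul_neg, neg_neg]
    have e3 : b (π x) (π y)
        = (2 : ZMod p)⁻¹ • b (π x) (π y) + (2 : ZMod p)⁻¹ • b (π x) (π y) := by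
      rw [← two_smul (ZMod p) ((2 : ZMod p)⁻¹ • b (π x) (π y)), smul_smul,
        mul_inv_cancel₀ (S1_two hp h2), one_smul]
    nth_rewrite 2 [e3]
    abel
  rw [e2, h.add, e1, ← S1_cen h (b (π x) (π y)) (y * x), mul_assoc]

theorem S1_zero {P : Type} [Group P] {π : P → V} {ι : W → P} (h : Mdl p π ι b) (x : P) :
    S1_add π ι b 1 x = x := by
  unfold S1_add
  rw [(mdl_basic h).2.1, map_zero, LinearMap.zero_apply, smul_zero, neg_zero,
    (mdl_basic h).1, one_mul, mul_one]

theorem S1_neg {P : Type} [Group P] {π : P → V} {ι : W → P} (h : Mdl p π ι b) (x : P) :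
    S1_add π ι b x⁻¹ x = 1 := by
  unfold S1_add
  have e1 : π x⁻¹ = -π x := by
    rw [eq_neg_iff_add_eq_zero, ← h.mul, inv_mul_cancel, (mdl_basic h).2.1]
  rw [e1, map_neg, LinearMap.neg_apply, (mdl_basic h).2.2.2.1, neg_zero, smul_zero,
    neg_zero, (mdl_basic h).1, inv_mul_cancel, one_mul]

/-- The set `P`, for the new addition. -/
def S1_T (P : Type) : Type := P

/-- The additive group. -/
@[reducible] def S1_inst {P : Type} [Group P] (hp : p.Prime) (h2 : p ≠ 2) {π : P → V} {ι : W → P}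
    (h : Mdl p π ι b) : AddCommGroup (S1_T P) :=
  letI J1 : Add (S1_T P) := ⟨fun x y => S1_add (P := P) π ι b x y⟩
  letI J2 : Zero (S1_T P) := ⟨(1 : P)⟩
  letI J3 : Neg (S1_T P) := ⟨fun x => ((x : P)⁻¹ : P)⟩
  { AddGroup.ofLeftAxioms (G := S1_T P)
      (fun x y w => S1_assoc h x y w)
      (fun x => S1_zero h x)
      (fun x => S1_neg h x) with
    add_comm := fun x y => S1_comm hp h2 h x y }

/-- The core of the construction: `T` is the vector space, `τ : T → P` the bijection. -/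
theorem S1_core {P : Type} [Group P] (hp : p.Prime) {π : P → V} {ι : W → P}
    (h : Mdl p π ι b) (T : Type) [AddCommGroup T] [Module (ZMod p) T] (τ : T → P)
    (hadd : ∀ x y, τ (x + y) = S1_add π ι b (τ x) (τ y)) (hsurj : ∀ g, ∃ x, τ x = g) :
    ∃ σ : V → P, (∀ v, π (σ v) = v) ∧
      ∀ u v, σ u * σ v = σ (u + v) * ι ((2 : ZMod p)⁻¹ • b u v) := by
  have : Fact p.Prime := ⟨hp⟩
  let f0 : T →+ V := AddMonoidHom.mk' (fun x => π (τ x)) (fun x y => by rw [hadd, S1_pi h])
  let f : T →ₗ[ZMod p] V := AddMonoidHom.toZModLinearMap p f0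
  have hf : ∀ x, f x = π (τ x) := fun x => rfl
  have hr : LinearMap.range f = ⊤ := by
    rw [LinearMap.range_eq_top]
    intro v
    obtain ⟨g, hg⟩ := h.surj v
    obtain ⟨x, rfl⟩ := hsurj g
    exact ⟨x, hg⟩
  obtain ⟨g, hg⟩ := LinearMap.exists_rightInverse_of_surjective f hr
  have hg' : ∀ v, π (τ (g v)) = v := fun v => by
    rw [← hf]
    exact LinearMap.congr_fun hg v
  refine ⟨fun v => τ (g v), hg', fun u v => ?_⟩
  have e1 : τ (g (u + v)) = τ (g u) * τ (g v) * ι (-((2 : ZMod p)⁻¹ • b u v)) := by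
    rw [map_add, hadd]
    unfold S1_add
    rw [hg', hg']
  change τ (g u) * τ (g v) = τ (g (u + v)) * ι ((2 : ZMod p)⁻¹ • b u v)
  rw [e1, mul_assoc (τ (g u) * τ (g v)), ← h.add, neg_add_cancel, (mdl_basic h).1, mul_one]

/-- Baer correspondence.  PROOF (compare `FPX.exists_hei`, Pool/Agent/FPX/H7.lean, the same argument with `z ^ (κ x y / 2)` in
place of `ι ((1/2) b (π x) (π y))`).  On `P` put `x ⊕ y = x * y * ι (-(2⁻¹) • b (π x) (π y))`.  It is commutative
(`y x = x y [y, x]...`: `x * y = ι (b (π x) (π y)) * (y * x)`, `anti`), associative (`b` bilinear, `ι` central, `π (ι w) = 0`), `1` is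
the zero, `x⁻¹` the negative, and the `n`-fold sum of `x` is `x ^ n`, so the exponent is `p`: `P` with `⊕` is a
`ZMod p`-module `T`, `π : T → V` is additive and surjective, so it has a linear section `σ`
(`LinearMap.exists_rightInverse_of_surjective`).  `σ (u + v) = σ u ⊕ σ v` is the claim. -/
theorem exists_sec {P : Type} [Group P] (hp : p.Prime) (h2 : p ≠ 2) {π : P → V} {ι : W → P}
    (h : Mdl p π ι b) :
    ∃ σ : V → P, (∀ v, π (σ v) = v) ∧
      ∀ u v, σ u * σ v = σ (u + v) * ι ((2 : ZMod p)⁻¹ • b u v) := by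
  let I1 : AddCommGroup (S1_T P) := S1_inst hp h2 h
  let τ : S1_T P → P := fun x => x
  have hadd : ∀ x y : S1_T P, τ (x + y) = S1_add π ι b (τ x) (τ y) := fun x y => rfl
  have hzero : τ 0 = 1 := rfl
  have hpi : ∀ (n : ℕ) (x : P), π (x ^ n) = n • π x := by
    intro n x
    induction n with
    | zero => rw [pow_zero, zero_nsmul, (mdl_basic h).2.1]
    | succ n ih => rw [pow_succ, h.mul, ih, succ_nsmul]
  have hns : ∀ (n : ℕ) (x : S1_T P), τ (n • x) = τ x ^ n := by
    intro n x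
    induction n with
    | zero => rw [zero_nsmul, pow_zero, hzero]
    | succ n ih =>
      rw [succ_nsmul, hadd, ih, pow_succ]
      unfold S1_add
      rw [hpi, map_nsmul, LinearMap.smul_apply, (mdl_basic h).2.2.2.1, smul_zero, smul_zero,
        neg_zero, (mdl_basic h).1, mul_one]
  have hp0 : ∀ x : S1_T P, p • x = 0 := by
    intro x
    have e1 : τ (p • x) = τ 0 := by rw [hns, hzero, h.exp]
    exact e1
  let I2 : Module (ZMod p) (S1_T P) := AddCommGroup.zmodModule hp0
  exact S1_core hp h (S1_T P) τ hadd (fun g => ⟨g, rfl⟩)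

end FPY
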