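import Pool.Agent.FPY.Defs2

set_option autoImplicit false

namespace FPY

variable {p : ℕ} {V W : Type} [AddCommGroup V] [Module (ZMod p) V] [AddCommGroup W]
  [Module (ZMod p) W] {b : V →ₗ[ZMod p] V →ₗ[ZMod p] W}

/-- PROOF. Let `C` be a complement of `W₀ ⊓ X` in `X`; `C ⊓ W₀ = ⊥`; let `D` be a complement of `W₀ ⊔ C` in `W`.
`W = W₀ ⊕ C ⊕ D`; `B = B₀` on `W₀`, `1` on `C`, `2` on `D` (`p` odd: `2 ≠ 0`, `2 ≠ 1`).  `B w = w` for
`w = w₀ + c + d` iff `B₀ w₀ = w₀` and `d = 0` iff `w₀ ∈ X`, `d = 0` iff `w ∈ X`. -/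
theorem ext_B (hp : p.Prime) (h2 : p ≠ 2) [Finite W] (W₀ X : Submodule (ZMod p) W)
    (B₀ : W₀ ≃ₗ[ZMod p] W₀) (hB : ∀ w : W₀, B₀ w = w ↔ (w : W) ∈ X) :
    ∃ B : W ≃ₗ[ZMod p] W, (∀ w : W₀, B w = B₀ w) ∧ ∀ w, B w = w ↔ w ∈ X := by
  have : Fact p.Prime := ⟨hp⟩
  have h2' : (2 : ZMod p) ≠ 0 := by
    intro h
    have h3 : ((2 : ℕ) : ZMod p) = 0 := by exact_mod_cast h
    rw [ZMod.natCast_eq_zero_iff] at h3
    exact h2 ((Nat.prime_dvd_prime_iff_eq hp Nat.prime_two).1 h3)
  obtain ⟨C', hC'⟩ := Submodule.exists_isCompl (W₀ ⊓ X)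
  set C := C' ⊓ X with hC
  have hCX : C ≤ X := inf_le_right
  have hsup : (W₀ ⊓ X) ⊔ C = X := by
    rw [hC, ← sup_inf_assoc_of_le C' (inf_le_right : W₀ ⊓ X ≤ X), hC'.sup_eq_top, top_inf_eq]
  have hdis : Disjoint W₀ C := by
    rw [Submodule.disjoint_def]
    intro x hx hxC
    have h1 : x ∈ W₀ ⊓ X := ⟨hx, hCX hxC⟩
    exact (Submodule.disjoint_def.1 hC'.disjoint) x h1 hxC.1
  obtain ⟨D, hD⟩ := Submodule.exists_isCompl (W₀ ⊔ C)
  have hD0 : IsCompl W₀ (C ⊔ D) := by
    constructor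
    · rw [Submodule.disjoint_def]
      intro x hx hx2
      obtain ⟨c, hc, d, hd, rfl⟩ := Submodule.mem_sup.1 hx2
      have h1 : d ∈ W₀ ⊔ C := by
        have e : d = (c + d) - c := by abel
        rw [e]
        exact Submodule.sub_mem _ (Submodule.mem_sup_left hx) (Submodule.mem_sup_right hc)
      have h3 : d = 0 := (Submodule.disjoint_def.1 hD.disjoint) d h1 hd
      rw [h3, add_zero] at hx ⊢
      exact (Submodule.disjoint_def.1 hdis) c hx hc
    · rw [codisjoint_iff, ← sup_assoc]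
      exact hD.sup_eq_top
  set π₀ := W₀.projectionOnto (C ⊔ D) hD0 with hπ₀
  set πD := D.projection (W₀ ⊔ C) hD.symm with hπD
  have p1 : ∀ x : W₀, π₀ x = x := fun x => Submodule.projectionOnto_apply_left hD0 x
  have p2 : ∀ x ∈ C ⊔ D, π₀ x = 0 := fun x hx =>
    (Submodule.projectionOnto_apply_eq_zero_iff hD0).2 hx
  have p3 : ∀ x ∈ D, πD x = x := fun x hx => Submodule.projection_apply_of_mem_left hD.symm hx
  have p4 : ∀ x ∈ W₀ ⊔ C, πD x = 0 := fun x hx =>
    (Submodule.projection_apply_eq_zero_iff hD.symm).2 hx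
  have p5 : ∀ x, πD x ∈ D := fun x => Submodule.projection_apply_mem hD.symm x
  let B₁ : W →ₗ[ZMod p] W := LinearMap.id + πD +
    W₀.subtype ∘ₗ ((B₀ : W₀ →ₗ[ZMod p] W₀) - LinearMap.id) ∘ₗ π₀
  have hB1 : ∀ w, B₁ w = w + πD w + ((B₀ (π₀ w) - π₀ w : W₀) : W) := fun w => rfl
  have q1 : ∀ w, π₀ (B₁ w) = B₀ (π₀ w) := by
    intro w
    rw [hB1, map_add, map_add, p2 (πD w) (Submodule.mem_sup_right (p5 w)), p1, add_zero]
    abel
  have hinj : Function.Injective B₁ := by
    rw [injective_iff_map_eq_zero]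
    intro w hw
    have h1 := q1 w
    rw [hw, map_zero] at h1
    have h3 : π₀ w = 0 := B₀.map_eq_zero_iff.1 h1.symm
    rw [hB1, h3, map_zero, sub_zero, Submodule.coe_zero, add_zero] at hw
    have h4 := congrArg πD hw
    rw [map_add, p3 _ (p5 w), map_zero, ← two_smul (ZMod p)] at h4
    rcases smul_eq_zero.1 h4 with h5 | h5
    · exact (h2' h5).elim
    · rwa [h5, add_zero] at hw
  have : FiniteDimensional (ZMod p) W := Module.Finite.of_finite
  refine ⟨LinearEquiv.ofInjectiveEndo B₁ hinj, ?_, ?_⟩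
  · intro w
    rw [LinearEquiv.coe_ofInjectiveEndo, hB1, p1, p4 _ (Submodule.mem_sup_left w.2), add_zero,
      AddSubgroupClass.coe_sub]
    abel
  · intro w
    rw [LinearEquiv.coe_ofInjectiveEndo]
    constructor
    · intro h
      have h1 := q1 w
      rw [h] at h1
      have h3 : ((π₀ w : W₀) : W) ∈ X := (hB _).1 h1.symm
      have h4 : πD w = 0 := by
        rw [hB1, ← h1, sub_self, Submodule.coe_zero, add_zero] at h
        simpa using h
      have h5 : w ∈ W₀ ⊔ C := (Submodule.projection_apply_eq_zero_iff hD.symm).1 h4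
      obtain ⟨x, hx, c, hc, rfl⟩ := Submodule.mem_sup.1 h5
      have h6 : π₀ (x + c) = ⟨x, hx⟩ := by
        rw [map_add, p2 c (Submodule.mem_sup_left hc), add_zero]
        exact p1 ⟨x, hx⟩
      rw [h6] at h3
      exact X.add_mem h3 (hCX hc)
    · intro h
      rw [← hsup] at h
      obtain ⟨x, hx, c, hc, rfl⟩ := Submodule.mem_sup.1 h
      have h6 : π₀ (x + c) = ⟨x, hx.1⟩ := by
        rw [map_add, p2 c (Submodule.mem_sup_left hc), add_zero]
        exact p1 ⟨x, hx.1⟩
      have h7 : B₀ ⟨x, hx.1⟩ = ⟨x, hx.1⟩ := (hB _).2 hx.2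
      rw [hB1, h6, h7, sub_self, Submodule.coe_zero, add_zero,
        p4 _ (Submodule.add_mem _ (Submodule.mem_sup_left hx.1) (Submodule.mem_sup_right hc)),
        add_zero]

private theorem S3_inj {K M N : Type} [Field K] [AddCommGroup M] [Module K M] [AddCommGroup N]
    [Module K N] [FiniteDimensional K M] [FiniteDimensional K N]
    (h : Module.finrank K M ≤ Module.finrank K N) : ∃ f : M →ₗ[K] N, Function.Injective f := by
  refine Module.Free.exists_linearMap_injective_of_linearIndependent_of_rank_le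
    (v := Module.finBasis K N) (Module.finBasis K N).linearIndependent ?_
  rw [← Module.finrank_eq_rank K M, Cardinal.mk_fin]
  exact_mod_cast h

/-- PROOF. Let `F = ker (A - 1) ≥ U`, `X = ker (B - 1)`, `R = range (B - 1)`; `finrank (W/R) = finrank X` (rank-nullity).
`finrank F - finrank U ≤ finrank X`, so there is an injective linear map `F/U → W/R`; lift it to a linear map
`F → W` vanishing on `U` (compose with a linear section of `W → W/R`) and extend to `V`.  If `A v = v` and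
`ε v + B w = w` then `ε v = -(B - 1) w ∈ R`, so `v ∈ U`. -/
theorem exists_eps (hp : p.Prime) [Finite V] [Finite W] (A : V →ₗ[ZMod p] V)
    (B : W →ₗ[ZMod p] W) (U : Submodule (ZMod p) V) (X : Submodule (ZMod p) W)
    (hU : ∀ u ∈ U, A u = u) (hX : ∀ w, B w = w ↔ w ∈ X)
    (hd : Module.finrank (ZMod p) (LinearMap.ker (A - LinearMap.id)) ≤
      Module.finrank (ZMod p) U + Module.finrank (ZMod p) X) :
    ∃ ε : V →ₗ[ZMod p] W, (∀ u ∈ U, ε u = 0) ∧
      ∀ v w, A v = v → ε v + B w = w → v ∈ U := by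
  have : Fact p.Prime := ⟨hp⟩
  have : FiniteDimensional (ZMod p) V := Module.Finite.of_finite
  have : FiniteDimensional (ZMod p) W := Module.Finite.of_finite
  set F := LinearMap.ker (A - LinearMap.id) with hF
  have hmF : ∀ v, v ∈ F ↔ A v = v := by
    intro v
    rw [hF, LinearMap.mem_ker, LinearMap.sub_apply, LinearMap.id_apply, sub_eq_zero]
  set R := LinearMap.range (B - LinearMap.id) with hR
  have hkX : LinearMap.ker (B - LinearMap.id) = X := by
    ext w
    rw [LinearMap.mem_ker, LinearMap.sub_apply, LinearMap.id_apply, sub_eq_zero, hX]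
  have hUF : U ≤ F := fun u hu => (hmF u).2 (hU u hu)
  -- dimensions
  have d1 : Module.finrank (ZMod p) (W ⧸ R) = Module.finrank (ZMod p) X := by
    have e1 := Submodule.finrank_quotient_add_finrank R
    have e2 := LinearMap.finrank_range_add_finrank_ker (B - LinearMap.id)
    rw [hkX, ← hR] at e2
    omega
  let f : F →ₗ[ZMod p] V ⧸ U := U.mkQ ∘ₗ F.subtype
  have hkf : LinearMap.ker f = Submodule.comap F.subtype U := by
    rw [LinearMap.ker_comp, Submodule.ker_mkQ]
  have d2 : Module.finrank (ZMod p) (LinearMap.range f) + Module.finrank (ZMod p) U =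
      Module.finrank (ZMod p) F := by
    have e1 := LinearMap.finrank_range_add_finrank_ker f
    rw [hkf, (Submodule.comapSubtypeEquivOfLe hUF).finrank_eq] at e1
    exact e1
  obtain ⟨j, hj⟩ := S3_inj (K := ZMod p) (M := LinearMap.range f) (N := W ⧸ R) (by omega)
  obtain ⟨g, hg⟩ := LinearMap.exists_extend j
  obtain ⟨s, hs⟩ := R.mkQ.exists_rightInverse_of_surjective (Submodule.range_mkQ R)
  refine ⟨s ∘ₗ g ∘ₗ U.mkQ, ?_, ?_⟩
  · intro u hu
    have h1 : U.mkQ u = 0 := by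
      rw [Submodule.mkQ_apply, Submodule.Quotient.mk_eq_zero]; exact hu
    rw [LinearMap.comp_apply, LinearMap.comp_apply, h1, map_zero, map_zero]
  · intro v w hv hw
    have hvF : v ∈ F := (hmF v).2 hv
    have h1 : (s ∘ₗ g ∘ₗ U.mkQ) v ∈ R := by
      refine ⟨-w, ?_⟩
      rw [LinearMap.sub_apply, LinearMap.id_apply, map_neg]
      have e : (s ∘ₗ g ∘ₗ U.mkQ) v = w - B w := eq_sub_of_add_eq hw
      rw [e]; abel
    have h3 : R.mkQ ((s ∘ₗ g ∘ₗ U.mkQ) v) = 0 := by
      rw [Submodule.mkQ_apply, Submodule.Quotient.mk_eq_zero]; exact h1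
    have h4 : R.mkQ (s (g (U.mkQ v))) = g (U.mkQ v) := by
      have := LinearMap.congr_fun hs (g (U.mkQ v))
      simpa using this
    have h5 : g (U.mkQ v) = 0 := by
      rw [← h4]; exact h3
    have h6 : g (U.mkQ v) = j ⟨U.mkQ v, ⟨⟨v, hvF⟩, rfl⟩⟩ := by
      rw [← hg]; rfl
    rw [h6] at h5
    have h7 := (injective_iff_map_eq_zero j).1 hj _ h5
    have h8 : U.mkQ v = 0 := congrArg Subtype.val h7
    rw [Submodule.mkQ_apply, Submodule.Quotient.mk_eq_zero] at h8
    exact h8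

end FPY
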