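import Pool.Agent.FPY.S9
import Pool.Agent.FPY.S3

set_option autoImplicit false

namespace FPY

variable {p : ℕ} {V W : Type} [AddCommGroup V] [Module (ZMod p) V] [AddCommGroup W]
  [Module (ZMod p) W] {b : V →ₗ[ZMod p] V →ₗ[ZMod p] W}

/-- PROOF. `X₀ = X ⊓ Im b`, of dimension `0, 1, 2` or `3` (then `X₀ = Im b`): `good_dim_zero`, `good_dim_one`, `good_dim_two`,
`good_three`.  `ext_B` gives `B`; `exists_eps` gives `ε` (`finrank X₀ ≤ finrank X`). -/
theorem lin_suff (h : Free3 p b) (U : Submodule (ZMod p) V) (X : Submodule (ZMod p) W)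
    (hUX : ∀ u ∈ U, ∀ v ∈ U, b u v ∈ X) :
    ∃ (A : V ≃ₗ[ZMod p] V) (B : W ≃ₗ[ZMod p] W) (ε : V →ₗ[ZMod p] W),
      (∀ x y, b (A x) (A y) = B (b x y)) ∧ (∀ u ∈ U, A u = u) ∧ (∀ w, B w = w ↔ w ∈ X) ∧
      (∀ u ∈ U, ε u = 0) ∧ ∀ v w, A v = v → ε v + B w = w → v ∈ U := by
  have : Fact p.Prime := ⟨h.prime⟩
  have := h.finV
  have := h.finW
  have : Module.Finite (ZMod p) W := Module.Finite.of_finite
  have hval : ∀ x y, b x y ∈ Im b := fun x y => Submodule.subset_span ⟨(x, y), rfl⟩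
  have hgood : Good b U (X ⊓ Im b) := by
    have hle : X ⊓ Im b ≤ Im b := inf_le_right
    have hU' : ∀ u ∈ U, ∀ v ∈ U, b u v ∈ X ⊓ Im b := fun u hu v hv => ⟨hUX u hu v hv, hval u v⟩
    have h3 : Module.finrank (ZMod p) (X ⊓ Im b : Submodule (ZMod p) W) ≤ 3 := by
      have := Submodule.finrank_mono hle
      rw [h.dI] at this
      exact this
    have hcase : Module.finrank (ZMod p) (X ⊓ Im b : Submodule (ZMod p) W) = 0 ∨
        Module.finrank (ZMod p) (X ⊓ Im b : Submodule (ZMod p) W) = 1 ∨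
        Module.finrank (ZMod p) (X ⊓ Im b : Submodule (ZMod p) W) = 2 ∨
        Module.finrank (ZMod p) (X ⊓ Im b : Submodule (ZMod p) W) = 3 := by omega
    rcases hcase with h0 | h1 | h2 | h3
    · have hbot : X ⊓ Im b = ⊥ := Submodule.finrank_eq_zero.1 h0
      rw [hbot]
      apply good_dim_zero h U
      intro u hu v hv
      have := hU' u hu v hv
      rw [hbot, Submodule.mem_bot] at this
      exact this
    · exact good_dim_one h U _ hle hU' h1
    · exact good_dim_two h U _ hle hU' h2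
    · have heq : X ⊓ Im b = Im b :=
        Submodule.eq_of_le_of_finrank_eq hle (by rw [h3, h.dI])
      rw [heq]
      exact good_three h U
  obtain ⟨A, B₀, hAB, hAU, hB0, hk⟩ := hgood
  obtain ⟨B, hBW, hBX⟩ := ext_B h.prime h.odd (Im b) X B₀
    (fun w => (hB0 w).trans ⟨fun hw => hw.1, fun hw => ⟨hw, w.2⟩⟩)
  have hk2 : Module.finrank (ZMod p) (LinearMap.ker ((A : V →ₗ[ZMod p] V) - LinearMap.id)) ≤
      Module.finrank (ZMod p) U + Module.finrank (ZMod p) X :=
    hk.trans (Nat.add_le_add_left (Submodule.finrank_mono inf_le_left) _)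
  obtain ⟨ε, hεU, hε⟩ := exists_eps h.prime (A : V →ₗ[ZMod p] V) (B : W →ₗ[ZMod p] W) U X hAU hBX
    hk2
  refine ⟨A, B, ε, ?_, hAU, hBX, hεU, hε⟩
  intro x y
  rw [← hAB x y (hval x y), ← hBW]

end FPY
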