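import Pool.Agent.FPY.Defs2

set_option autoImplicit false

namespace FPY

variable {p : ℕ} {V W : Type} [AddCommGroup V] [Module (ZMod p) V] [AddCommGroup W]
  [Module (ZMod p) W] {b : V →ₗ[ZMod p] V →ₗ[ZMod p] W}

private theorem S4_anti (halt : ∀ x, b x x = 0) (x y : V) : b x y = - b y x := by
  have h := halt (x + y)
  simp only [map_add, LinearMap.add_apply, halt, zero_add, add_zero] at h
  exact eq_neg_of_add_eq_zero_right h

/-- the vectors of the basis of `Im b` -/
def S4w (b : V →ₗ[ZMod p] V →ₗ[ZMod p] W) (e : Fin 3 → V) : Fin 3 → W :=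
  ![b (e 1) (e 2), b (e 2) (e 0), b (e 0) (e 1)]

/-- the coefficients of `b x y` -/
def S4c (x y : Fin 3 → ZMod p) : Fin 3 → ZMod p :=
  ![x 1 * y 2 - x 2 * y 1, x 2 * y 0 - x 0 * y 2, x 0 * y 1 - x 1 * y 0]

theorem S4_expand (halt : ∀ x, b x x = 0) (e : Module.Basis (Fin 3) (ZMod p) V) (x y : V) :
    b x y = ∑ i, S4c (e.repr x) (e.repr y) i • S4w b e i := by
  have h1 : b x y = b (∑ i, e.repr x i • e i) (∑ i, e.repr y i • e i) := by
    rw [e.sum_repr, e.sum_repr]
  rw [h1]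
  simp only [Fin.sum_univ_three, map_add, LinearMap.add_apply, map_smul, LinearMap.smul_apply,
    halt, S4c, S4w, S4_anti halt (e 1) (e 0), S4_anti halt (e 2) (e 1), S4_anti halt (e 0) (e 2),
    Matrix.cons_val_zero, Matrix.cons_val_one, Matrix.cons_val]
  module

theorem S4_mem (e : Fin 3 → V) (i : Fin 3) : S4w b e i ∈ Im b := by
  have h : ∀ x y, b x y ∈ Im b := fun x y => Submodule.subset_span ⟨(x, y), rfl⟩
  fin_cases i
  · exact h _ _
  · exact h _ _
  · exact h _ _

theorem S4_span (halt : ∀ x, b x x = 0) (e : Module.Basis (Fin 3) (ZMod p) V) :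
    Submodule.span (ZMod p) (Set.range (S4w b e)) = Im b := by
  apply le_antisymm
  · rw [Submodule.span_le]
    rintro _ ⟨i, rfl⟩
    exact S4_mem e i
  · unfold Im
    rw [Submodule.span_le]
    rintro _ ⟨q, rfl⟩
    show b q.1 q.2 ∈ _
    rw [S4_expand halt e]
    exact Submodule.sum_mem _ fun i _ => Submodule.smul_mem _ _ (Submodule.subset_span ⟨i, rfl⟩)

theorem S4_li (h : Free3 p b) (e : Module.Basis (Fin 3) (ZMod p) V) :
    LinearIndependent (ZMod p) (S4w b e) := by
  have := Fact.mk h.prime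
  rw [linearIndependent_iff_card_eq_finrank_span]
  unfold Set.finrank
  rw [S4_span h.alt e, h.dI, Fintype.card_fin]

/-- the basis of `Im b` -/
theorem S4_basis (h : Free3 p b) (e : Module.Basis (Fin 3) (ZMod p) V) :
    ∃ B : Module.Basis (Fin 3) (ZMod p) (Im b), ∀ i, ((B i : Im b) : W) = S4w b e i := by
  have := Fact.mk h.prime
  have h1 : LinearIndependent (ZMod p) (fun i => (⟨S4w b e i, S4_mem e i⟩ : Im b)) :=
    LinearIndependent.of_comp (Im b).subtype (S4_li h e)
  have h2 : Fintype.card (Fin 3) = Module.finrank (ZMod p) (Im b) := by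
    rw [h.dI, Fintype.card_fin]
  refine ⟨basisOfLinearIndependentOfCardEqFinrank h1 h2, fun i => ?_⟩
  rw [coe_basisOfLinearIndependentOfCardEqFinrank]

/-- Coordinates.  PROOF. `Im b` is spanned by `b (e 1) (e 2)`, `b (e 2) (e 0)`, `b (e 0) (e 1)` (alternating) and has
dimension `3`, so these three vectors are linearly independent. -/
theorem im_coord (h : Free3 p b) (e : Module.Basis (Fin 3) (ZMod p) V) :
    (∀ w ∈ Im b, ∃ c₀ c₁ c₂ : ZMod p,
      w = c₀ • b (e 1) (e 2) + c₁ • b (e 2) (e 0) + c₂ • b (e 0) (e 1)) ∧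
    ∀ c₀ c₁ c₂ : ZMod p, c₀ • b (e 1) (e 2) + c₁ • b (e 2) (e 0) + c₂ • b (e 0) (e 1) = 0 →
      c₀ = 0 ∧ c₁ = 0 ∧ c₂ = 0 := by
  constructor
  · intro w hw
    rw [← S4_span h.alt e, Submodule.mem_span_range_iff_exists_fun] at hw
    obtain ⟨c, hc⟩ := hw
    refine ⟨c 0, c 1, c 2, ?_⟩
    rw [← hc]
    simp [Fin.sum_univ_three, S4w]
  · intro c₀ c₁ c₂ hc
    have h1 := Fintype.linearIndependent_iff.1 (S4_li h e) ![c₀, c₁, c₂] (by
      rw [← hc]
      simp [Fin.sum_univ_three, S4w])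
    exact ⟨h1 0, h1 1, h1 2⟩

/-- `b` is universal.  PROOF. Let `e` be a basis of `V` (`Module.finBasisOfFinrankEq`); `b (e 1) (e 2)`, ... is a basis
of `Im b` (`im_coord`); define `B₀` on it by `b (e i) (e j) ↦ b (A (e i)) (A (e j))`; the formula holds for all
`x, y` by bilinearity and because `b` is alternating.  `B₀` is bijective, with inverse the map belonging to
`A⁻¹`. -/
theorem exists_B0 (h : Free3 p b) (A : V ≃ₗ[ZMod p] V) :
    ∃ B₀ : Im b ≃ₗ[ZMod p] Im b, ∀ x y (hxy : b x y ∈ Im b),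
      ((B₀ ⟨b x y, hxy⟩ : Im b) : W) = b (A x) (A y) := by
  have := Fact.mk h.prime
  have := h.finV
  let e : Module.Basis (Fin 3) (ZMod p) V := Module.finBasisOfFinrankEq (ZMod p) V h.dV
  obtain ⟨B, hB⟩ := S4_basis h e
  obtain ⟨B', hB'⟩ := S4_basis h (e.map A)
  refine ⟨B.equiv B' (Equiv.refl _), fun x y hxy => ?_⟩
  have h1 : (⟨b x y, hxy⟩ : Im b) = ∑ i, S4c (e.repr x) (e.repr y) i • B i := by
    apply Subtype.ext
    rw [Submodule.coe_sum]
    simp only [Submodule.coe_smul, hB]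
    exact S4_expand h.alt e x y
  rw [h1, map_sum, Submodule.coe_sum, S4_expand h.alt (e.map A) (A x) (A y)]
  refine Finset.sum_congr rfl fun i _ => ?_
  rw [map_smul, Module.Basis.equiv_apply, Equiv.refl_apply, Submodule.coe_smul, hB']
  simp

end FPY
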