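import Pool.Agent.FPY.S4

set_option autoImplicit false

namespace FPY

variable {p : ℕ} {V W : Type} [AddCommGroup V] [Module (ZMod p) V] [AddCommGroup W]
  [Module (ZMod p) W] {b : V →ₗ[ZMod p] V →ₗ[ZMod p] W}

/-- Linear data on `Im b`: `A` is the identity on `U`, the induced map of `Im b` has fixed space `X₀`, and the
fixed space of `A` is not too large. -/
def Good (b : V →ₗ[ZMod p] V →ₗ[ZMod p] W) (U : Submodule (ZMod p) V)
    (X₀ : Submodule (ZMod p) W) : Prop :=
  ∃ (A : V ≃ₗ[ZMod p] V) (B₀ : Im b ≃ₗ[ZMod p] Im b),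
    (∀ x y (hxy : b x y ∈ Im b), ((B₀ ⟨b x y, hxy⟩ : Im b) : W) = b (A x) (A y)) ∧
    (∀ u ∈ U, A u = u) ∧ (∀ w : Im b, B₀ w = w ↔ (w : W) ∈ X₀) ∧
    Module.finrank (ZMod p) (LinearMap.ker ((A : V →ₗ[ZMod p] V) - LinearMap.id)) ≤
      Module.finrank (ZMod p) U + Module.finrank (ZMod p) X₀

theorem S5_B0 (e : Module.Basis (Fin 3) (ZMod p) V) {A : V ≃ₗ[ZMod p] V}
    {B₀ : Im b ≃ₗ[ZMod p] Im b}
    (hB : ∀ x y (hxy : b x y ∈ Im b), ((B₀ ⟨b x y, hxy⟩ : Im b) : W) = b (A x) (A y))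
    {w : Im b} {c₀ c₁ c₂ : ZMod p}
    (hw : (w : W) = c₀ • b (e 1) (e 2) + c₁ • b (e 2) (e 0) + c₂ • b (e 0) (e 1)) :
    ((B₀ w : Im b) : W) = c₀ • b (A (e 1)) (A (e 2)) + c₁ • b (A (e 2)) (A (e 0)) +
      c₂ • b (A (e 0)) (A (e 1)) := by
  have hm : ∀ x y, b x y ∈ Im b := fun x y => Submodule.subset_span ⟨(x, y), rfl⟩
  have h1 : w = c₀ • (⟨_, hm (e 1) (e 2)⟩ : Im b) + c₁ • (⟨_, hm (e 2) (e 0)⟩ : Im b) +
      c₂ • (⟨_, hm (e 0) (e 1)⟩ : Im b) := Subtype.ext hw
  rw [h1, map_add, map_add, map_smul, map_smul, map_smul]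
  simp only [Submodule.coe_add, Submodule.coe_smul, hB]

theorem S5_anti (halt : ∀ x, b x x = 0) (x y : V) : b x y = - b y x := by
  have h := halt (x + y)
  simp only [map_add, LinearMap.add_apply, halt, zero_add, add_zero] at h
  exact eq_neg_of_add_eq_zero_right h

/-- PROOF. `A = 1`, `B₀ = 1`; `3 ≤ finrank U + 3`. -/
theorem good_three (h : Free3 p b) (U : Submodule (ZMod p) V) : Good b U (Im b) := by
  have := Fact.mk h.prime
  have := h.finV
  refine ⟨LinearEquiv.refl _ _, LinearEquiv.refl _ _, fun x y _ => rfl, fun u _ => rfl,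
    fun w => ⟨fun _ => w.2, fun _ => rfl⟩, ?_⟩
  rw [h.dI]
  have h1 := Submodule.finrank_le (LinearMap.ker
    (((LinearEquiv.refl (ZMod p) V : V ≃ₗ[ZMod p] V) : V →ₗ[ZMod p] V) - LinearMap.id))
  rw [h.dV] at h1
  omega

/-- PROOF. `A e₀ = e₀`, `A e₁ = e₁`, `A e₂ = e₂ + e₀`; `exists_B0`.  With `w₀ = b e₁ e₂`, `w₁ = b e₂ e₀`,
`w₂ = b e₀ e₁`: `B₀ w₀ = w₀ - w₂`, `B₀ w₁ = w₁`, `B₀ w₂ = w₂`, so `B₀` fixes exactly the vectors with `c₀ = 0`
(`im_coord`).  The fixed space of `A` is `⟨e₀, e₁⟩`, `2 ≤ finrank U + 2`. -/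
theorem good_two (h : Free3 p b) (e : Module.Basis (Fin 3) (ZMod p) V)
    (U : Submodule (ZMod p) V) (hU : U ≤ Submodule.span (ZMod p) {e 0, e 1}) :
    Good b U (Submodule.span (ZMod p) {b (e 2) (e 0), b (e 0) (e 1)}) := by
  have := Fact.mk h.prime
  have := h.finV
  have := h.finW
  have k0 : e.coord 2 (e 0) = 0 := by simp [Module.Basis.coord_apply]
  have k1 : e.coord 2 (e 1) = 0 := by simp [Module.Basis.coord_apply]
  have k2 : e.coord 2 (e 2) = 1 := by simp [Module.Basis.coord_apply]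
  let A : V ≃ₗ[ZMod p] V := LinearEquiv.ofLinearMap
    (LinearMap.id + (e.coord 2).smulRight (e 0)) (LinearMap.id - (e.coord 2).smulRight (e 0))
    (by
      ext x
      simp only [LinearMap.comp_apply, LinearMap.add_apply, LinearMap.sub_apply,
        LinearMap.id_apply, LinearMap.smulRight_apply, map_sub, map_smul, k0, zero_smul, add_zero,
        add_sub_cancel_right])
    (by
      ext x
      simp only [LinearMap.comp_apply, LinearMap.add_apply, LinearMap.sub_apply,
        LinearMap.id_apply, LinearMap.smulRight_apply, map_add, map_smul, k0, zero_smul, sub_zero,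
        sub_add_cancel])
  have hA : ∀ x, A x = x + e.coord 2 x • e 0 := fun x => rfl
  have A0 : A (e 0) = e 0 := by rw [hA, k0, zero_smul, add_zero]
  have A1 : A (e 1) = e 1 := by rw [hA, k1, zero_smul, add_zero]
  have A2 : A (e 2) = e 2 + e 0 := by rw [hA, k2, one_smul]
  obtain ⟨B₀, hB⟩ := exists_B0 h A
  obtain ⟨hc1, hc2⟩ := im_coord h e
  refine ⟨A, B₀, hB, fun u hu => ?_, fun w => ?_, ?_⟩
  · obtain ⟨s, t, rfl⟩ := Submodule.mem_span_pair.1 (hU hu)
    rw [map_add, map_smul, map_smul, A0, A1]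
  · obtain ⟨c₀, c₁, c₂, hw⟩ := hc1 w w.2
    have h1 := S5_B0 e hB hw
    rw [A0, A1, A2] at h1
    have h2 : ((B₀ w : Im b) : W) = w + (0 • b (e 1) (e 2) + (0 : ZMod p) • b (e 2) (e 0) +
        (-c₀) • b (e 0) (e 1)) := by
      rw [h1, hw]
      simp only [map_add, LinearMap.add_apply, h.alt, S5_anti h.alt (e 1) (e 0)]
      module
    constructor
    · intro h3
      rw [h3] at h2
      have h4 : (0 : ZMod p) • b (e 1) (e 2) + (0 : ZMod p) • b (e 2) (e 0) +
          (-c₀) • b (e 0) (e 1) = 0 := by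
        have h5 := left_eq_add.1 h2
        rw [← h5]
        simp
      have h5 := (hc2 _ _ _ h4).2.2
      rw [neg_eq_zero] at h5
      rw [hw, h5, zero_smul, zero_add]
      exact Submodule.mem_span_pair.2 ⟨c₁, c₂, rfl⟩
    · intro h3
      obtain ⟨s, t, hst⟩ := Submodule.mem_span_pair.1 h3
      have h4 : c₀ • b (e 1) (e 2) + (c₁ - s) • b (e 2) (e 0) + (c₂ - t) • b (e 0) (e 1) = 0 := by
        have h5 : c₀ • b (e 1) (e 2) + c₁ • b (e 2) (e 0) + c₂ • b (e 0) (e 1) -
            (s • b (e 2) (e 0) + t • b (e 0) (e 1)) = 0 := by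
          rw [← hw, hst, sub_self]
        rw [← h5]
        module
      have h5 := (hc2 _ _ _ h4).1
      apply Subtype.ext
      rw [h2, h5]
      simp
  · have h1 : Module.finrank (ZMod p) (LinearMap.ker
        ((A : V →ₗ[ZMod p] V) - LinearMap.id)) < Module.finrank (ZMod p) V := by
      refine Submodule.finrank_lt ?_
      intro htop
      have h2 : e 2 ∈ LinearMap.ker ((A : V →ₗ[ZMod p] V) - LinearMap.id) := by
        rw [htop]; exact Submodule.mem_top
      rw [LinearMap.mem_ker, LinearMap.sub_apply, LinearMap.id_apply, LinearEquiv.coe_coe, A2,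
        add_sub_cancel_left] at h2
      exact e.ne_zero 0 h2
    rw [h.dV] at h1
    have h2 : Module.finrank (ZMod p)
        (Submodule.span (ZMod p) {b (e 2) (e 0), b (e 0) (e 1)}) = 2 := by
      have h3 : LinearIndependent (ZMod p) ![b (e 2) (e 0), b (e 0) (e 1)] := by
        rw [LinearIndependent.pair_iff]
        intro s t hst
        have h4 := hc2 0 s t (by rw [zero_smul, zero_add, hst])
        exact h4.2
      have h4 := finrank_span_eq_card h3
      rw [Fintype.card_fin] at h4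
      have h5 : Set.range ![b (e 2) (e 0), b (e 0) (e 1)] = {b (e 2) (e 0), b (e 0) (e 1)} := by
        simp [Matrix.range_cons, Matrix.range_empty, Set.pair_comm]
      rw [← h5]
      exact h4
    omega

end FPY
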