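import Pool.Agent.FPY.S5

set_option autoImplicit false

namespace FPY

variable {p : ℕ} {V W : Type} [AddCommGroup V] [Module (ZMod p) V] [AddCommGroup W]
  [Module (ZMod p) W] {b : V →ₗ[ZMod p] V →ₗ[ZMod p] W}

theorem S6_anti (h : Free3 p b) (x y : V) : b y x = -b x y := by
  have h1 := h.alt (x + y)
  simp only [map_add, LinearMap.add_apply, h.alt, zero_add, add_zero] at h1
  rw [eq_neg_iff_add_eq_zero]
  exact h1

theorem S6_mem (x y : V) : b x y ∈ Im b := Submodule.subset_span ⟨(x, y), rfl⟩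

theorem S6_coord (e : Module.Basis (Fin 3) (ZMod p) V) (v : V) :
    v = e.repr v 0 • e 0 + e.repr v 1 • e 1 + e.repr v 2 • e 2 := by
  conv_lhs => rw [← e.sum_repr v]
  rw [Fin.sum_univ_three]

theorem S6_indep (e : Module.Basis (Fin 3) (ZMod p) V) {x₀ x₁ x₂ : ZMod p}
    (h : x₀ • e 0 + x₁ • e 1 + x₂ • e 2 = 0) : x₀ = 0 ∧ x₁ = 0 ∧ x₂ = 0 := by
  have hr : ∀ i, e.repr (x₀ • e 0 + x₁ • e 1 + x₂ • e 2) i =
      x₀ * (if i = 0 then 1 else 0) + x₁ * (if i = 1 then 1 else 0) + x₂ * (if i = 2 then 1 else 0) := by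
    intro i
    simp only [map_add, map_smul, Module.Basis.repr_self, Finsupp.add_apply, Finsupp.smul_apply, smul_eq_mul,
      Finsupp.single_apply]
    simp only [eq_comm]
  have h1 : ∀ i, e.repr (x₀ • e 0 + x₁ • e 1 + x₂ • e 2) i = 0 := by
    intro i
    rw [h, map_zero]
    rfl
  have h00 := h1 0
  have h01 := h1 1
  have h02 := h1 2
  rw [hr] at h00 h01 h02
  simp at h00 h01 h02
  exact ⟨h00, h01, h02⟩

theorem S6_mk (e : Module.Basis (Fin 3) (ZMod p) V) (f g : Fin 3 → V)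
    (hfg : ∀ i, (e.constr (ZMod p) f) (g i) = e i) (hgf : ∀ i, (e.constr (ZMod p) g) (f i) = e i) :
    ∃ A : V ≃ₗ[ZMod p] V, ∀ i, A (e i) = f i := by
  refine ⟨LinearEquiv.ofLinearMap (e.constr (ZMod p) f) (e.constr (ZMod p) g) ?_ ?_, fun i => ?_⟩
  · apply e.ext
    intro i
    rw [LinearMap.comp_apply, Module.Basis.constr_basis, hfg, LinearMap.id_apply]
  · apply e.ext
    intro i
    rw [LinearMap.comp_apply, Module.Basis.constr_basis, hgf, LinearMap.id_apply]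
  · exact Module.Basis.constr_basis e (ZMod p) f i

theorem S6_fin (h : Free3 p b) (e : Module.Basis (Fin 3) (ZMod p) V) (U : Submodule (ZMod p) V)
    (X₀ : Submodule (ZMod p) W) (A : V ≃ₗ[ZMod p] V) (hU : ∀ u ∈ U, A u = u)
    (hX : ∀ c₀ c₁ c₂ : ZMod p, c₀ • b (A (e 1)) (A (e 2)) + c₁ • b (A (e 2)) (A (e 0)) + c₂ • b (A (e 0)) (A (e 1)) =
      c₀ • b (e 1) (e 2) + c₁ • b (e 2) (e 0) + c₂ • b (e 0) (e 1) ↔
      c₀ • b (e 1) (e 2) + c₁ • b (e 2) (e 0) + c₂ • b (e 0) (e 1) ∈ X₀)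
    (hd : Module.finrank (ZMod p) (LinearMap.ker ((A : V →ₗ[ZMod p] V) - LinearMap.id)) ≤
      Module.finrank (ZMod p) U + Module.finrank (ZMod p) X₀) : Good b U X₀ := by
  obtain ⟨B₀, hB₀⟩ := exists_B0 h A
  refine ⟨A, B₀, hB₀, hU, ?_, hd⟩
  rintro ⟨w, hw⟩
  obtain ⟨c₀, c₁, c₂, rfl⟩ := (im_coord h e).1 w hw
  have h1 : (⟨c₀ • b (e 1) (e 2) + c₁ • b (e 2) (e 0) + c₂ • b (e 0) (e 1), hw⟩ : Im b) =
      c₀ • ⟨b (e 1) (e 2), S6_mem _ _⟩ + c₁ • ⟨b (e 2) (e 0), S6_mem _ _⟩ + c₂ • ⟨b (e 0) (e 1), S6_mem _ _⟩ := rfl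
  have h2 : ((B₀ ⟨c₀ • b (e 1) (e 2) + c₁ • b (e 2) (e 0) + c₂ • b (e 0) (e 1), hw⟩ : Im b) : W) =
      c₀ • b (A (e 1)) (A (e 2)) + c₁ • b (A (e 2)) (A (e 0)) + c₂ • b (A (e 0)) (A (e 1)) := by
    rw [h1, map_add, map_add, map_smul, map_smul, map_smul, Submodule.coe_add, Submodule.coe_add, Submodule.coe_smul,
      Submodule.coe_smul, Submodule.coe_smul, hB₀, hB₀, hB₀]
  rw [Subtype.ext_iff, h2]
  exact hX c₀ c₁ c₂

theorem S6_ker (e : Module.Basis (Fin 3) (ZMod p) V) (A : V ≃ₗ[ZMod p] V) (v : V)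
    (hv : v ∈ LinearMap.ker ((A : V →ₗ[ZMod p] V) - LinearMap.id)) :
    e.repr v 0 • A (e 0) + e.repr v 1 • A (e 1) + e.repr v 2 • A (e 2) =
      e.repr v 0 • e 0 + e.repr v 1 • e 1 + e.repr v 2 • e 2 := by
  have h1 : A v = v := by
    rw [LinearMap.mem_ker, LinearMap.sub_apply, LinearMap.id_apply, sub_eq_zero] at hv
    exact hv
  have h2 : A v = e.repr v 0 • A (e 0) + e.repr v 1 • A (e 1) + e.repr v 2 • A (e 2) := by
    conv_lhs => rw [S6_coord e v]
    rw [map_add, map_add, map_smul, map_smul, map_smul]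
  rw [← h2, ← S6_coord]
  exact h1

theorem S6_two (h : Free3 p b) : (2 : ZMod p) ≠ 0 := by
  have : Fact p.Prime := ⟨h.prime⟩
  intro h2
  have h3 : ((2 : ℕ) : ZMod p) = 0 := by exact_mod_cast h2
  rw [ZMod.natCast_eq_zero_iff] at h3
  rcases (Nat.dvd_prime Nat.prime_two).1 h3 with h4 | h4
  · exact h.prime.one_lt.ne' h4
  · exact h.odd h4

theorem S6_double (h : Free3 p b) {x : ZMod p} (hx : x + x = 0) : x = 0 := by
  have : Fact p.Prime := ⟨h.prime⟩
  rw [← two_mul] at hx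
  exact (mul_eq_zero.1 hx).resolve_left (S6_two h)

theorem S6_w2 (h : Free3 p b) (e : Module.Basis (Fin 3) (ZMod p) V) (c₀ c₁ c₂ : ZMod p) :
    c₀ • b (e 1) (e 2) + c₁ • b (e 2) (e 0) + c₂ • b (e 0) (e 1) ∈ Submodule.span (ZMod p) {b (e 0) (e 1)} ↔
      c₀ = 0 ∧ c₁ = 0 := by
  rw [Submodule.mem_span_singleton]
  constructor
  · rintro ⟨c, hc⟩
    have h1 := (im_coord h e).2 c₀ c₁ (c₂ - c) (by rw [sub_smul, hc]; abel)
    exact ⟨h1.1, h1.2.1⟩
  · rintro ⟨rfl, rfl⟩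
    exact ⟨c₂, by rw [zero_smul, zero_smul, zero_add, zero_add]⟩

theorem S6_fr (h : Free3 p b) (e : Module.Basis (Fin 3) (ZMod p) V) :
    Module.finrank (ZMod p) (Submodule.span (ZMod p) {b (e 0) (e 1)}) = 1 := by
  have : Fact p.Prime := ⟨h.prime⟩
  apply finrank_span_singleton
  intro h0
  have h1 := ((im_coord h e).2 0 0 1 (by rw [h0]; simp)).2.2
  exact one_ne_zero h1

/-- PROOF. `A e₀ = e₀`, `A e₁ = e₁`, `A e₂ = 2 e₂`; `B₀ w₀ = 2 w₀`, `B₀ w₁ = 2 w₁`, `B₀ w₂ = w₂`: fixed space `⟨w₂⟩`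
(`2 ≠ 1`).  Fixed space of `A`: `⟨e₀, e₁⟩`, `2 ≤ 1 + 1`. -/
theorem good_one (h : Free3 p b) (e : Module.Basis (Fin 3) (ZMod p) V)
    (U : Submodule (ZMod p) V) (hU : U ≤ Submodule.span (ZMod p) {e 0, e 1}) (hU0 : U ≠ ⊥) :
    Good b U (Submodule.span (ZMod p) {b (e 0) (e 1)}) := by
  have : Fact p.Prime := ⟨h.prime⟩
  have := h.finV
  have h2 := S6_two h
  obtain ⟨A, hA⟩ := S6_mk e ![e 0, e 1, (2 : ZMod p) • e 2] ![e 0, e 1, (2 : ZMod p)⁻¹ • e 2] (by
    intro i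
    fin_cases i <;> simp [h2, -Module.Basis.constr_apply_fintype, Module.Basis.constr_basis]) (by
    intro i
    fin_cases i <;> simp [h2, -Module.Basis.constr_apply_fintype, Module.Basis.constr_basis])
  have hA0 : A (e 0) = e 0 := hA 0
  have hA1 : A (e 1) = e 1 := hA 1
  have hA2 : A (e 2) = (2 : ZMod p) • e 2 := hA 2
  have hfix : ∀ u ∈ Submodule.span (ZMod p) {e 0, e 1}, A u = u := by
    intro u hu
    obtain ⟨x, y, rfl⟩ := Submodule.mem_span_pair.1 hu
    rw [map_add, map_smul, map_smul, hA0, hA1]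
  refine S6_fin h e U _ A (fun u hu => hfix u (hU hu)) ?_ ?_
  · intro c₀ c₁ c₂
    rw [S6_w2 h e, hA0, hA1, hA2]
    constructor
    · intro heq
      have h1 := (im_coord h e).2 c₀ c₁ 0 (by
        simp only [map_smul, LinearMap.smul_apply] at heq
        rw [← sub_eq_zero] at heq
        rw [← heq]
        module)
      exact ⟨h1.1, h1.2.1⟩
    · rintro ⟨rfl, rfl⟩
      simp
  · rw [S6_fr h e]
    have hle : LinearMap.ker ((A : V →ₗ[ZMod p] V) - LinearMap.id) ≤ Submodule.span (ZMod p) (Set.range ![e 0, e 1]) := by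
      intro v hv
      have h1 := S6_ker e A v hv
      rw [hA0, hA1, hA2] at h1
      have h3 := (S6_indep e (x₀ := 0) (x₁ := 0) (x₂ := e.repr v 2) (by
        rw [← sub_eq_zero] at h1
        rw [← h1]
        module)).2.2
      rw [S6_coord e v, h3, zero_smul, add_zero]
      exact Submodule.add_mem _ (Submodule.smul_mem _ _ (Submodule.subset_span ⟨0, rfl⟩))
        (Submodule.smul_mem _ _ (Submodule.subset_span ⟨1, rfl⟩))
    have h4 := (Submodule.finrank_mono hle).trans (finrank_range_le_card (R := ZMod p) ![e 0, e 1])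
    rw [Fintype.card_fin] at h4
    have h5 : 0 < Module.finrank (ZMod p) U := by
      rw [Nat.pos_iff_ne_zero]
      exact fun h6 => hU0 (Submodule.finrank_eq_zero.1 h6)
    omega

/-- PROOF. `A e₀ = -e₀`, `A e₁ = -e₁`, `A e₂ = e₂`; `B₀ w₀ = -w₀`, `B₀ w₁ = -w₁`, `B₀ w₂ = w₂`: fixed space `⟨w₂⟩`
(`p` odd).  Fixed space of `A`: `⟨e₂⟩`, `1 ≤ finrank U + 1`. -/
theorem good_one' (h : Free3 p b) (e : Module.Basis (Fin 3) (ZMod p) V)
    (U : Submodule (ZMod p) V) (hU : U ≤ Submodule.span (ZMod p) {e 2}) :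
    Good b U (Submodule.span (ZMod p) {b (e 0) (e 1)}) := by
  have : Fact p.Prime := ⟨h.prime⟩
  have := h.finV
  obtain ⟨A, hA⟩ := S6_mk e ![-e 0, -e 1, e 2] ![-e 0, -e 1, e 2] (by
    intro i
    fin_cases i <;> simp [-Module.Basis.constr_apply_fintype, Module.Basis.constr_basis]) (by
    intro i
    fin_cases i <;> simp [-Module.Basis.constr_apply_fintype, Module.Basis.constr_basis])
  have hA0 : A (e 0) = -e 0 := hA 0
  have hA1 : A (e 1) = -e 1 := hA 1
  have hA2 : A (e 2) = e 2 := hA 2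
  refine S6_fin h e U _ A (fun u hu => ?_) ?_ ?_
  · obtain ⟨x, rfl⟩ := Submodule.mem_span_singleton.1 (hU hu)
    rw [map_smul, hA2]
  · intro c₀ c₁ c₂
    rw [S6_w2 h e, hA0, hA1, hA2]
    constructor
    · intro heq
      have h1 := (im_coord h e).2 (c₀ + c₀) (c₁ + c₁) 0 (by
        simp only [map_neg, LinearMap.neg_apply, neg_neg] at heq
        have heq' := heq.symm
        rw [← sub_eq_zero] at heq'
        rw [← heq']
        module)
      exact ⟨S6_double h h1.1, S6_double h h1.2.1⟩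
    · rintro ⟨rfl, rfl⟩
      simp
  · rw [S6_fr h e]
    have hle : LinearMap.ker ((A : V →ₗ[ZMod p] V) - LinearMap.id) ≤ Submodule.span (ZMod p) {e 2} := by
      intro v hv
      have h1 := S6_ker e A v hv
      rw [hA0, hA1, hA2] at h1
      have h3 := S6_indep e (x₀ := e.repr v 0 + e.repr v 0) (x₁ := e.repr v 1 + e.repr v 1) (x₂ := 0) (by
        have h1' := h1.symm
        rw [← sub_eq_zero] at h1'
        rw [← h1']
        module)
      rw [S6_coord e v, S6_double h h3.1, S6_double h h3.2.1, zero_smul, zero_smul, zero_add, zero_add]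
      exact Submodule.smul_mem _ _ (Submodule.mem_span_singleton_self _)
    have h4 := Submodule.finrank_mono hle
    rw [finrank_span_singleton (e.ne_zero 2)] at h4
    omega

/-- PROOF. `A e₀ = e₀`, `A e₁ = e₂`, `A e₂ = e₁ + e₂`; `B₀ w₀ = -w₀`, `B₀ w₁ = w₁ - w₂`, `B₀ w₂ = -w₁`
(`b (e₁ + e₂) e₀ = w₁ - w₂`, `b e₀ e₂ = - w₁`): no nonzero fixed vector.  Fixed space of `A`: `⟨e₀⟩`. -/
theorem good_zero (h : Free3 p b) (e : Module.Basis (Fin 3) (ZMod p) V) :
    Good b (Submodule.span (ZMod p) {e 0}) (⊥ : Submodule (ZMod p) W) := by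
  have : Fact p.Prime := ⟨h.prime⟩
  have := h.finV
  obtain ⟨A, hA⟩ := S6_mk e ![e 0, e 2, e 1 + e 2] ![e 0, e 2 - e 1, e 1] (by
    intro i
    fin_cases i <;> simp [-Module.Basis.constr_apply_fintype, Module.Basis.constr_basis]) (by
    intro i
    fin_cases i <;> simp [-Module.Basis.constr_apply_fintype, Module.Basis.constr_basis])
  have hA0 : A (e 0) = e 0 := hA 0
  have hA1 : A (e 1) = e 2 := hA 1
  have hA2 : A (e 2) = e 1 + e 2 := hA 2
  have a10 := S6_anti h (e 0) (e 1)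
  have a02 := S6_anti h (e 2) (e 0)
  have a21 := S6_anti h (e 1) (e 2)
  refine S6_fin h e _ _ A (fun u hu => ?_) ?_ ?_
  · obtain ⟨x, rfl⟩ := Submodule.mem_span_singleton.1 hu
    rw [map_smul, hA0]
  · intro c₀ c₁ c₂
    rw [hA0, hA1, hA2, Submodule.mem_bot]
    simp only [map_add, LinearMap.add_apply, h.alt, a10, a02, a21, add_zero]
    constructor
    · intro heq
      have h1 := (im_coord h e).2 (c₀ + c₀) c₂ (c₁ + c₂) (by
        have heq' := heq.symm
        rw [← sub_eq_zero] at heq'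
        rw [← heq']
        module)
      have hc0 := S6_double h h1.1
      have hc2 := h1.2.1
      have hc1 := h1.2.2
      rw [hc2, add_zero] at hc1
      rw [hc0, hc1, hc2]
      simp
    · intro heq
      obtain ⟨rfl, rfl, rfl⟩ := (im_coord h e).2 c₀ c₁ c₂ heq
      simp
  · rw [finrank_bot, add_zero]
    apply Submodule.finrank_mono
    intro v hv
    have h1 := S6_ker e A v hv
    rw [hA0, hA1, hA2] at h1
    have h3 := S6_indep e (x₀ := 0) (x₁ := e.repr v 2 - e.repr v 1) (x₂ := e.repr v 1) (by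
      rw [← sub_eq_zero] at h1
      rw [← h1]
      module)
    have hx1 := h3.2.2
    have hx2 := h3.2.1
    rw [hx1, sub_zero] at hx2
    rw [S6_coord e v, hx1, hx2, zero_smul, zero_smul, add_zero, add_zero]
    exact Submodule.smul_mem _ _ (Submodule.mem_span_singleton_self _)

/-- PROOF. `A e₀ = -e₀`, `A e₁ = e₂`, `A e₂ = e₁ + e₂`; `B₀ w₀ = -w₀`, `B₀ w₁ = w₂ - w₁`, `B₀ w₂ = w₁`: no nonzero
fixed vector (`w₁`-coordinate: `c₂ - c₁ = c₁`, `w₂`-coordinate: `c₁ = c₂`).  `A` has no nonzero fixed vector. -/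
theorem good_zero' (h : Free3 p b) (e : Module.Basis (Fin 3) (ZMod p) V) :
    Good b (⊥ : Submodule (ZMod p) V) (⊥ : Submodule (ZMod p) W) := by
  have : Fact p.Prime := ⟨h.prime⟩
  have := h.finV
  obtain ⟨A, hA⟩ := S6_mk e ![-e 0, e 2, e 1 + e 2] ![-e 0, e 2 - e 1, e 1] (by
    intro i
    fin_cases i <;> simp [-Module.Basis.constr_apply_fintype, Module.Basis.constr_basis]) (by
    intro i
    fin_cases i <;> simp [-Module.Basis.constr_apply_fintype, Module.Basis.constr_basis])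
  have hA0 : A (e 0) = -e 0 := hA 0
  have hA1 : A (e 1) = e 2 := hA 1
  have hA2 : A (e 2) = e 1 + e 2 := hA 2
  have a10 := S6_anti h (e 0) (e 1)
  have a02 := S6_anti h (e 2) (e 0)
  have a21 := S6_anti h (e 1) (e 2)
  refine S6_fin h e _ _ A (fun u hu => ?_) ?_ ?_
  · rw [Submodule.mem_bot] at hu
    rw [hu, map_zero]
  · intro c₀ c₁ c₂
    rw [hA0, hA1, hA2, Submodule.mem_bot]
    simp only [map_add, map_neg, LinearMap.add_apply, LinearMap.neg_apply, h.alt, a10, a02, a21, add_zero, neg_neg]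
    constructor
    · intro heq
      have h1 := (im_coord h e).2 (c₀ + c₀) (c₁ + c₁ - c₂) (c₂ - c₁) (by
        have heq' := heq.symm
        rw [← sub_eq_zero] at heq'
        rw [← heq']
        module)
      have hc0 := S6_double h h1.1
      have hc21 := sub_eq_zero.1 h1.2.2
      have hc1 := h1.2.1
      rw [hc21, add_sub_cancel_right] at hc1
      rw [hc1] at hc21
      rw [hc0, hc1, hc21]
      simp
    · intro heq
      obtain ⟨rfl, rfl, rfl⟩ := (im_coord h e).2 c₀ c₁ c₂ heq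
      simp
  · rw [finrank_bot, finrank_bot, add_zero, Nat.le_zero, Submodule.finrank_eq_zero, eq_bot_iff]
    intro v hv
    have h1 := S6_ker e A v hv
    rw [hA0, hA1, hA2] at h1
    have h3 := S6_indep e (x₀ := -(e.repr v 0 + e.repr v 0)) (x₁ := e.repr v 2 - e.repr v 1) (x₂ := e.repr v 1) (by
      rw [← sub_eq_zero] at h1
      rw [← h1]
      module)
    have hx0 := S6_double h (neg_eq_zero.1 h3.1)
    have hx1 := h3.2.2
    have hx2 := h3.2.1
    rw [hx1, sub_zero] at hx2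
    rw [Submodule.mem_bot, S6_coord e v, hx0, hx1, hx2, zero_smul, zero_smul, zero_smul, add_zero, add_zero]

end FPY
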