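import Pool.Agent.FPY.S4

set_option autoImplicit false

namespace FPY

variable {p : ℕ} {V W : Type} [AddCommGroup V] [Module (ZMod p) V] [AddCommGroup W]
  [Module (ZMod p) W] {b : V →ₗ[ZMod p] V →ₗ[ZMod p] W}

theorem S7_anti (h : Free3 p b) (x y : V) : b y x = -b x y := by
  have h1 := h.alt (x + y)
  simp only [map_add, LinearMap.add_apply, h.alt, zero_add, add_zero] at h1
  rw [eq_neg_iff_add_eq_zero]
  exact h1

theorem S7_mem (x y : V) : b x y ∈ Im b := Submodule.subset_span ⟨(x, y), rfl⟩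

theorem S7_basis (h : Free3 p b) (x y : V) (hx : x ≠ 0) (hy : ∀ c : ZMod p, y ≠ c • x) :
    ∃ e : Module.Basis (Fin 3) (ZMod p) V, e 1 = x ∧ e 2 = y := by
  have : Fact p.Prime := ⟨h.prime⟩
  have := h.finV
  have hli : LinearIndependent (ZMod p) ![x, y] := by
    rw [LinearIndependent.pair_iff' hx]
    exact fun a ha => hy a ha.symm
  obtain ⟨z, hz⟩ : ∃ z, z ∉ Submodule.span (ZMod p) (Set.range ![x, y]) := by
    by_contra hcon
    push Not at hcon
    have h1 : Submodule.span (ZMod p) (Set.range ![x, y]) = ⊤ := by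
      rw [eq_top_iff]
      exact fun z _ => hcon z
    have h2 := finrank_span_eq_card hli
    rw [h1, finrank_top, h.dV] at h2
    simp at h2
  have hli3 : LinearIndependent (ZMod p) (Fin.cons z ![x, y] : Fin 3 → V) := linearIndependent_finCons.2 ⟨hli, hz⟩
  refine ⟨basisOfLinearIndependentOfCardEqFinrank hli3 (by rw [h.dV]; simp), ?_, ?_⟩
  · rw [coe_basisOfLinearIndependentOfCardEqFinrank]
    rfl
  · rw [coe_basisOfLinearIndependentOfCardEqFinrank]
    rfl

/-- Linearly independent vectors have `b x y ≠ 0`; every element of `Im b` is a value of `b`.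
PROOF. First part: extend `x, y` to a basis `e` with `e 0 = x`, `e 1 = y`; `im_coord`.
Second part: `e` any basis, `w = c₀ w₀ + c₁ w₁ + c₂ w₂` (`w₀ = b e₁ e₂`, ...).  If `c₀ ≠ 0`:
`x = e₁ - (c₁/c₀) e₀`, `y = c₀ e₂ - c₂ e₀`: `b x y = c₀ w₀ - c₂ b e₁ e₀ - c₁ b e₀ e₂ = c₀ w₀ + c₂ w₂ + c₁ w₁`.
If `c₀ = 0`: `x = e₀`, `y = c₂ e₁ - c₁ e₂`. -/
theorem b_ne (h : Free3 p b) (x y : V) (hx : x ≠ 0) (hy : ∀ c : ZMod p, y ≠ c • x) :
    b x y ≠ 0 := by
  have : Fact p.Prime := ⟨h.prime⟩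
  obtain ⟨e, he1, he2⟩ := S7_basis h x y hx hy
  intro h0
  have h1 := ((im_coord h e).2 1 0 0 (by rw [he1, he2, h0]; simp)).1
  exact one_ne_zero h1

theorem im_value (h : Free3 p b) (w : W) (hw : w ∈ Im b) : ∃ x y, b x y = w := by
  have : Fact p.Prime := ⟨h.prime⟩
  have := h.finV
  let e := Module.finBasisOfFinrankEq (ZMod p) V h.dV
  obtain ⟨c₀, c₁, c₂, rfl⟩ := (im_coord h e).1 w hw
  have a10 := S7_anti h (e 0) (e 1)
  have a02 := S7_anti h (e 2) (e 0)
  by_cases hc : c₀ = 0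
  · refine ⟨e 0, c₂ • e 1 - c₁ • e 2, ?_⟩
    rw [map_sub, map_smul, map_smul, a02, hc]
    module
  · refine ⟨e 1 - (c₁ / c₀) • e 0, c₀ • e 2 - c₂ • e 0, ?_⟩
    simp only [map_sub, LinearMap.sub_apply, map_smul, LinearMap.smul_apply, a02, a10, h.alt]
    have h3 : (c₁ / c₀) * c₀ = c₁ := div_mul_cancel₀ _ hc
    have h4 : c₁ • b (e 2) (e 0) = ((c₁ / c₀) * c₀) • b (e 2) (e 0) := by rw [h3]
    rw [h4]
    module

/-- A subspace of dimension two of `Im b` is `b(v₀, V)`.  PROOF. There is `φ : W → ZMod p` with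
`X₀ = {w ∈ Im b | φ w = 0}` (extend a functional of `Im b` with kernel `X₀`, `Im b / X₀` of dimension one).  The
alternating form `φ (b x y)` on the space `V` of dimension `3` is degenerate: its matrix in the basis `e` is
determined by `a₀ = φ (b e₁ e₂)`, `a₁ = φ (b e₂ e₀)`, `a₂ = φ (b e₀ e₁)`, not all `0`, and `v₀ = a₀ e₀ + a₁ e₁ + a₂ e₂` is in
the radical.  So `b v₀ v ∈ X₀` for all `v`; the range of `b v₀` has dimension two (kernel `⟨v₀⟩` by `b_ne`), so it
is `X₀`. -/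
theorem plane_value (h : Free3 p b) (X₀ : Submodule (ZMod p) W) (hX : X₀ ≤ Im b)
    (hd : Module.finrank (ZMod p) X₀ = 2) :
    ∃ v₀, v₀ ≠ 0 ∧ ∀ w, w ∈ X₀ ↔ ∃ v, b v₀ v = w := by
  have : Fact p.Prime := ⟨h.prime⟩
  have := h.finV
  have := h.finW
  let e := Module.finBasisOfFinrankEq (ZMod p) V h.dV
  obtain ⟨hspan, -⟩ := im_coord h e
  have hY : Module.finrank (ZMod p) (X₀.comap (Im b).subtype) = 2 := by
    rw [← hd]
    exact (Submodule.comapSubtypeEquivOfLe hX).finrank_eq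
  have hYt : X₀.comap (Im b).subtype < ⊤ := by
    rw [lt_top_iff_ne_top]
    intro h1
    rw [h1, finrank_top, h.dI] at hY
    omega
  obtain ⟨ψ, hψ, hle⟩ := Submodule.exists_le_ker_of_lt_top _ hYt
  have hker : LinearMap.ker ψ = X₀.comap (Im b).subtype := by
    symm
    apply Submodule.eq_of_le_of_finrank_le hle
    rw [hY]
    have h1 := ψ.finrank_range_add_finrank_ker
    rw [h.dI] at h1
    have h2 : 0 < Module.finrank (ZMod p) (LinearMap.range ψ) := by
      rw [Nat.pos_iff_ne_zero]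
      intro h3
      apply hψ
      rw [← LinearMap.range_eq_bot]
      exact Submodule.finrank_eq_zero.1 h3
    omega
  have hmem : ∀ w (hw : w ∈ Im b), w ∈ X₀ ↔ ψ ⟨w, hw⟩ = 0 := by
    intro w hw
    rw [← LinearMap.mem_ker, hker]
    rfl
  set a₀ := ψ ⟨b (e 1) (e 2), S7_mem _ _⟩ with ha₀
  set a₁ := ψ ⟨b (e 2) (e 0), S7_mem _ _⟩ with ha₁
  set a₂ := ψ ⟨b (e 0) (e 1), S7_mem _ _⟩ with ha₂
  have hψc : ∀ (c₀ c₁ c₂ : ZMod p) (hw : c₀ • b (e 1) (e 2) + c₁ • b (e 2) (e 0) + c₂ • b (e 0) (e 1) ∈ Im b),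
      ψ ⟨c₀ • b (e 1) (e 2) + c₁ • b (e 2) (e 0) + c₂ • b (e 0) (e 1), hw⟩ = c₀ * a₀ + c₁ * a₁ + c₂ * a₂ := by
    intro c₀ c₁ c₂ hw
    have h1 : (⟨c₀ • b (e 1) (e 2) + c₁ • b (e 2) (e 0) + c₂ • b (e 0) (e 1), hw⟩ : Im b) =
        c₀ • ⟨b (e 1) (e 2), S7_mem _ _⟩ + c₁ • ⟨b (e 2) (e 0), S7_mem _ _⟩ + c₂ • ⟨b (e 0) (e 1), S7_mem _ _⟩ := rfl
    rw [h1, map_add, map_add, map_smul, map_smul, map_smul, smul_eq_mul, smul_eq_mul, smul_eq_mul]
  set v₀ := a₀ • e 0 + a₁ • e 1 + a₂ • e 2 with hv₀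
  have hv₀0 : v₀ ≠ 0 := by
    intro h0
    have h1 : ∀ i, e.repr v₀ i = 0 := by
      intro i
      rw [h0, map_zero]
      rfl
    have hr : ∀ i, e.repr v₀ i = a₀ * (if i = 0 then 1 else 0) + a₁ * (if i = 1 then 1 else 0) + a₂ * (if i = 2 then 1 else 0) := by
      intro i
      rw [hv₀]
      simp only [map_add, map_smul, Module.Basis.repr_self, Finsupp.add_apply, Finsupp.smul_apply, smul_eq_mul, Finsupp.single_apply]
      simp only [eq_comm]
    have h00 := h1 0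
    have h01 := h1 1
    have h02 := h1 2
    rw [hr] at h00 h01 h02
    simp at h00 h01 h02
    apply hψ
    ext ⟨w, hw⟩
    obtain ⟨c₀, c₁, c₂, rfl⟩ := hspan w hw
    rw [hψc, h00, h01, h02]
    simp
  refine ⟨v₀, hv₀0, ?_⟩
  have a10 := S7_anti h (e 0) (e 1)
  have a02 := S7_anti h (e 2) (e 0)
  have a21 := S7_anti h (e 1) (e 2)
  have hval : ∀ v, b v₀ v = (a₁ * e.repr v 2 - a₂ * e.repr v 1) • b (e 1) (e 2) +
      (a₂ * e.repr v 0 - a₀ * e.repr v 2) • b (e 2) (e 0) + (a₀ * e.repr v 1 - a₁ * e.repr v 0) • b (e 0) (e 1) := by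
    intro v
    conv_lhs => rw [← e.sum_repr v]
    rw [Fin.sum_univ_three, hv₀]
    simp only [map_add, map_smul, LinearMap.add_apply, LinearMap.smul_apply, h.alt, a10, a02, a21]
    module
  have hrange : LinearMap.range (b v₀) = X₀ := by
    apply Submodule.eq_of_le_of_finrank_eq
    · rintro _ ⟨v, rfl⟩
      have h0 : b v₀ v ∈ Im b := S7_mem _ _
      rw [hmem _ h0]
      revert h0
      rw [hval v]
      intro h0
      rw [hψc]
      ring
    · have h1 := (b v₀).finrank_range_add_finrank_ker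
      have h2 : LinearMap.ker (b v₀) = Submodule.span (ZMod p) {v₀} := by
        ext y
        rw [LinearMap.mem_ker, Submodule.mem_span_singleton]
        constructor
        · intro hy
          by_contra hcon
          push Not at hcon
          exact b_ne h v₀ y hv₀0 (fun c hc => hcon c hc.symm) hy
        · rintro ⟨c, rfl⟩
          rw [map_smul, h.alt, smul_zero]
      rw [h2, finrank_span_singleton hv₀0, h.dV] at h1
      omega
  intro w
  rw [← hrange]
  exact Iff.rfl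

end FPY
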