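import Pool.Agent.FPY.S6
import Pool.Agent.FPY.S7

set_option autoImplicit false

namespace FPY

variable {p : ℕ} {V W : Type} [AddCommGroup V] [Module (ZMod p) V] [AddCommGroup W]
  [Module (ZMod p) W] {b : V →ₗ[ZMod p] V →ₗ[ZMod p] W}

private theorem S8_notin (h : Free3 p b) (s : Finset V) (hs : s.card ≤ 2) :
    ∃ u, u ∉ Submodule.span (ZMod p) (s : Set V) := by
  have : Fact p.Prime := ⟨h.prime⟩
  by_contra hne
  push Not at hne
  have ht : Submodule.span (ZMod p) (s : Set V) = ⊤ := eq_top_iff.mpr fun v _ => hne v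
  have h1 := finrank_span_finset_le_card (R := ZMod p) s
  unfold Set.finrank at h1
  rw [ht, finrank_top, h.dV] at h1
  omega

/-- PROOF. `u` is not in the span of `x, y`. -/
theorem S8_three (h : Free3 p b) (x y u : V) (hx : x ≠ 0) (hy : ∀ c : ZMod p, y ≠ c • x)
    (hu : u ∉ Submodule.span (ZMod p) {x, y}) :
    ∃ e : Module.Basis (Fin 3) (ZMod p) V, e 0 = x ∧ e 1 = y ∧ e 2 = u := by
  have : Fact p.Prime := ⟨h.prime⟩
  have hli : LinearIndependent (ZMod p) ![x, y, u] := by
    rw [Fintype.linearIndependent_iff]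
    intro g hg
    rw [Fin.sum_univ_three] at hg
    simp only [Matrix.cons_val_zero, Matrix.cons_val_one, Matrix.cons_val] at hg
    have g2 : g 2 = 0 := by
      by_contra h2
      apply hu
      have hx1 : x ∈ Submodule.span (ZMod p) ({x, y} : Set V) :=
        Submodule.subset_span (by simp)
      have hy1 : y ∈ Submodule.span (ZMod p) ({x, y} : Set V) :=
        Submodule.subset_span (by simp)
      have h3 : u = (g 2)⁻¹ • (-(g 0 • x) - g 1 • y) := by
        rw [eq_inv_smul_iff₀ h2]
        have h4 : g 2 • u = (g 0 • x + g 1 • y + g 2 • u) - g 0 • x - g 1 • y := by abel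
        rw [h4, hg]
        abel
      rw [h3]
      exact Submodule.smul_mem _ _ (Submodule.sub_mem _ (Submodule.neg_mem _
        (Submodule.smul_mem _ _ hx1)) (Submodule.smul_mem _ _ hy1))
    rw [g2, zero_smul, add_zero] at hg
    have g1 : g 1 = 0 := by
      by_contra h2
      apply hy (-((g 1)⁻¹ * g 0))
      have h4 : g 1 • y = -(g 0 • x) := by
        rw [eq_neg_iff_add_eq_zero, add_comm]
        exact hg
      rw [neg_smul, mul_smul, ← smul_neg, ← h4, inv_smul_smul₀ h2]
    rw [g1, zero_smul, add_zero] at hg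
    have g0 : g 0 = 0 := (smul_eq_zero.mp hg).resolve_right hx
    intro i
    fin_cases i
    · exact g0
    · exact g1
    · exact g2
  refine ⟨basisOfLinearIndependentOfCardEqFinrank hli (by rw [Fintype.card_fin, h.dV]), ?_, ?_, ?_⟩
  · simp
  · simp
  · simp

/-- Bases adapted to vectors and subspaces of a space of dimension three.  PROOF. Extend linearly independent
families to bases. -/
theorem basis_one (h : Free3 p b) (x : V) (hx : x ≠ 0) :
    ∃ e : Module.Basis (Fin 3) (ZMod p) V, e 0 = x := by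
  classical
  obtain ⟨y, hy⟩ := S8_notin h {x} (by simp)
  obtain ⟨u, hu⟩ := S8_notin h {x, y} Finset.card_le_two
  obtain ⟨e, h0, -, -⟩ := S8_three h x y u hx
    (fun c hc => hy (by
      rw [hc]
      exact Submodule.smul_mem _ _ (Submodule.subset_span (by simp)))) (by
      simpa using hu)
  exact ⟨e, h0⟩

theorem basis_two (h : Free3 p b) (x y : V) (hx : x ≠ 0) (hy : ∀ c : ZMod p, y ≠ c • x) :
    ∃ e : Module.Basis (Fin 3) (ZMod p) V, e 0 = x ∧ e 1 = y := by
  classical
  obtain ⟨u, hu⟩ := S8_notin h {x, y} Finset.card_le_two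
  obtain ⟨e, h0, h1, -⟩ := S8_three h x y u hx hy (by simpa using hu)
  exact ⟨e, h0, h1⟩

/-- PROOF. `u` is not in the span of `x, y`. -/
theorem basis_three (h : Free3 p b) (x y u : V) (hx : x ≠ 0) (hy : ∀ c : ZMod p, y ≠ c • x)
    (hu : u ∉ Submodule.span (ZMod p) {x, y}) :
    ∃ e : Module.Basis (Fin 3) (ZMod p) V, e 0 = x ∧ e 1 = y ∧ e 2 = u :=
  S8_three h x y u hx hy hu

end FPY
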