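import Pool.Agent.FPY.S8

set_option autoImplicit false

namespace FPY

variable {p : ℕ} {V W : Type} [AddCommGroup V] [Module (ZMod p) V] [AddCommGroup W]
  [Module (ZMod p) W] {b : V →ₗ[ZMod p] V →ₗ[ZMod p] W}

/-- PROOF. `X₀` has dimension two: `plane_value` gives `v₀`.  Claim: `U ≤ span {v₀, y}` for some `y` not a multiple
of `v₀`.  `U ≠ ⊤` (otherwise `X₀ ≥ Im b`, dimension `3`).  If `finrank U ≤ 1`: `U ≤ span {u}`, clear.  If
`finrank U = 2`: `v₀ ∈ U`, because otherwise `U = span {u, u'}`, `v₀, u, u'` is a basis (`basis_three`), and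
`b u u' ∈ X₀`, `b u u' = b v₀ v`, `v = c v₀ + α u + β u'`: `b u u' - α b v₀ u - β b v₀ u' = 0`, contradiction to
`im_coord`.  So `U = span {v₀, y}`.  `basis_two`: `e 0 = v₀`, `e 1 = y`; `X₀ = b(v₀, V) = span {b (e 2) (e 0), b (e 0) (e 1)}`;
`good_two`. -/
theorem good_dim_two (h : Free3 p b) (U : Submodule (ZMod p) V) (X₀ : Submodule (ZMod p) W)
    (hX : X₀ ≤ Im b) (hUX : ∀ u ∈ U, ∀ v ∈ U, b u v ∈ X₀)
    (hd : Module.finrank (ZMod p) X₀ = 2) : Good b U X₀ := by
  have : Fact p.Prime := ⟨h.prime⟩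
  obtain ⟨v₀, hv₀, hv⟩ := plane_value h X₀ hX hd
  obtain ⟨y, hy, hUy⟩ : ∃ y, (∀ c : ZMod p, y ≠ c • v₀) ∧ U ≤ Submodule.span (ZMod p) {v₀, y} := by
    by_cases hU : U ≤ Submodule.span (ZMod p) {v₀}
    · obtain ⟨e, he⟩ := basis_one h v₀ hv₀
      refine ⟨e 1, ?_, hU.trans (Submodule.span_mono (by simp))⟩
      intro c hc
      rw [← he] at hc
      have h1 := (S6_indep e (x₀ := -c) (x₁ := 1) (x₂ := 0) (by rw [hc]; module)).2.1
      exact one_ne_zero h1
    · obtain ⟨u, huU, hu⟩ := SetLike.not_le_iff_exists.1 hU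
      have hu' : ∀ c : ZMod p, u ≠ c • v₀ := fun c hc => hu (Submodule.mem_span_singleton.2 ⟨c, hc.symm⟩)
      refine ⟨u, hu', ?_⟩
      intro u' hu'U
      by_contra hcon
      obtain ⟨e, he0, he1, he2⟩ := basis_three h v₀ u u' hv₀ hu' hcon
      obtain ⟨v, hv'⟩ := (hv _).1 (hUX u huU u' hu'U)
      rw [S6_coord e v, he0, he1, he2] at hv'
      simp only [map_add, map_smul, h.alt, smul_zero, zero_add] at hv'
      have h1 := ((im_coord h e).2 1 (e.repr v 2) (-(e.repr v 1)) (by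
        rw [he0, he1, he2, S6_anti h v₀ u', ← hv']
        module)).1
      exact one_ne_zero h1
  obtain ⟨e, he0, he1⟩ := basis_two h v₀ y hv₀ hy
  have hX0 : X₀ = Submodule.span (ZMod p) {b (e 2) (e 0), b (e 0) (e 1)} := by
    ext w
    rw [hv, Submodule.mem_span_pair]
    constructor
    · rintro ⟨v, rfl⟩
      refine ⟨-(e.repr v 2), e.repr v 1, ?_⟩
      conv_rhs => rw [S6_coord e v]
      rw [he0, S6_anti h v₀ (e 2)]
      simp only [map_add, map_smul, h.alt, smul_zero, zero_add]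
      module
    · rintro ⟨c, c', rfl⟩
      refine ⟨c' • e 1 - c • e 2, ?_⟩
      rw [map_sub, map_smul, map_smul, he0, S6_anti h v₀ (e 2)]
      module
  rw [hX0]
  refine good_two h e U ?_
  rw [he0, he1]
  exact hUy

/-- PROOF. `X₀ = span {w}`, `w ≠ 0`, `w = b x y` (`im_value`), `x, y` linearly independent.
`U = ⊥`: `basis_two` for `x, y`, `good_one'`.
`U = span {u}`, `u ≠ 0`: if `u ∈ span {x, y}`: `basis_two` for `x, y`, `good_one`; otherwise `basis_three` for `x, y, u`,
`good_one'`.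
`finrank U ≥ 2`: there are `u, u' ∈ U` linearly independent; `b u u' ≠ 0` (`b_ne`) spans `X₀`.  `U = span {u, u'}`:
otherwise there is `u'' ∈ U` not in the span, `basis_three`, and `b u u', b u u''` are linearly independent elements
of `X₀` (`im_coord`), contradiction.  `basis_two` for `u, u'`, `good_one`. -/
theorem good_dim_one (h : Free3 p b) (U : Submodule (ZMod p) V) (X₀ : Submodule (ZMod p) W)
    (hX : X₀ ≤ Im b) (hUX : ∀ u ∈ U, ∀ v ∈ U, b u v ∈ X₀)
    (hd : Module.finrank (ZMod p) X₀ = 1) : Good b U X₀ := by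
  have : Fact p.Prime := ⟨h.prime⟩
  have := h.finW
  obtain ⟨⟨w, hwX⟩, hw0, hspan⟩ := (finrank_eq_one_iff' (K := ZMod p) (V := X₀)).1 hd
  have hw0' : w ≠ 0 := fun h0 => hw0 (Subtype.ext h0)
  have hXw : ∀ z ∈ X₀, ∃ c : ZMod p, c • w = z := by
    intro z hz
    obtain ⟨c, hc⟩ := hspan ⟨z, hz⟩
    exact ⟨c, congrArg Subtype.val hc⟩
  have hXs : ∀ z ∈ X₀, z ≠ 0 → X₀ = Submodule.span (ZMod p) {z} := by
    intro z hz hz0
    obtain ⟨c, rfl⟩ := hXw z hz
    have hc : c ≠ 0 := by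
      rintro rfl
      exact hz0 (zero_smul _ _)
    apply le_antisymm
    · intro z' hz'
      obtain ⟨c', rfl⟩ := hXw z' hz'
      refine Submodule.mem_span_singleton.2 ⟨c' / c, ?_⟩
      rw [smul_smul, div_mul_cancel₀ _ hc]
    · rw [Submodule.span_singleton_le_iff_mem]
      exact hz
  obtain ⟨x, y, hxy⟩ := im_value h w (hX hwX)
  have hx0 : x ≠ 0 := by
    rintro rfl
    rw [map_zero, LinearMap.zero_apply] at hxy
    exact hw0' hxy.symm
  have hyx : ∀ c : ZMod p, y ≠ c • x := by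
    rintro c rfl
    rw [map_smul, h.alt, smul_zero] at hxy
    exact hw0' hxy.symm
  have hXw' := hXs w hwX hw0'
  by_cases hU : U = ⊥
  · obtain ⟨e, he0, he1⟩ := basis_two h x y hx0 hyx
    have h1 := good_one' h e U (by rw [hU]; exact bot_le)
    rw [he0, he1, hxy, ← hXw'] at h1
    exact h1
  obtain ⟨u, huU, hu0⟩ := (Submodule.ne_bot_iff _).1 hU
  by_cases hUu : U ≤ Submodule.span (ZMod p) {u}
  · by_cases hus : u ∈ Submodule.span (ZMod p) {x, y}
    · obtain ⟨e, he0, he1⟩ := basis_two h x y hx0 hyx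
      have h1 := good_one h e U (by
        rw [he0, he1]
        refine hUu.trans ?_
        rw [Submodule.span_singleton_le_iff_mem]
        exact hus) hU
      rw [he0, he1, hxy, ← hXw'] at h1
      exact h1
    · obtain ⟨e, he0, he1, he2⟩ := basis_three h x y u hx0 hyx hus
      have h1 := good_one' h e U (by rw [he2]; exact hUu)
      rw [he0, he1, hxy, ← hXw'] at h1
      exact h1
  · obtain ⟨u', hu'U, hu'⟩ := SetLike.not_le_iff_exists.1 hUu
    have hu'' : ∀ c : ZMod p, u' ≠ c • u := fun c hc => hu' (Submodule.mem_span_singleton.2 ⟨c, hc.symm⟩)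
    have hb := b_ne h u u' hu0 hu''
    have hle : U ≤ Submodule.span (ZMod p) {u, u'} := by
      intro z hz
      by_contra hcon
      obtain ⟨e, he0, he1, he2⟩ := basis_three h u u' z hu0 hu'' hcon
      obtain ⟨c, hc⟩ := hXw _ (hUX u huU u' hu'U)
      obtain ⟨c', hc'⟩ := hXw _ (hUX u huU z hz)
      have h1 := ((im_coord h e).2 0 c c' (by
        rw [he0, he1, he2, S6_anti h u z, ← hc, ← hc']
        module)).2.1
      apply hb
      rw [← hc, h1, zero_smul]
    obtain ⟨e, he0, he1⟩ := basis_two h u u' hu0 hu''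
    have h1 := good_one h e U (by rw [he0, he1]; exact hle) hU
    rw [he0, he1, ← hXs _ (hUX u huU u' hu'U) hb] at h1
    exact h1

/-- PROOF. `b` vanishes on `U`, so `U` has dimension at most one (`b_ne`).  `U = ⊥`: `good_zero'` (any basis,
`Module.finBasisOfFinrankEq`); `U = span {u}`: `basis_one`, `good_zero`. -/
theorem good_dim_zero (h : Free3 p b) (U : Submodule (ZMod p) V)
    (hUX : ∀ u ∈ U, ∀ v ∈ U, b u v = 0) : Good b U (⊥ : Submodule (ZMod p) W) := by
  have : Fact p.Prime := ⟨h.prime⟩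
  have := h.finV
  by_cases hU : U = ⊥
  · rw [hU]
    exact good_zero' h (Module.finBasisOfFinrankEq (ZMod p) V h.dV)
  obtain ⟨u, huU, hu0⟩ := (Submodule.ne_bot_iff _).1 hU
  have hUs : U = Submodule.span (ZMod p) {u} := by
    apply le_antisymm
    · intro z hz
      by_contra hcon
      exact b_ne h u z hu0 (fun c hc => hcon (Submodule.mem_span_singleton.2 ⟨c, hc.symm⟩)) (hUX u huU z hz)
    · rw [Submodule.span_singleton_le_iff_mem]
      exact huU
  obtain ⟨e, he⟩ := basis_one h u hu0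
  have h1 := good_zero h e
  rw [he, ← hUs] at h1
  exact h1

end FPY
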